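import Mathlib

/-!
# Definitions for the theorem on zeros near `Re = 1` and prime sums
-/

set_option autoImplicit false

open Complex

namespace Pool.Agent.H48.VP

/-- `P(M, t) = ∑_{p ≤ M} p^(-it)`, sum over primes -/
noncomputable def P (M : ℕ) (t : ℝ) : ℂ :=
  ∑ p ∈ (Finset.Icc 1 M).filter Nat.Prime, (p : ℂ) ^ (-(t * I))

/-- some half-plane `Re s ≥ σ0`, `1/2 < σ0 < 1`, is free of zeros of `ζ` -/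
def ZeroFree : Prop :=
  ∃ σ0 : ℝ, 1 / 2 < σ0 ∧ σ0 < 1 ∧ ∀ s : ℂ, σ0 ≤ s.re → riemannZeta s ≠ 0

/-- power saving for `P(M, t)` at the scale `t^((1-δ)x) ≤ M ≤ t^x` -/
def Saving (x : ℝ) : Prop :=
  ∃ δ t0 : ℝ, 0 < δ ∧ δ < 1 ∧ ∀ (t : ℝ) (M : ℕ), t0 ≤ t → t ^ ((1 - δ) * x) ≤ M →
    (M : ℝ) ≤ t ^ x → ‖P M t‖ ≤ (M : ℝ) ^ (1 - δ)

/-- power saving for the single sum `P(M, t)`, `M = ⌊t^x⌋` -/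
def SavingOne (x : ℝ) : Prop :=
  ∃ δ t0 : ℝ, 0 < δ ∧ δ < 1 ∧ ∀ t : ℝ, t0 ≤ t →
    ‖P ⌊t ^ x⌋₊ t‖ ≤ (⌊t ^ x⌋₊ : ℝ) ^ (1 - δ)

/-- power saving for the sums `∑_{p ≤ n^x} p^(-i√n)`, `n` an integer -/
def SavingInt (x : ℝ) : Prop :=
  ∃ (δ : ℝ) (n0 : ℕ), 0 < δ ∧ ∀ n : ℕ, n0 ≤ n → ‖P ⌊(n : ℝ) ^ x⌋₊ √n‖ ≤ (n : ℝ) ^ (x - δ)

/-- power saving for the means of `|∑_{p ≤ n^x} p^(-it)|` over `n ≤ t ≤ n+1`, `n` an integer -/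
def SavingMean (x : ℝ) : Prop :=
  ∃ (δ : ℝ) (n0 : ℕ), 0 < δ ∧ ∀ n : ℕ, n0 ≤ n →
    ∫ t in (n : ℝ)..(n + 1), ‖P ⌊(n : ℝ) ^ x⌋₊ t‖ ≤ (n : ℝ) ^ (x - δ)

/-- the point `ρ` is seen by all primes up to `N`, in the mean over the heights within `C` of
`im ρ` -/
def SeenMean (ε C N : ℝ) (ρ : ℂ) : Prop :=
  N ^ (ρ.re - ε) ≤ ∫ t in (ρ.im - C)..(ρ.im + C), ‖P ⌊N⌋₊ t‖

/-- the point `ρ` is seen by the primes up to `N`, up to a power `κ` of the logarithm -/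
def Seen (ε κ N : ℝ) (ρ : ℂ) : Prop :=
  ∃ M : ℕ, N ^ (1 - ε) ≤ M ∧ (M : ℝ) ≤ N ∧
    (M : ℝ) ^ (ρ.re - ε * (1 - ρ.re)) ≤ Real.log (ρ.im + N) ^ κ * ‖P M ρ.im‖

/-- `0 < η(t) ≤ 1/4`, `X(t) ≥ 1`, `log X(t) ≥ C √η(t) log t` and
`η(t) log X(t) ≥ C log log (t + X(t))` for `t ≥ t0` -/
def Scale (C t0 : ℝ) (η X : ℝ → ℝ) : Prop :=
  ∀ t : ℝ, t0 ≤ t → 0 < η t ∧ η t ≤ 1 / 4 ∧ 1 ≤ X t ∧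
    C * (√(η t) * Real.log t) ≤ Real.log (X t) ∧
    C * Real.log (Real.log (t + X t)) ≤ η t * Real.log (X t)

/-- `|P(M, t)| ≤ M^(1-κη(t))` for `X(t)^(1-ε) ≤ M ≤ X(t)`, `t ≥ t0` -/
def PrimeSaving (ε κ t0 : ℝ) (η X : ℝ → ℝ) : Prop :=
  ∀ (t : ℝ) (M : ℕ), t0 ≤ t → X t ^ (1 - ε) ≤ M → (M : ℝ) ≤ X t →
    ‖P M t‖ ≤ (M : ℝ) ^ (1 - κ * η t)

/-- zero-free region: `re ρ ≤ 1 - κ η(im ρ)` for the zeros with `im ρ ≥ t0` -/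
def Region (κ t0 : ℝ) (η : ℝ → ℝ) : Prop :=
  ∀ ρ : ℂ, riemannZeta ρ = 0 → t0 ≤ ρ.im → ρ.re ≤ 1 - κ * η ρ.im

/-- `η(t') ≥ (1-ε) η(t)` for `t ≥ t0`, `t/2 ≤ t' ≤ 2t` -/
def Regular (ε t0 : ℝ) (η : ℝ → ℝ) : Prop :=
  ∀ t t' : ℝ, t0 ≤ t → t / 2 ≤ t' → t' ≤ 2 * t → (1 - ε) * η t ≤ η t'

end Pool.Agent.H48.VP
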