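import Mathlib

/-!
# Perron: from one cutoff and many heights to all smaller cutoffs

`K(w) = (cos(aw) - cos(bw))/w^2`; `∫ K(w) e^(-iuw) dw = κ (b-a) F(u)`, `F` the trapezoid which is
`1` for `|u| ≤ a`, `0` for `|u| ≥ b`, `κ = ∫ (1 - cos w)/w^2 dw > 0`.
-/

set_option autoImplicit false

open Complex MeasureTheory

namespace Pool.Agent.H48.VP

/-- `(1 - cos w)/w^2` -/
noncomputable def qf (w : ℝ) : ℝ := (1 - Real.cos w) / w ^ 2

theorem qf_nonneg (w : ℝ) : 0 ≤ qf w :=
  div_nonneg (by linarith [Real.cos_le_one w]) (sq_nonneg w)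

theorem qf_le (w : ℝ) : qf w ≤ 4 * (1 + w ^ 2)⁻¹ := by
  unfold qf
  rcases eq_or_ne w 0 with rfl | hw
  · norm_num
  have hw2 : 0 < w ^ 2 := by positivity
  rw [div_le_iff₀ hw2]
  rcases le_total (w ^ 2) 1 with h | h
  · have h1 : 1 - w ^ 2 / 2 ≤ Real.cos w := Real.one_sub_sq_div_two_le_cos
    have h2 : 1 / 2 ≤ (1 + w ^ 2)⁻¹ := by
      rw [one_div]
      exact inv_anti₀ (by positivity) (by linarith)
    nlinarith
  · have h1 : -1 ≤ Real.cos w := Real.neg_one_le_cos w
    have h2 : 1 ≤ 2 * ((1 + w ^ 2)⁻¹ * w ^ 2) := by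
      rw [inv_mul_eq_div, mul_div_assoc', le_div_iff₀ (by positivity)]
      linarith
    nlinarith

theorem qf_cont_ae : AEStronglyMeasurable qf volume := by
  unfold qf
  exact (Measurable.div (measurable_const.sub Real.measurable_cos) (measurable_id.pow_const 2)).aestronglyMeasurable

theorem qf_int : Integrable qf := by
  refine Integrable.mono' (integrable_inv_one_add_sq.const_mul 4) qf_cont_ae ?_
  refine Filter.Eventually.of_forall fun w => ?_
  rw [Real.norm_of_nonneg (qf_nonneg w)]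
  exact qf_le w

/-- the constant (its value is `π`) -/
noncomputable def kap : ℝ := ∫ w, qf w

theorem kap_pos : 0 < kap := by
  unfold kap
  rw [integral_pos_iff_support_of_nonneg qf_nonneg qf_int]
  have h : Set.Ioo (1 : ℝ) 2 ⊆ Function.support qf := by
    intro w hw
    rw [Function.mem_support]
    unfold qf
    have h1 : 0 < w := by linarith [hw.1]
    have h2 : Real.cos w < 1 := by
      have hpi := Real.pi_gt_three
      rw [← Real.cos_zero]
      exact Real.cos_lt_cos_of_nonneg_of_le_pi le_rfl (by linarith [hw.2]) h1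
    have h3 : 0 < (1 - Real.cos w) / w ^ 2 := div_pos (by linarith) (by positivity)
    exact h3.ne'
  refine lt_of_lt_of_le ?_ (measure_mono h)
  rw [Real.volume_Ioo]
  norm_num

theorem J_int (c : ℝ) : Integrable (fun w : ℝ => (1 - Real.cos (c * w)) / w ^ 2) := by
  rcases eq_or_ne c 0 with rfl | hc
  · simp
  · have h := (qf_int.comp_mul_left' hc).const_mul (c ^ 2)
    refine h.congr (Filter.Eventually.of_forall fun w => ?_)
    simp only [qf]
    rcases eq_or_ne w 0 with rfl | hw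
    · simp
    · field_simp

theorem J_eq (c : ℝ) : ∫ w : ℝ, (1 - Real.cos (c * w)) / w ^ 2 = kap * |c| := by
  rcases eq_or_ne c 0 with rfl | hc
  · simp
  · have h1 : (fun w : ℝ => (1 - Real.cos (c * w)) / w ^ 2) = fun w => c ^ 2 * qf (c * w) := by
      funext w
      simp only [qf]
      rcases eq_or_ne w 0 with rfl | hw
      · simp
      · field_simp
    rw [h1, integral_const_mul, Measure.integral_comp_mul_left (fun w => qf w) c]
    unfold kap
    rw [smul_eq_mul, abs_inv]
    have h2 : c ^ 2 = |c| * |c| := by rw [← sq, sq_abs]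
    have h3 : |c| ≠ 0 := abs_ne_zero.2 hc
    rw [h2]
    field_simp

/-- the kernel -/
noncomputable def Kf (a b w : ℝ) : ℝ := (Real.cos (a * w) - Real.cos (b * w)) / w ^ 2

theorem Kf_eq (a b w : ℝ) :
    Kf a b w = (1 - Real.cos (b * w)) / w ^ 2 - (1 - Real.cos (a * w)) / w ^ 2 := by
  unfold Kf
  rw [← sub_div]
  congr 1
  ring

theorem Kf_int (a b : ℝ) : Integrable (Kf a b) := by
  have h : Kf a b = fun w => (1 - Real.cos (b * w)) / w ^ 2 - (1 - Real.cos (a * w)) / w ^ 2 :=
    funext (Kf_eq a b)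
  rw [h]
  exact (J_int b).sub (J_int a)

theorem Kf_cos (a b u : ℝ) :
    ∫ w : ℝ, Kf a b w * Real.cos (u * w) =
      kap / 2 * (|b + u| + |b - u| - |a + u| - |a - u|) := by
  have h : (fun w : ℝ => Kf a b w * Real.cos (u * w)) = fun w =>
      1 / 2 * ((1 - Real.cos ((b + u) * w)) / w ^ 2 + (1 - Real.cos ((b - u) * w)) / w ^ 2 -
        (1 - Real.cos ((a + u) * w)) / w ^ 2 - (1 - Real.cos ((a - u) * w)) / w ^ 2) := by
    funext w
    unfold Kf
    have e1 : Real.cos ((b + u) * w) = Real.cos (b * w) * Real.cos (u * w) -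
        Real.sin (b * w) * Real.sin (u * w) := by rw [add_mul, Real.cos_add]
    have e2 : Real.cos ((b - u) * w) = Real.cos (b * w) * Real.cos (u * w) +
        Real.sin (b * w) * Real.sin (u * w) := by rw [sub_mul, Real.cos_sub]
    have e3 : Real.cos ((a + u) * w) = Real.cos (a * w) * Real.cos (u * w) -
        Real.sin (a * w) * Real.sin (u * w) := by rw [add_mul, Real.cos_add]
    have e4 : Real.cos ((a - u) * w) = Real.cos (a * w) * Real.cos (u * w) +
        Real.sin (a * w) * Real.sin (u * w) := by rw [sub_mul, Real.cos_sub]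
    rw [e1, e2, e3, e4]
    ring
  rw [h, integral_const_mul, integral_sub, integral_sub, integral_add, J_eq, J_eq, J_eq, J_eq]
  · ring
  · exact J_int _
  · exact J_int _
  · exact (J_int _).add (J_int _)
  · exact J_int _
  · exact ((J_int _).add (J_int _)).sub (J_int _)
  · exact J_int _

theorem Kf_sin (a b u : ℝ) : ∫ w : ℝ, Kf a b w * Real.sin (u * w) = 0 := by
  have h1 : ∫ w : ℝ, Kf a b w * Real.sin (u * w) = ∫ w : ℝ, Kf a b (-w) * Real.sin (u * -w) :=
    (integral_neg_eq_self (fun w => Kf a b w * Real.sin (u * w)) volume).symm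
  have h2 : (fun w : ℝ => Kf a b (-w) * Real.sin (u * -w)) =
      fun w => -(Kf a b w * Real.sin (u * w)) := by
    funext w
    unfold Kf
    rw [mul_neg, mul_neg, mul_neg, Real.cos_neg, Real.cos_neg, Real.sin_neg, neg_sq]
    ring
  rw [h2, integral_neg] at h1
  linarith

theorem Kf_bound (a b w : ℝ) (ha : 0 ≤ a) (hab : a ≤ b) :
    |Kf a b w| ≤ (b - a) * (a + b) / 2 ∧ (w ≠ 0 → |Kf a b w| ≤ (b - a) / |w|) ∧
      (w ≠ 0 → |Kf a b w| ≤ 2 / w ^ 2) := by
  have e : Real.cos (a * w) - Real.cos (b * w) =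
      2 * Real.sin ((b - a) * w / 2) * Real.sin ((a + b) * w / 2) := by
    rw [Real.cos_sub_cos]
    have h1 : (a * w - b * w) / 2 = -((b - a) * w / 2) := by ring
    have h2 : (a * w + b * w) / 2 = (a + b) * w / 2 := by ring
    rw [h1, h2, Real.sin_neg]
    ring
  have s1 : |Real.sin ((b - a) * w / 2)| ≤ (b - a) * |w| / 2 := by
    calc |Real.sin ((b - a) * w / 2)| ≤ |(b - a) * w / 2| := Real.abs_sin_le_abs
      _ = (b - a) * |w| / 2 := by
          rw [abs_div, abs_mul, abs_of_nonneg (by linarith : 0 ≤ b - a), abs_two]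
  have s2 : |Real.sin ((a + b) * w / 2)| ≤ (a + b) * |w| / 2 := by
    calc |Real.sin ((a + b) * w / 2)| ≤ |(a + b) * w / 2| := Real.abs_sin_le_abs
      _ = (a + b) * |w| / 2 := by
          rw [abs_div, abs_mul, abs_of_nonneg (by linarith : 0 ≤ a + b), abs_two]
  have s3 : |Real.sin ((a + b) * w / 2)| ≤ 1 := Real.abs_sin_le_one _
  have s4 : |Real.sin ((b - a) * w / 2)| ≤ 1 := Real.abs_sin_le_one _
  have hK : |Kf a b w| = 2 * |Real.sin ((b - a) * w / 2)| * |Real.sin ((a + b) * w / 2)| / w ^ 2 := by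
    unfold Kf
    rw [e, abs_div, abs_mul, abs_mul, abs_two, abs_of_nonneg (sq_nonneg w)]
  rcases eq_or_ne w 0 with rfl | hw
  · refine ⟨?_, fun h => absurd rfl h, fun h => absurd rfl h⟩
    rw [hK]
    simp
    have : 0 ≤ (b - a) * (a + b) := mul_nonneg (by linarith) (by linarith)
    linarith
  have hw2 : 0 < w ^ 2 := by positivity
  have hwa : 0 < |w| := abs_pos.2 hw
  have hsq : w ^ 2 = |w| * |w| := by rw [← sq, sq_abs]
  refine ⟨?_, fun _ => ?_, fun _ => ?_⟩
  · rw [hK, div_le_iff₀ hw2]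
    calc 2 * |Real.sin ((b - a) * w / 2)| * |Real.sin ((a + b) * w / 2)|
        ≤ 2 * ((b - a) * |w| / 2) * ((a + b) * |w| / 2) := by gcongr
      _ = (b - a) * (a + b) / 2 * w ^ 2 := by rw [hsq]; ring
  · rw [hK, div_le_div_iff₀ hw2 hwa]
    calc 2 * |Real.sin ((b - a) * w / 2)| * |Real.sin ((a + b) * w / 2)| * |w|
        ≤ 2 * ((b - a) * |w| / 2) * 1 * |w| := by gcongr
      _ = (b - a) * w ^ 2 := by rw [hsq]; ring
  · rw [hK]
    apply div_le_div_of_nonneg_right _ hw2.le
    calc 2 * |Real.sin ((b - a) * w / 2)| * |Real.sin ((a + b) * w / 2)| ≤ 2 * 1 * 1 := by gcongr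
      _ = 2 := by norm_num

end Pool.Agent.H48.VP
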