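import Mathlib
import Pool.Agent.H48.VP.Defs
import Pool.Agent.H48.VP.Perron

/-!
# PerronB: the prime sums and the trapezoid
-/

set_option autoImplicit false

open Complex MeasureTheory

namespace Pool.Agent.H48.VP

theorem pw_add {p : ℕ} (hp : p ≠ 0) (γ w : ℝ) :
    (p : ℂ) ^ (-(((γ + w : ℝ) : ℂ) * I)) = (p : ℂ) ^ (-((γ : ℂ) * I)) *
      ((Real.cos (Real.log p * w) : ℂ) - (Real.sin (Real.log p * w) : ℂ) * I) := by
  have hp0 : (p : ℂ) ≠ 0 := by exact_mod_cast hp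
  have h1 : -(((γ + w : ℝ) : ℂ) * I) = -((γ : ℂ) * I) + -((w : ℂ) * I) := by
    push_cast; ring
  rw [h1, Complex.cpow_add _ _ hp0]
  congr 1
  rw [Complex.cpow_def_of_ne_zero hp0, ← Complex.natCast_log]
  have h2 : (Real.log p : ℂ) * -((w : ℂ) * I) = ((-(Real.log p * w) : ℝ) : ℂ) * I := by
    push_cast; ring
  rw [h2, Complex.exp_mul_I, ← Complex.ofReal_cos, ← Complex.ofReal_sin, Real.cos_neg,
    Real.sin_neg]
  push_cast
  ring

theorem pw_norm {p : ℕ} (hp : p ≠ 0) (γ : ℝ) : ‖(p : ℂ) ^ (-((γ : ℂ) * I))‖ = 1 := by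
  have h := Complex.norm_cpow_eq_rpow_re_of_pos (x := (p : ℝ)) (by positivity) (-((γ : ℂ) * I))
  rw [Complex.ofReal_natCast] at h
  rw [h]
  simp

theorem P_norm (M : ℕ) (t : ℝ) : ‖P M t‖ ≤ M := by
  unfold P
  calc ‖∑ p ∈ (Finset.Icc 1 M).filter Nat.Prime, (p : ℂ) ^ (-((t : ℂ) * I))‖
      ≤ ∑ p ∈ (Finset.Icc 1 M).filter Nat.Prime, ‖(p : ℂ) ^ (-((t : ℂ) * I))‖ := norm_sum_le _ _
    _ ≤ ∑ p ∈ (Finset.Icc 1 M).filter Nat.Prime, (1 : ℝ) := by
        refine Finset.sum_le_sum fun p hp => ?_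
        rw [pw_norm (Nat.Prime.ne_zero (Finset.mem_filter.1 hp).2)]
    _ = (((Finset.Icc 1 M).filter Nat.Prime).card : ℝ) := by simp
    _ ≤ ((Finset.Icc 1 M).card : ℝ) := by exact_mod_cast Finset.card_filter_le _ _
    _ = M := by simp

theorem P_cont (M : ℕ) : Continuous (fun t : ℝ => P M t) := by
  unfold P
  refine continuous_finsetSum _ fun p hp => ?_
  have hp0 : (p : ℂ) ≠ 0 := by exact_mod_cast (Nat.Prime.ne_zero (Finset.mem_filter.1 hp).2)
  have : Continuous fun t : ℝ => -((t : ℂ) * I) := by fun_prop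
  exact this.const_cpow (Or.inl hp0)

/-- the trapezoid -/
noncomputable def trap (a b u : ℝ) : ℝ := (|b + u| + |b - u| - |a + u| - |a - u|) / (2 * (b - a))

theorem trap_one {a b u : ℝ} (hab : a < b) (hu : 0 ≤ u) (hua : u ≤ a) : trap a b u = 1 := by
  unfold trap
  rw [abs_of_nonneg (by linarith : 0 ≤ b + u), abs_of_nonneg (by linarith : 0 ≤ b - u),
    abs_of_nonneg (by linarith : 0 ≤ a + u), abs_of_nonneg (by linarith : 0 ≤ a - u)]
  have : b - a ≠ 0 := by linarith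
  field_simp
  ring

theorem trap_zero {a b u : ℝ} (ha : 0 ≤ a) (hab : a < b) (hub : b ≤ u) : trap a b u = 0 := by
  unfold trap
  rw [abs_of_nonneg (by linarith : 0 ≤ b + u), abs_of_nonpos (by linarith : b - u ≤ 0),
    abs_of_nonneg (by linarith : 0 ≤ a + u), abs_of_nonpos (by linarith : a - u ≤ 0)]
  have : b + u + -(b - u) - (a + u) - -(a - u) = 0 := by ring
  rw [this, zero_div]

theorem trap_mem {a b u : ℝ} (ha : 0 ≤ a) (hab : a < b) (hu : a ≤ u) (hub : u ≤ b) :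
    0 ≤ trap a b u ∧ trap a b u ≤ 1 := by
  have e : trap a b u = (b - u) / (b - a) := by
    unfold trap
    rw [abs_of_nonneg (by linarith : 0 ≤ b + u), abs_of_nonneg (by linarith : 0 ≤ b - u),
      abs_of_nonneg (by linarith : 0 ≤ a + u), abs_of_nonpos (by linarith : a - u ≤ 0)]
    have : b - a ≠ 0 := by linarith
    field_simp
    ring
  rw [e]
  have hba : 0 < b - a := by linarith
  constructor
  · exact div_nonneg (by linarith) hba.le
  · rw [div_le_one hba]; linarith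

end Pool.Agent.H48.VP
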