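import Mathlib
import Pool.Agent.H48.VP.PerronB

/-!
# PerronS: smoother cutoffs

Multiplying the kernel by `sinc(hw)` averages its transform over intervals of length `2h`.
-/

set_option autoImplicit false

open Complex MeasureTheory

namespace Pool.Agent.H48.VP

/-- `e^(-iuw)` -/
noncomputable def ex (u w : ℝ) : ℂ := Complex.exp (-((u * w : ℝ) * I))

theorem ex_norm (u w : ℝ) : ‖ex u w‖ = 1 := by
  unfold ex
  have : -(((u * w : ℝ) : ℂ) * I) = ((-(u * w) : ℝ) : ℂ) * I := by push_cast; ring
  rw [this, Complex.norm_exp_ofReal_mul_I]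

theorem ex_cont : Continuous (fun z : ℝ × ℝ => ex z.1 z.2) := by
  unfold ex
  fun_prop

theorem ex_eq (u w : ℝ) : ex u w = (Real.cos (u * w) : ℂ) - (Real.sin (u * w) : ℂ) * I := by
  unfold ex
  have : -(((u * w : ℝ) : ℂ) * I) = ((-(u * w) : ℝ) : ℂ) * I := by push_cast; ring
  rw [this, Complex.exp_mul_I, ← Complex.ofReal_cos, ← Complex.ofReal_sin, Real.cos_neg,
    Real.sin_neg]
  push_cast
  ring

theorem pw_ex {p : ℕ} (hp : p ≠ 0) (γ w : ℝ) :
    (p : ℂ) ^ (-(((γ + w : ℝ) : ℂ) * I)) = (p : ℂ) ^ (-((γ : ℂ) * I)) * ex (Real.log p) w := by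
  rw [pw_add hp, ex_eq]

/-- `G` has the transform `c T` -/
def HasT (G : ℝ → ℝ) (c : ℝ) (T : ℝ → ℝ) : Prop :=
  ∀ u : ℝ, ∫ w : ℝ, (G w : ℂ) * ex u w = ((c * T u : ℝ) : ℂ)

/-- a cutoff: `1` for `|u| ≤ a`, `0` for `|u| ≥ b` -/
def Shape (a b : ℝ) (T : ℝ → ℝ) : Prop :=
  (∀ u : ℝ, 0 ≤ T u ∧ T u ≤ 1) ∧ (∀ u : ℝ, |u| ≤ a → T u = 1) ∧ (∀ u : ℝ, b ≤ |u| → T u = 0)

/-- average over `[u-h, u+h]` -/
noncomputable def sm (h : ℝ) (T : ℝ → ℝ) (u : ℝ) : ℝ := (∫ v in (u - h)..(u + h), T v) / (2 * h)

theorem sinc_ex {h : ℝ} (hh : 0 < h) (u w : ℝ) :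
    ∫ v in (u - h)..(u + h), ex v w = ((2 * h * Real.sinc (h * w) : ℝ) : ℂ) * ex u w := by
  rcases eq_or_ne w 0 with rfl | hw
  · have h1 : ∀ v : ℝ, ex v 0 = 1 := by
      intro v
      unfold ex
      simp
    simp only [h1]
    rw [intervalIntegral.integral_const, mul_zero, Real.sinc_zero]
    simp only [Complex.real_smul]
    push_cast
    ring
  · have hc : -((w : ℂ) * I) ≠ 0 := by
      rw [neg_ne_zero]
      exact mul_ne_zero (by exact_mod_cast hw) I_ne_zero
    have h1 : (fun v : ℝ => ex v w) = fun v : ℝ => Complex.exp (-((w : ℂ) * I) * v) := by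
      funext v
      unfold ex
      congr 1
      push_cast
      ring
    rw [h1, integral_exp_mul_complex hc]
    have e1 : -((w : ℂ) * I) * ((u + h : ℝ) : ℂ) = -(((u * w : ℝ) : ℂ) * I) +
        ((-(h * w) : ℝ) : ℂ) * I := by push_cast; ring
    have e2 : -((w : ℂ) * I) * ((u - h : ℝ) : ℂ) = -(((u * w : ℝ) : ℂ) * I) +
        ((h * w : ℝ) : ℂ) * I := by push_cast; ring
    rw [e1, e2, Complex.exp_add, Complex.exp_add, Complex.exp_mul_I, Complex.exp_mul_I,
      ← Complex.ofReal_cos, ← Complex.ofReal_sin, ← Complex.ofReal_cos, ← Complex.ofReal_sin,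
      Real.cos_neg, Real.sin_neg, Real.sinc_of_ne_zero (mul_ne_zero hh.ne' hw)]
    unfold ex
    have hwc : (w : ℂ) ≠ 0 := by exact_mod_cast hw
    have hhc : (h : ℂ) ≠ 0 := by exact_mod_cast hh.ne'
    push_cast
    field_simp
    ring

theorem sm_cont {h : ℝ} {T : ℝ → ℝ} (hT : Continuous T) : Continuous (sm h T) := by
  have hI : ∀ a b : ℝ, IntervalIntegrable T volume a b := fun a b => hT.intervalIntegrable a b
  have h1 : sm h T = fun u => ((∫ v in (0 : ℝ)..(u + h), T v) - ∫ v in (0 : ℝ)..(u - h), T v) /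
      (2 * h) := by
    funext u
    unfold sm
    rw [intervalIntegral.integral_interval_sub_left (hI _ _) (hI _ _)]
  rw [h1]
  have h2 := intervalIntegral.continuous_primitive hI 0
  exact ((h2.comp (by fun_prop : Continuous fun u : ℝ => u + h)).sub
    (h2.comp (by fun_prop : Continuous fun u : ℝ => u - h))).div_const _

theorem sm_hasT {h c : ℝ} (hh : 0 < h) {G T : ℝ → ℝ} (hG : Integrable G) (hT : HasT G c T) :
    HasT (fun w => G w * Real.sinc (h * w)) c (sm h T) := by
  intro u
  have hint : Integrable (Function.uncurry fun v w : ℝ => (G w : ℂ) * ex v w)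
      ((volume.restrict (Set.uIoc (u - h) (u + h))).prod volume) := by
    have h1 : Integrable (fun _ : ℝ => (1 : ℂ)) (volume.restrict (Set.uIoc (u - h) (u + h))) := by
      rw [Set.uIoc_of_le (by linarith)]
      apply integrable_const
    have h2 : Integrable (fun w : ℝ => (G w : ℂ)) := hG.ofReal
    have h3 := h1.mul_prod h2
    have h4 := h3.mul_bdd (c := 1) ex_cont.aestronglyMeasurable
      (Filter.Eventually.of_forall fun z => (ex_norm z.1 z.2).le)
    refine h4.congr (Filter.Eventually.of_forall fun z => ?_)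
    simp [Function.uncurry]
  have hswap := intervalIntegral_integral_swap (a := u - h) (b := u + h) hint
  have e1 : (fun w : ℝ => ((G w * Real.sinc (h * w) : ℝ) : ℂ) * ex u w) =
      fun w : ℝ => (1 / (2 * h) : ℂ) * ∫ v in (u - h)..(u + h), (G w : ℂ) * ex v w := by
    funext w
    rw [intervalIntegral.integral_const_mul, sinc_ex hh]
    have hhc : (h : ℂ) ≠ 0 := by exact_mod_cast hh.ne'
    push_cast
    field_simp
  rw [e1, integral_const_mul, ← hswap]
  have e2 : ∀ v : ℝ, ∫ w : ℝ, (G w : ℂ) * ex v w = ((c * T v : ℝ) : ℂ) := hT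
  simp only [e2]
  rw [intervalIntegral.integral_ofReal, intervalIntegral.integral_const_mul]
  unfold sm
  have hhc : (h : ℂ) ≠ 0 := by exact_mod_cast hh.ne'
  push_cast
  field_simp

theorem sm_shape {a b h : ℝ} (hh : 0 < h) {T : ℝ → ℝ} (hT : Continuous T) (hs : Shape a b T) :
    Shape (a - h) (b + h) (sm h T) := by
  obtain ⟨s1, s2, s3⟩ := hs
  have hle : ∀ u : ℝ, u - h ≤ u + h := fun u => by linarith
  have h2h : 0 < 2 * h := by linarith
  have hI : ∀ a b : ℝ, IntervalIntegrable T volume a b := fun a b => hT.intervalIntegrable a b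
  refine ⟨fun u => ⟨?_, ?_⟩, fun u hu => ?_, fun u hu => ?_⟩
  · unfold sm
    exact div_nonneg (intervalIntegral.integral_nonneg (hle u) fun v _ => (s1 v).1) h2h.le
  · unfold sm
    rw [div_le_one h2h]
    calc ∫ v in (u - h)..(u + h), T v ≤ ∫ v in (u - h)..(u + h), (1 : ℝ) :=
          intervalIntegral.integral_mono_on (hle u) (hI _ _) intervalIntegrable_const
            fun v _ => (s1 v).2
      _ = 2 * h := by
          rw [intervalIntegral.integral_const, smul_eq_mul]
          ring
  · unfold sm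
    have : ∫ v in (u - h)..(u + h), T v = ∫ v in (u - h)..(u + h), (1 : ℝ) := by
      refine intervalIntegral.integral_congr fun v hv => ?_
      rw [Set.uIcc_of_le (hle u)] at hv
      have hu' := abs_le.1 hu
      exact s2 v (abs_le.2 ⟨by linarith [hv.1], by linarith [hv.2]⟩)
    rw [this, intervalIntegral.integral_const, smul_eq_mul]
    have : u + h - (u - h) = 2 * h := by ring
    rw [this, mul_one, div_self h2h.ne']
  · unfold sm
    have : ∫ v in (u - h)..(u + h), T v = ∫ v in (u - h)..(u + h), (0 : ℝ) := by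
      refine intervalIntegral.integral_congr fun v hv => ?_
      rw [Set.uIcc_of_le (hle u)] at hv
      refine s3 v ?_
      have h1 : |u| ≤ |v| + |u - v| := by
        have := abs_add_le v (u - v)
        rwa [add_sub_cancel] at this
      have h2 : |u - v| ≤ h := abs_le.2 ⟨by linarith [hv.2], by linarith [hv.1]⟩
      linarith
    rw [this, intervalIntegral.integral_zero, zero_div]

theorem trap_neg (a b u : ℝ) : trap a b (-u) = trap a b u := by
  unfold trap
  congr 1
  have e1 : b + -u = b - u := by ring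
  have e2 : b - -u = b + u := by ring
  have e3 : a + -u = a - u := by ring
  have e4 : a - -u = a + u := by ring
  rw [e1, e2, e3, e4]
  ring

theorem trap_abs (a b u : ℝ) : trap a b u = trap a b |u| := by
  rcases abs_cases u with h | h
  · rw [h.1]
  · rw [h.1, trap_neg]

theorem trap_cont (a b : ℝ) : Continuous (trap a b) := by
  unfold trap
  fun_prop

theorem trap_shape {a b : ℝ} (ha : 0 ≤ a) (hab : a < b) : Shape a b (trap a b) := by
  refine ⟨fun u => ?_, fun u hu => ?_, fun u hu => ?_⟩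
  · rw [trap_abs]
    rcases le_total |u| a with h | h
    · rw [trap_one hab (abs_nonneg _) h]
      norm_num
    · rcases le_total |u| b with h2 | h2
      · exact trap_mem ha hab h h2
      · rw [trap_zero ha hab h2]
        norm_num
  · rw [trap_abs, trap_one hab (abs_nonneg _) hu]
  · rw [trap_abs, trap_zero ha hab hu]

theorem trap_hasT {a b : ℝ} (hab : a < b) : HasT (Kf a b) (kap * (b - a)) (trap a b) := by
  intro u
  have hc : Integrable (fun w : ℝ => Kf a b w * Real.cos (u * w)) :=
    (Kf_int a b).mul_bdd (c := 1) (Continuous.aestronglyMeasurable (by fun_prop))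
      (Filter.Eventually.of_forall fun w => by
        rw [Real.norm_eq_abs]; exact Real.abs_cos_le_one _)
  have hs : Integrable (fun w : ℝ => Kf a b w * Real.sin (u * w)) :=
    (Kf_int a b).mul_bdd (c := 1) (Continuous.aestronglyMeasurable (by fun_prop))
      (Filter.Eventually.of_forall fun w => by
        rw [Real.norm_eq_abs]; exact Real.abs_sin_le_one _)
  have h1 : (fun w : ℝ => (Kf a b w : ℂ) * ex u w) = fun w : ℝ =>
      (((Kf a b w * Real.cos (u * w) : ℝ) : ℂ) -
          ((Kf a b w * Real.sin (u * w) : ℝ) : ℂ) * I) := by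
    funext w
    rw [ex_eq]
    push_cast
    ring
  have i1 : Integrable (fun w : ℝ => ((Kf a b w * Real.cos (u * w) : ℝ) : ℂ)) := hc.ofReal
  have i2 : Integrable (fun w : ℝ => ((Kf a b w * Real.sin (u * w) : ℝ) : ℂ) * I) :=
    hs.ofReal.mul_const I
  have i3 : ∫ w : ℝ, ((Kf a b w * Real.cos (u * w) : ℝ) : ℂ) =
      ((∫ w : ℝ, Kf a b w * Real.cos (u * w) : ℝ) : ℂ) := integral_ofReal
  have i4 : ∫ w : ℝ, ((Kf a b w * Real.sin (u * w) : ℝ) : ℂ) =
      ((∫ w : ℝ, Kf a b w * Real.sin (u * w) : ℝ) : ℂ) := integral_ofReal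
  rw [h1, integral_sub i1 i2, integral_mul_const, i3, i4, Kf_cos, Kf_sin]
  have hba : b - a ≠ 0 := by linarith
  have e : kap / 2 * (|b + u| + |b - u| - |a + u| - |a - u|) = kap * (b - a) * trap a b u := by
    unfold trap
    field_simp
  rw [e]
  push_cast
  ring

/-- the `k`-fold smoothing -/
theorem smooth_iter {a b h : ℝ} (ha : 0 ≤ a) (hab : a < b) (hh : 0 < h) (k : ℕ) :
    ∃ T : ℝ → ℝ, Continuous T ∧ Shape (a - k * h) (b + k * h) T ∧
      Integrable (fun w => Kf a b w * Real.sinc (h * w) ^ k) ∧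
      HasT (fun w => Kf a b w * Real.sinc (h * w) ^ k) (kap * (b - a)) T := by
  induction k with
  | zero =>
    refine ⟨trap a b, trap_cont a b, ?_, ?_, ?_⟩
    · simpa using trap_shape ha hab
    · simpa using Kf_int a b
    · simpa using trap_hasT hab
  | succ k ih =>
    obtain ⟨T, hT, hs, hi, ht⟩ := ih
    have e : (fun w => Kf a b w * Real.sinc (h * w) ^ (k + 1)) =
        fun w => (Kf a b w * Real.sinc (h * w) ^ k) * Real.sinc (h * w) := by
      funext w
      rw [pow_succ]
      ring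
    refine ⟨sm h T, sm_cont hT, ?_, ?_, ?_⟩
    · have := sm_shape hh hT hs
      convert this using 1 <;> push_cast <;> ring
    · rw [e]
      exact hi.mul_bdd (c := 1) (Continuous.aestronglyMeasurable (by fun_prop))
        (Filter.Eventually.of_forall fun w => by
          rw [Real.norm_eq_abs]; exact Real.abs_sinc_le_one _)
    · rw [e]
      exact sm_hasT hh hi ht

end Pool.Agent.H48.VP
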