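import Mathlib
import Pool.Agent.H48.VP.PerronS

/-!
# PerronC: from one cutoff and many heights to all smaller cutoffs

`|P(M', γ)| ≪ (log M + log L) max_{|t-γ| ≤ L} |P(M, t)| + M/(hL)^(k+1) + hM` for `M' ≤ M`.
-/

set_option autoImplicit false

open Complex MeasureTheory

namespace Pool.Agent.H48.VP

theorem arctan_le_of_pos {x : ℝ} (hx : 0 < x) : Real.arctan x ≤ x := by
  have h1 : 0 ≤ Real.arctan x := Real.arctan_nonneg.2 hx.le
  have h2 := Real.le_tan h1 (Real.arctan_lt_pi_div_two x)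
  rwa [Real.tan_arctan] at h2

theorem tail_right {L : ℝ} (hL : 0 < L) : ∫ w in Set.Ioi L, (1 + w ^ 2)⁻¹ ≤ 1 / L := by
  rw [integral_Ioi_inv_one_add_sq, ← Real.arctan_inv_of_pos hL, one_div]
  exact arctan_le_of_pos (inv_pos.2 hL)

theorem tail_left {L : ℝ} (hL : 0 < L) : ∫ w in Set.Iic (-L), (1 + w ^ 2)⁻¹ ≤ 1 / L := by
  rw [integral_Iic_inv_one_add_sq, Real.arctan_neg, neg_add_eq_sub, ← Real.arctan_inv_of_pos hL,
    one_div]
  exact arctan_le_of_pos (inv_pos.2 hL)

theorem Kf_far (a b w : ℝ) (ha : 0 ≤ a) (hab : a ≤ b) (hw : 1 ≤ |w|) :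
    |Kf a b w| ≤ 4 * (1 + w ^ 2)⁻¹ := by
  have hw0 : w ≠ 0 := by
    rintro rfl
    rw [abs_zero] at hw
    linarith
  refine ((Kf_bound a b w ha hab).2.2 hw0).trans ?_
  have h1 : 1 ≤ w ^ 2 := by
    rw [← sq_abs]
    nlinarith
  rw [← div_eq_mul_inv, div_le_div_iff₀ (by linarith) (by linarith)]
  linarith

/-- bound for an integral against the kernel -/
theorem Kf_split {a b L S B B' : ℝ} (ha : 0 ≤ a) (hab : a ≤ b) (hL : 1 ≤ L)
    (hB0 : 0 ≤ B) (f : ℝ → ℂ) (hf : Continuous f) (hfB' : ∀ w, ‖f w‖ ≤ B')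
    (hfB : ∀ w, L ≤ |w| → ‖f w‖ ≤ B) (hfS : ∀ w, |w| ≤ L → ‖f w‖ ≤ S) :
    ‖∫ w : ℝ, (Kf a b w : ℂ) * f w‖ ≤
      ((b - a) * (a + b) + 2 * ((b - a) * Real.log L)) * S + 8 * B / L := by
  have hL0 : 0 < L := by linarith
  have hint : Integrable (fun w : ℝ => |Kf a b w| * ‖f w‖) := by
    have h1 : Integrable (fun w : ℝ => |Kf a b w|) := (Kf_int a b).abs
    exact h1.mul_bdd (c := B') (hf.norm.aestronglyMeasurable)
      (Filter.Eventually.of_forall fun w => by rw [norm_norm]; exact hfB' w)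
  have h0 : ‖∫ w : ℝ, (Kf a b w : ℂ) * f w‖ ≤ ∫ w : ℝ, |Kf a b w| * ‖f w‖ := by
    refine (norm_integral_le_integral_norm _).trans (le_of_eq ?_)
    congr 1
    funext w
    rw [norm_mul, Complex.norm_real, Real.norm_eq_abs]
  refine h0.trans ?_
  set F : ℝ → ℝ := fun w => |Kf a b w| * ‖f w‖ with hF
  have hI : ∀ u v : ℝ, IntervalIntegrable F volume u v := fun u v => hint.intervalIntegrable
  rw [← intervalIntegral.integral_Iic_add_Ioi (b := -L) hint.integrableOn hint.integrableOn,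
    ← intervalIntegral.integral_interval_add_Ioi (a := -L) (b := L) hint.integrableOn
      hint.integrableOn,
    ← intervalIntegral.integral_add_adjacent_intervals (hI (-L) (-1)) (hI (-1) L),
    ← intervalIntegral.integral_add_adjacent_intervals (hI (-1) 1) (hI 1 L)]
  have g := integrable_inv_one_add_sq.const_mul (4 * B)
  have t1 : ∫ w in Set.Iic (-L), F w ≤ 4 * B / L := by
    calc ∫ w in Set.Iic (-L), F w ≤ ∫ w in Set.Iic (-L), 4 * B * (1 + w ^ 2)⁻¹ := by
          refine setIntegral_mono_on hint.integrableOn g.integrableOn measurableSet_Iic ?_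
          intro w hw
          have hw1 : w ≤ -L := hw
          have hw2 : L ≤ |w| := by rw [abs_of_nonpos (by linarith)]; linarith
          calc F w ≤ 4 * (1 + w ^ 2)⁻¹ * B :=
                mul_le_mul (Kf_far a b w ha hab (hL.trans hw2)) (hfB w hw2) (norm_nonneg _)
                  (by positivity)
            _ = _ := by ring
      _ = 4 * B * ∫ w in Set.Iic (-L), (1 + w ^ 2)⁻¹ := integral_const_mul _ _
      _ ≤ 4 * B * (1 / L) := mul_le_mul_of_nonneg_left (tail_left hL0) (by positivity)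
      _ = _ := by ring
  have t2 : ∫ w in Set.Ioi L, F w ≤ 4 * B / L := by
    calc ∫ w in Set.Ioi L, F w ≤ ∫ w in Set.Ioi L, 4 * B * (1 + w ^ 2)⁻¹ := by
          refine setIntegral_mono_on hint.integrableOn g.integrableOn measurableSet_Ioi ?_
          intro w hw
          have hw1 : L < w := hw
          have hw2 : L ≤ |w| := by rw [abs_of_nonneg (by linarith)]; linarith
          calc F w ≤ 4 * (1 + w ^ 2)⁻¹ * B :=
                mul_le_mul (Kf_far a b w ha hab (hL.trans hw2)) (hfB w hw2) (norm_nonneg _)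
                  (by positivity)
            _ = _ := by ring
      _ = 4 * B * ∫ w in Set.Ioi L, (1 + w ^ 2)⁻¹ := integral_const_mul _ _
      _ ≤ 4 * B * (1 / L) := mul_le_mul_of_nonneg_left (tail_right hL0) (by positivity)
      _ = _ := by ring
  have t3 : ∫ w in (-1)..1, F w ≤ (b - a) * (a + b) * S := by
    have h1 : ∫ w in (-1 : ℝ)..1, F w ≤ ∫ w in (-1 : ℝ)..1, (b - a) * (a + b) / 2 * S := by
      refine intervalIntegral.integral_mono_on (by norm_num) (hI _ _)
        intervalIntegrable_const ?_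
      intro w hw
      have hw1 : |w| ≤ L := (abs_le.2 ⟨hw.1, hw.2⟩).trans hL
      exact mul_le_mul (Kf_bound a b w ha hab).1 (hfS w hw1) (norm_nonneg _)
        (by
          have := mul_nonneg (by linarith : 0 ≤ b - a) (by linarith : 0 ≤ a + b)
          linarith)
    refine h1.trans (le_of_eq ?_)
    rw [intervalIntegral.integral_const, smul_eq_mul]
    ring
  have t4 : ∫ w in (1 : ℝ)..L, F w ≤ (b - a) * Real.log L * S := by
    have hii : IntervalIntegrable (fun w : ℝ => (b - a) * S * w⁻¹) volume 1 L :=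
      (intervalIntegral.intervalIntegrable_inv (fun x hx => by
        rw [Set.uIcc_of_le hL] at hx
        have hx0 : x ≠ 0 := by
          intro hx0
          linarith [hx.1]
        exact hx0) continuousOn_id).const_mul _
    have h1 : ∫ w in (1 : ℝ)..L, F w ≤ ∫ w in (1 : ℝ)..L, (b - a) * S * w⁻¹ := by
      refine intervalIntegral.integral_mono_on hL (hI _ _) hii ?_
      intro w hw
      have hw0 : 0 < w := by linarith [hw.1]
      have hw1 : |w| ≤ L := by rw [abs_of_pos hw0]; exact hw.2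
      calc F w ≤ (b - a) / |w| * S :=
            mul_le_mul ((Kf_bound a b w ha hab).2.1 hw0.ne') (hfS w hw1) (norm_nonneg _)
              (div_nonneg (by linarith) (abs_nonneg _))
        _ = _ := by rw [abs_of_pos hw0, div_eq_mul_inv]; ring
    refine h1.trans (le_of_eq ?_)
    rw [intervalIntegral.integral_const_mul, integral_inv_of_pos one_pos hL0, div_one]
    ring
  have t5 : ∫ w in (-L)..(-1 : ℝ), F w ≤ (b - a) * Real.log L * S := by
    have hii : IntervalIntegrable (fun w : ℝ => -((b - a) * S) * w⁻¹) volume (-L) (-1) :=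
      (intervalIntegral.intervalIntegrable_inv (fun x hx => by
        rw [Set.uIcc_of_le (by linarith)] at hx
        exact (by linarith [hx.2] : x < 0).ne) continuousOn_id).const_mul _
    have h1 : ∫ w in (-L)..(-1 : ℝ), F w ≤ ∫ w in (-L)..(-1 : ℝ), -((b - a) * S) * w⁻¹ := by
      refine intervalIntegral.integral_mono_on (by linarith) (hI _ _) hii ?_
      intro w hw
      have hw0 : w < 0 := by linarith [hw.2]
      have hw1 : |w| ≤ L := by rw [abs_of_neg hw0]; linarith [hw.1]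
      calc F w ≤ (b - a) / |w| * S :=
            mul_le_mul ((Kf_bound a b w ha hab).2.1 hw0.ne) (hfS w hw1) (norm_nonneg _)
              (div_nonneg (by linarith) (abs_nonneg _))
        _ = _ := by rw [abs_of_neg hw0, div_eq_mul_inv, inv_neg]; ring
    refine h1.trans (le_of_eq ?_)
    rw [intervalIntegral.integral_const_mul, integral_inv_of_neg (by linarith) (by norm_num)]
    have : (-1 : ℝ) / -L = L⁻¹ := by
      rw [neg_div_neg_eq, one_div]
    rw [this, Real.log_inv]
    ring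
  have e : 8 * B / L = 4 * B / L + 4 * B / L := by ring
  rw [e]
  linarith

/-- the difference between a smooth and the sharp cutoff -/
theorem cut_diff {M M' : ℕ} (hM' : 1 ≤ M') (hMM : M' ≤ M) (γ : ℝ) {H : ℝ} (hH : 0 < H)
    (hH1 : H ≤ 1) {T : ℝ → ℝ} (hT : Shape (Real.log M') (Real.log M' + H) T) :
    ‖(∑ p ∈ (Finset.Icc 1 M).filter Nat.Prime, (p : ℂ) ^ (-((γ : ℂ) * I)) *
      (T (Real.log p) : ℂ)) - P M' γ‖ ≤ 2 * H * M := by
  obtain ⟨s1, s2, s3⟩ := hT
  have hM0 : (0 : ℝ) < M' := by exact_mod_cast hM'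
  have hla : 0 ≤ Real.log M' := Real.log_nonneg (by exact_mod_cast hM')
  have hsub : (Finset.Icc 1 M').filter Nat.Prime ⊆ (Finset.Icc 1 M).filter Nat.Prime := by
    intro p hp
    rw [Finset.mem_filter, Finset.mem_Icc] at hp ⊢
    exact ⟨⟨hp.1.1, hp.1.2.trans hMM⟩, hp.2⟩
  rw [← Finset.sum_sdiff hsub]
  have e1 : ∑ p ∈ (Finset.Icc 1 M').filter Nat.Prime, (p : ℂ) ^ (-((γ : ℂ) * I)) *
      (T (Real.log p) : ℂ) = P M' γ := by
    unfold P
    refine Finset.sum_congr rfl fun p hp => ?_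
    rw [Finset.mem_filter, Finset.mem_Icc] at hp
    have hp1 : (1 : ℝ) ≤ p := by exact_mod_cast hp.1.1
    have hp2 : (p : ℝ) ≤ M' := by exact_mod_cast hp.1.2
    rw [s2 _ (by
      rw [abs_of_nonneg (Real.log_nonneg hp1)]
      exact Real.log_le_log (by linarith) hp2)]
    simp
  rw [e1, add_sub_cancel_right]
  set Q : Finset ℕ := (Finset.Icc 1 M).filter Nat.Prime \ (Finset.Icc 1 M').filter Nat.Prime
    with hQ
  have hterm : ∀ p ∈ Q, ‖(p : ℂ) ^ (-((γ : ℂ) * I)) * (T (Real.log p) : ℂ)‖ ≤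
      if p ∈ Finset.Ioc M' ⌊M' * Real.exp H⌋₊ then 1 else 0 := by
    intro p hp
    rw [hQ, Finset.mem_sdiff, Finset.mem_filter, Finset.mem_filter, Finset.mem_Icc,
      Finset.mem_Icc] at hp
    obtain ⟨⟨⟨p1, p2⟩, p3⟩, p4⟩ := hp
    have p5 : M' < p := by
      by_contra hcon
      exact p4 ⟨⟨p1, by omega⟩, p3⟩
    have hp0 : (0 : ℝ) < p := by exact_mod_cast p1
    have hp1 : (1 : ℝ) ≤ p := by exact_mod_cast p1
    rw [norm_mul, pw_norm (Nat.Prime.ne_zero p3), one_mul, Complex.norm_real, Real.norm_eq_abs,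
      abs_of_nonneg (s1 _).1]
    split_ifs with hin
    · exact (s1 _).2
    · have hbig : Real.log M' + H ≤ Real.log p := by
        rw [Finset.mem_Ioc, not_and] at hin
        have h1 := hin p5
        rw [not_le] at h1
        have h2 : (M' : ℝ) * Real.exp H < p := Nat.lt_of_floor_lt h1
        have h3 := Real.log_le_log (by positivity) h2.le
        rw [Real.log_mul hM0.ne' (Real.exp_pos H).ne', Real.log_exp] at h3
        exact h3
      rw [s3 _ (by rw [abs_of_nonneg (Real.log_nonneg hp1)]; exact hbig)]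
  calc ‖∑ p ∈ Q, (p : ℂ) ^ (-((γ : ℂ) * I)) * (T (Real.log p) : ℂ)‖
      ≤ ∑ p ∈ Q, (if p ∈ Finset.Ioc M' ⌊M' * Real.exp H⌋₊ then (1 : ℝ) else 0) :=
        norm_sum_le_of_le _ hterm
    _ = ((Q.filter (fun p => p ∈ Finset.Ioc M' ⌊M' * Real.exp H⌋₊)).card : ℝ) := by
        rw [Finset.sum_boole]
    _ ≤ ((Finset.Ioc M' ⌊M' * Real.exp H⌋₊).card : ℝ) := by
        have : Q.filter (fun p => p ∈ Finset.Ioc M' ⌊M' * Real.exp H⌋₊) ⊆
            Finset.Ioc M' ⌊M' * Real.exp H⌋₊ := fun p hp => (Finset.mem_filter.1 hp).2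
        exact_mod_cast Finset.card_le_card this
    _ ≤ M' * Real.exp H - M' := by
        rw [Nat.card_Ioc]
        have h1 : 1 ≤ Real.exp H := Real.one_le_exp hH.le
        have h2 : M' ≤ ⌊M' * Real.exp H⌋₊ := by
          apply Nat.le_floor
          nlinarith
        rw [Nat.cast_sub h2]
        have h3 := Nat.floor_le (by positivity : (0 : ℝ) ≤ M' * Real.exp H)
        linarith
    _ ≤ 2 * H * M' := by
        have h1 : |Real.exp H - 1| ≤ 2 * |H| :=
          Real.abs_exp_sub_one_le (by rw [abs_of_pos hH]; exact hH1)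
        rw [abs_of_pos hH] at h1
        have h2 := (abs_le.1 h1).2
        nlinarith
    _ ≤ 2 * H * M := by
        have : (M' : ℝ) ≤ M := by exact_mod_cast hMM
        exact mul_le_mul_of_nonneg_left this (by positivity)

theorem P_HasT (M : ℕ) (γ : ℝ) {G T : ℝ → ℝ} {c : ℝ} (hG : Integrable G) (hT : HasT G c T) :
    ∫ w : ℝ, (G w : ℂ) * P M (γ + w) = (c : ℂ) * ∑ p ∈ (Finset.Icc 1 M).filter Nat.Prime,
        (p : ℂ) ^ (-((γ : ℂ) * I)) * (T (Real.log p) : ℂ) := by
  have h1 : (fun w : ℝ => (G w : ℂ) * P M (γ + w)) = fun w : ℝ =>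
      ∑ p ∈ (Finset.Icc 1 M).filter Nat.Prime, (p : ℂ) ^ (-((γ : ℂ) * I)) *
        ((G w : ℂ) * ex (Real.log p) w) := by
    funext w
    unfold P
    rw [Finset.mul_sum]
    refine Finset.sum_congr rfl fun p hp => ?_
    rw [pw_ex (Nat.Prime.ne_zero (Finset.mem_filter.1 hp).2)]
    ring
  have hi : ∀ u : ℝ, Integrable (fun w : ℝ => (G w : ℂ) * ex u w) := fun u =>
    hG.ofReal.mul_bdd (c := 1)
      ((ex_cont.comp (by fun_prop : Continuous fun w : ℝ => (u, w))).aestronglyMeasurable)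
      (Filter.Eventually.of_forall fun w => (ex_norm u w).le)
  rw [h1, integral_finsetSum, Finset.mul_sum]
  · refine Finset.sum_congr rfl fun p _ => ?_
    rw [integral_const_mul, hT]
    push_cast
    ring
  · intro p _
    exact (hi _).const_mul _

theorem perron {M M' : ℕ} (hM' : 1 ≤ M') (hMM : M' ≤ M) (γ : ℝ) (k : ℕ) {h L S : ℝ} (hh : 0 < h)
    (hh1 : (2 * k + 1) * h ≤ 1) (hL : 1 ≤ L) (hhL : 0 < h * L)
    (hS : ∀ t : ℝ, |t - γ| ≤ L → ‖P M t‖ ≤ S) :
    kap * ‖P M' γ‖ ≤ (2 * Real.log M + 1 + 2 * Real.log L) * S + 8 * M / (h * L) ^ (k + 1) +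
      2 * kap * ((2 * k + 1) * h) * M := by
  have hM'1 : (1 : ℝ) ≤ M' := by exact_mod_cast hM'
  have hMM1 : (M' : ℝ) ≤ M := by exact_mod_cast hMM
  have hk0 : (0 : ℝ) ≤ k := by positivity
  set a : ℝ := Real.log M' + k * h with ha
  have hlM' : 0 ≤ Real.log M' := Real.log_nonneg hM'1
  have ha0 : 0 ≤ a := by positivity
  have haM : Real.log M' ≤ Real.log M := Real.log_le_log (by linarith) hMM1
  have hS0 : 0 ≤ S := (norm_nonneg _).trans (hS γ (by rw [sub_self, abs_zero]; linarith))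
  have hL0 : 0 < L := by linarith
  obtain ⟨T, hT, hs, hi, ht⟩ := smooth_iter ha0 (by linarith : a < a + h) hh k
  have hs' : Shape (Real.log M') (Real.log M' + (2 * k + 1) * h) T := by
    convert hs using 1
    · rw [ha]; ring
    · rw [ha]; ring
  have hsin : ∀ w : ℝ, |Real.sinc (h * w) ^ k| ≤ 1 := by
    intro w
    rw [abs_pow]
    exact pow_le_one₀ (abs_nonneg _) (Real.abs_sinc_le_one _)
  have hfar : ∀ w : ℝ, L ≤ |w| → |Real.sinc (h * w) ^ k| ≤ ((h * L) ^ k)⁻¹ := by
    intro w hw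
    have hw0 : 0 < |w| := hL0.trans_le hw
    have hw1 : w ≠ 0 := abs_pos.1 hw0
    rw [abs_pow, ← inv_pow]
    apply pow_le_pow_left₀ (abs_nonneg _)
    rw [Real.sinc_of_ne_zero (mul_ne_zero hh.ne' hw1), abs_div]
    calc |Real.sin (h * w)| / |h * w| ≤ 1 / |h * w| :=
          div_le_div_of_nonneg_right (Real.abs_sin_le_one _) (abs_nonneg _)
      _ ≤ 1 / (h * L) := by
          apply one_div_le_one_div_of_le hhL
          rw [abs_mul, abs_of_pos hh]
          exact mul_le_mul_of_nonneg_left hw hh.le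
      _ = (h * L)⁻¹ := one_div _
  have h1 := Kf_split (a := a) (b := a + h) (L := L) (S := S) (B := M * ((h * L) ^ k)⁻¹)
    (B' := M) ha0 (by linarith) hL (by positivity)
    (fun w => ((Real.sinc (h * w) ^ k : ℝ) : ℂ) * P M (γ + w))
    (by
      have c1 : Continuous fun w : ℝ => Real.sinc (h * w) ^ k := by fun_prop
      have c2 : Continuous fun w : ℝ => P M (γ + w) := (P_cont M).comp (by fun_prop)
      exact (Complex.continuous_ofReal.comp c1).mul c2)
    (fun w => by
      rw [norm_mul, Complex.norm_real, Real.norm_eq_abs]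
      calc |Real.sinc (h * w) ^ k| * ‖P M (γ + w)‖ ≤ 1 * M :=
            mul_le_mul (hsin w) (P_norm M (γ + w)) (norm_nonneg _) zero_le_one
        _ = M := one_mul _)
    (fun w hw => by
      rw [norm_mul, Complex.norm_real, Real.norm_eq_abs, mul_comm (M : ℝ)]
      exact mul_le_mul (hfar w hw) (P_norm M (γ + w)) (norm_nonneg _) (by positivity))
    (fun w hw => by
      rw [norm_mul, Complex.norm_real, Real.norm_eq_abs]
      calc |Real.sinc (h * w) ^ k| * ‖P M (γ + w)‖ ≤ 1 * S :=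
            mul_le_mul (hsin w) (hS (γ + w) (by rwa [add_sub_cancel_left])) (norm_nonneg _)
              zero_le_one
        _ = S := one_mul _)
  have e0 : (fun w : ℝ => (Kf a (a + h) w : ℂ) *
      (((Real.sinc (h * w) ^ k : ℝ) : ℂ) * P M (γ + w))) =
      fun w : ℝ => ((Kf a (a + h) w * Real.sinc (h * w) ^ k : ℝ) : ℂ) * P M (γ + w) := by
    funext w
    push_cast
    ring
  rw [e0, P_HasT M γ hi ht] at h1
  have h2 := cut_diff hM' hMM γ (H := (2 * k + 1) * h) (by positivity) hh1 hs'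
  set Z : ℂ := ∑ p ∈ (Finset.Icc 1 M).filter Nat.Prime, (p : ℂ) ^ (-((γ : ℂ) * I)) *
      (T (Real.log p) : ℂ) with hZ
  have hk := kap_pos
  have e1 : ‖((kap * (a + h - a) : ℝ) : ℂ) * Z‖ = kap * h * ‖Z‖ := by
    rw [norm_mul, Complex.norm_real, Real.norm_eq_abs, add_sub_cancel_left,
      abs_of_pos (by positivity)]
  rw [e1, add_sub_cancel_left] at h1
  have h3 : ‖P M' γ‖ ≤ ‖Z‖ + 2 * ((2 * k + 1) * h) * M := by
    have : P M' γ = Z - (Z - P M' γ) := by ring
    calc ‖P M' γ‖ = ‖Z - (Z - P M' γ)‖ := by rw [← this]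
      _ ≤ ‖Z‖ + ‖Z - P M' γ‖ := norm_sub_le _ _
      _ ≤ _ := by linarith
  have hlL : 0 ≤ Real.log L := Real.log_nonneg hL
  have h4 : kap * ‖Z‖ ≤ (2 * Real.log M + 1 + 2 * Real.log L) * S +
      8 * M / (h * L) ^ (k + 1) := by
    have h5 : h * (kap * ‖Z‖) ≤ h * ((2 * Real.log M + 1 + 2 * Real.log L) * S +
        8 * M / (h * L) ^ (k + 1)) := by
      have e5 : h * (8 * (M : ℝ) / (h * L) ^ (k + 1)) = 8 * (M * ((h * L) ^ k)⁻¹) / L := by
        rw [pow_succ]
        field_simp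
      have h6 : h * (a + (a + h)) ≤ h * (2 * Real.log M + 1) := by
        apply mul_le_mul_of_nonneg_left _ hh.le
        rw [ha]
        linarith
      have h7 := mul_le_mul_of_nonneg_right (by linarith : h * (a + (a + h)) +
        2 * (h * Real.log L) ≤ h * (2 * Real.log M + 1) + 2 * (h * Real.log L)) hS0
      calc h * (kap * ‖Z‖) = kap * h * ‖Z‖ := by ring
        _ ≤ (h * (a + (a + h)) + 2 * (h * Real.log L)) * S +
            8 * (M * ((h * L) ^ k)⁻¹) / L := h1
        _ ≤ (h * (2 * Real.log M + 1) + 2 * (h * Real.log L)) * S +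
            8 * (M * ((h * L) ^ k)⁻¹) / L := by linarith
        _ = h * ((2 * Real.log M + 1 + 2 * Real.log L) * S +
            8 * M / (h * L) ^ (k + 1)) := by
            rw [← e5]
            ring
    exact le_of_mul_le_mul_left h5 hh
  calc kap * ‖P M' γ‖ ≤ kap * (‖Z‖ + 2 * ((2 * k + 1) * h) * M) :=
        mul_le_mul_of_nonneg_left h3 hk.le
    _ = kap * ‖Z‖ + 2 * kap * ((2 * k + 1) * h) * M := by ring
    _ ≤ _ := by linarith

end Pool.Agent.H48.VP
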