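import Mathlib
import Pool.Agent.H48.VP.Defs

/-!
# Gam: `∫_0^∞ u^n e^(-su)/n! du = s^(-n-1)`
-/

set_option autoImplicit false

open Complex MeasureTheory

namespace Pool.Agent.H48.VP

/-- `u^n e^(-su)/n!` -/
noncomputable def gw (n : ℕ) (s : ℂ) (u : ℝ) : ℂ :=
  (u : ℂ) ^ n / (n.factorial : ℂ) * Complex.exp (-(s * u))

/-- its antiderivative -/
noncomputable def gA : ℕ → ℂ → ℝ → ℂ
  | 0, s, u => -(Complex.exp (-(s * u)) / s)
  | n + 1, s, u => gA n s u / s - gw (n + 1) s u / s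

theorem gw_deriv (n : ℕ) (s : ℂ) (u : ℝ) :
    HasDerivAt (gw (n + 1) s) (gw n s u - s * gw (n + 1) s u) u := by
  have h1 : HasDerivAt (fun x : ℝ => (x : ℂ)) 1 u := Complex.ofRealCLM.hasDerivAt
  have h2 : HasDerivAt (fun x : ℝ => (x : ℂ) ^ (n + 1)) (((n + 1 : ℕ) : ℂ) * (u : ℂ) ^ n) u :=
    (hasDerivAt_pow (n + 1) (u : ℂ)).comp_ofReal
  have h3 : HasDerivAt (fun x : ℝ => Complex.exp (-(s * (x : ℂ))))
      (Complex.exp (-(s * (u : ℂ))) * (-(s * 1))) u := ((h1.const_mul s).neg).cexp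
  have h4 := (h2.div_const (((n + 1).factorial : ℕ) : ℂ)).mul h3
  refine h4.congr_deriv ?_
  have hf : (((n + 1).factorial : ℕ) : ℂ) = ((n + 1 : ℕ) : ℂ) * (n.factorial : ℂ) := by
    rw [Nat.factorial_succ]; push_cast; ring
  have hn : ((n + 1 : ℕ) : ℂ) ≠ 0 := by exact_mod_cast (Nat.succ_ne_zero n)
  have e1 : ((n + 1 : ℕ) : ℂ) * (u : ℂ) ^ n / (((n + 1).factorial : ℕ) : ℂ) =
      (u : ℂ) ^ n / (n.factorial : ℂ) := by
    rw [hf, mul_div_mul_left _ _ hn]
  rw [e1]
  unfold gw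
  ring

theorem gA_deriv {s : ℂ} (hs : s ≠ 0) (n : ℕ) (u : ℝ) : HasDerivAt (gA n s) (gw n s u) u := by
  induction n with
  | zero =>
    have h1 : HasDerivAt (fun x : ℝ => (x : ℂ)) 1 u := Complex.ofRealCLM.hasDerivAt
    have h3 : HasDerivAt (fun x : ℝ => Complex.exp (-(s * (x : ℂ))))
        (Complex.exp (-(s * (u : ℂ))) * (-(s * 1))) u := ((h1.const_mul s).neg).cexp
    have h4 := (h3.div_const s).neg
    have e : gA 0 s = fun x : ℝ => -(Complex.exp (-(s * x)) / s) := by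
      funext x; rfl
    rw [e]
    refine h4.congr_deriv ?_
    unfold gw
    rw [pow_zero, Nat.factorial_zero, Nat.cast_one, div_one, one_mul, mul_one, mul_neg, neg_div,
      neg_neg, mul_div_assoc, div_self hs, mul_one]
  | succ n ih =>
    have h1 := (ih.div_const s).sub ((gw_deriv n s u).div_const s)
    have e : gA (n + 1) s = fun x : ℝ => gA n s x / s - gw (n + 1) s x / s := by
      funext x; rfl
    rw [e]
    refine h1.congr_deriv ?_
    rw [← sub_div, sub_sub_cancel, mul_div_cancel_left₀ _ hs]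

theorem gA_zero {s : ℂ} (n : ℕ) : gA n s 0 = -(1 / s ^ (n + 1)) := by
  induction n with
  | zero => simp [gA]
  | succ n ih =>
    have e : gA (n + 1) s 0 = gA n s 0 / s - gw (n + 1) s 0 / s := rfl
    have e0 : gw (n + 1) s 0 = 0 := by
      unfold gw
      rw [Complex.ofReal_zero, zero_pow (Nat.succ_ne_zero n), zero_div, zero_mul]
    rw [e, ih, e0, zero_div, sub_zero, neg_div, div_div, ← pow_succ]

theorem gw_norm (n : ℕ) (s : ℂ) {u : ℝ} (hu : 0 ≤ u) :
    ‖gw n s u‖ = u ^ n / n.factorial * Real.exp (-(s.re * u)) := by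
  unfold gw
  rw [norm_mul, norm_div, norm_pow, Complex.norm_real, Real.norm_of_nonneg hu, Complex.norm_exp,
    Complex.norm_natCast]
  congr 2
  simp

theorem gw_tendsto (n : ℕ) {s : ℂ} (hs : 0 < s.re) :
    Filter.Tendsto (gw n s) Filter.atTop (nhds 0) := by
  rw [tendsto_zero_iff_norm_tendsto_zero]
  have h1 := Real.tendsto_pow_mul_exp_neg_atTop_nhds_zero n
  have h2 : Filter.Tendsto (fun u : ℝ => s.re * u) Filter.atTop Filter.atTop :=
    Filter.tendsto_id.const_mul_atTop hs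
  have h3 := (h1.comp h2).const_mul (1 / (s.re ^ n * n.factorial))
  rw [mul_zero] at h3
  refine h3.congr' ?_
  filter_upwards [Filter.eventually_ge_atTop (0 : ℝ)] with u hu
  rw [gw_norm n s hu]
  have h4 : (n.factorial : ℝ) ≠ 0 := by exact_mod_cast (Nat.factorial_ne_zero n)
  have h5 : s.re ^ n ≠ 0 := (pow_pos hs n).ne'
  simp only [Function.comp]
  rw [mul_pow]
  field_simp

theorem gA_tendsto (n : ℕ) {s : ℂ} (hs : 0 < s.re) :
    Filter.Tendsto (gA n s) Filter.atTop (nhds 0) := by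
  induction n with
  | zero =>
    have h := (gw_tendsto 0 hs).div_const s
    have h2 := h.neg
    rw [zero_div, neg_zero] at h2
    refine h2.congr fun u => ?_
    unfold gA gw
    simp
  | succ n ih =>
    have h := (ih.div_const s).sub ((gw_tendsto (n + 1) hs).div_const s)
    rw [zero_div, sub_zero] at h
    exact h

theorem gw_intOn (n : ℕ) {s : ℂ} (hs : 0 < s.re) : IntegrableOn (gw n s) (Set.Ioi 0) := by
  have h1 := integrableOn_rpow_mul_exp_neg_mul_rpow (s := (n : ℝ)) (p := 1) (b := s.re)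
    (by have : (0 : ℝ) ≤ n := Nat.cast_nonneg n
        linarith) one_pos hs
  have h2 := h1.const_mul (1 / (n.factorial : ℝ))
  have hc : Continuous (gw n s) := by unfold gw; fun_prop
  refine Integrable.mono' h2 hc.aestronglyMeasurable ?_
  refine (ae_restrict_iff' measurableSet_Ioi).2 (Filter.Eventually.of_forall fun u hu => ?_)
  have hu0 : 0 < u := hu
  rw [gw_norm n s hu0.le, Real.rpow_one, Real.rpow_natCast]
  apply le_of_eq
  rw [neg_mul]
  ring

theorem gw_integral (n : ℕ) {s : ℂ} (hs : 0 < s.re) :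
    ∫ u in Set.Ioi (0 : ℝ), gw n s u = 1 / s ^ (n + 1) := by
  have hs0 : s ≠ 0 := by
    rintro rfl
    simp at hs
  rw [integral_Ioi_of_hasDerivAt_of_tendsto' (f := gA n s) (fun u _ => gA_deriv hs0 n u)
    (gw_intOn n hs) (gA_tendsto n hs), gA_zero, zero_sub, neg_neg]

end Pool.Agent.H48.VP
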