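import Mathlib
import Pool.Agent.H48.VP.Gam

/-!
# KerC: a smooth prime sum is bounded by the mean of `|P(N, t)|` over `t` near `γ`

`cut r J u = 1 - e^(-ru) ∑_{j<J} (ru)^j/j!` is a smooth cutoff; the Laplace transform of
`cut r J` is `(1/s) (r/(r+s))^J`.
-/

set_option autoImplicit false

open Complex MeasureTheory FourierTransform

namespace Pool.Agent.H48.VP

/-- the smooth cutoff -/
noncomputable def cut (r : ℝ) (J : ℕ) (u : ℝ) : ℝ :=
  1 - Real.exp (-(r * u)) * ∑ j ∈ Finset.range J, (r * u) ^ j / j.factorial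

theorem cut_cont (r : ℝ) (J : ℕ) : Continuous (cut r J) := by
  unfold cut
  fun_prop

theorem cut_nonneg {r u : ℝ} (h : 0 ≤ r * u) (J : ℕ) : 0 ≤ cut r J u := by
  unfold cut
  have h1 := Real.sum_le_exp_of_nonneg h J
  have h2 : Real.exp (-(r * u)) * ∑ j ∈ Finset.range J, (r * u) ^ j / j.factorial ≤
      Real.exp (-(r * u)) * Real.exp (r * u) :=
    mul_le_mul_of_nonneg_left h1 (Real.exp_pos _).le
  rw [← Real.exp_add, neg_add_cancel, Real.exp_zero] at h2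
  linarith

theorem cut_le_one {r u : ℝ} (h : 0 ≤ r * u) (J : ℕ) : cut r J u ≤ 1 := by
  unfold cut
  have h2 : 0 ≤ Real.exp (-(r * u)) * ∑ j ∈ Finset.range J, (r * u) ^ j / j.factorial :=
    mul_nonneg (Real.exp_pos _).le (Finset.sum_nonneg fun j _ => by positivity)
  linarith

theorem cut_zero (r : ℝ) (n : ℕ) : cut r (n + 1) 0 = 0 := by
  unfold cut
  rw [Finset.sum_range_succ']
  simp

/-- Chernoff: `1 - cut ≤ exp(-λ δ^2)`, `λ = ru`, `J ≤ λ (1-2δ)` -/
theorem one_sub_cut_le {r u δ : ℝ} {J : ℕ} (h : 0 ≤ r * u) (hδ : 0 < δ) (hδ1 : δ < 1)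
    (hJ : (J : ℝ) ≤ r * u * (1 - 2 * δ)) : 1 - cut r J u ≤ Real.exp (-(r * u * δ ^ 2)) := by
  unfold cut
  set x : ℝ := r * u with hx
  have hq0 : 0 < 1 - δ := by linarith
  have h1 : ∑ j ∈ Finset.range J, x ^ j / j.factorial ≤
      ((1 - δ) ^ J)⁻¹ * Real.exp (x * (1 - δ)) := by
    calc ∑ j ∈ Finset.range J, x ^ j / j.factorial
        ≤ ∑ j ∈ Finset.range J, ((1 - δ) ^ J)⁻¹ * ((x * (1 - δ)) ^ j / j.factorial) := by
          apply Finset.sum_le_sum
          intro j hj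
          rw [Finset.mem_range] at hj
          have h2 : (1 - δ) ^ J ≤ (1 - δ) ^ j :=
            pow_le_pow_of_le_one hq0.le (by linarith) hj.le
          have h3 : 1 ≤ ((1 - δ) ^ J)⁻¹ * (1 - δ) ^ j := by
            rw [← div_eq_inv_mul, le_div_iff₀ (by positivity), one_mul]
            exact h2
          calc x ^ j / j.factorial = 1 * (x ^ j / j.factorial) := (one_mul _).symm
            _ ≤ (((1 - δ) ^ J)⁻¹ * (1 - δ) ^ j) * (x ^ j / j.factorial) :=
                mul_le_mul_of_nonneg_right h3 (by positivity)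
            _ = _ := by rw [mul_pow x (1 - δ) j]; ring
      _ = ((1 - δ) ^ J)⁻¹ * ∑ j ∈ Finset.range J, (x * (1 - δ)) ^ j / j.factorial := by
          rw [Finset.mul_sum]
      _ ≤ _ := by
          apply mul_le_mul_of_nonneg_left _ (by positivity)
          exact Real.sum_le_exp_of_nonneg (by positivity) J
  have h2 : ((1 - δ) ^ J)⁻¹ ≤ Real.exp (J * (δ / (1 - δ))) := by
    have h3 : (1 - δ)⁻¹ ≤ Real.exp (δ / (1 - δ)) := by
      have h4 : (1 - δ)⁻¹ = δ / (1 - δ) + 1 := by field_simp; ring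
      rw [h4]
      exact Real.add_one_le_exp _
    rw [← inv_pow, Real.exp_nat_mul]
    exact pow_le_pow_left₀ (by positivity) h3 J
  have h5 : (J : ℝ) * (δ / (1 - δ)) ≤ x * δ - x * δ ^ 2 := by
    rw [mul_div_assoc', div_le_iff₀ hq0]
    have h6 : (J : ℝ) * δ ≤ x * (1 - 2 * δ) * δ := mul_le_mul_of_nonneg_right hJ hδ.le
    have h7 : (x * δ - x * δ ^ 2) * (1 - δ) = x * (1 - 2 * δ) * δ + x * δ ^ 3 := by ring
    have h8 : 0 ≤ x * δ ^ 3 := by positivity
    linarith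
  have h9 : 1 - (1 - Real.exp (-x) * ∑ j ∈ Finset.range J, x ^ j / j.factorial) =
      Real.exp (-x) * ∑ j ∈ Finset.range J, x ^ j / j.factorial := by ring
  rw [h9]
  calc Real.exp (-x) * ∑ j ∈ Finset.range J, x ^ j / j.factorial
      ≤ Real.exp (-x) * (Real.exp (x * δ - x * δ ^ 2) * Real.exp (x * (1 - δ))) := by
        apply mul_le_mul_of_nonneg_left _ (Real.exp_pos _).le
        refine h1.trans (mul_le_mul_of_nonneg_right (h2.trans ?_) (Real.exp_pos _).le)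
        exact Real.exp_le_exp.2 h5
    _ = Real.exp (-(x * δ ^ 2)) := by
        rw [← Real.exp_add, ← Real.exp_add]
        congr 1
        ring

/-- `e^(-xu) cut(u)` for `u ≥ 0`, `0` for `u ≤ 0` -/
noncomputable def cf (r : ℝ) (J : ℕ) (x u : ℝ) : ℂ :=
  ((Real.exp (-(x * max u 0)) * cut r J (max u 0) : ℝ) : ℂ)

theorem cf_cont (r : ℝ) (J : ℕ) (x : ℝ) : Continuous (cf r J x) := by
  have := cut_cont r J
  unfold cf
  fun_prop

theorem cf_neg {r : ℝ} {n : ℕ} {x u : ℝ} (hu : u ≤ 0) : cf r (n + 1) x u = 0 := by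
  unfold cf
  rw [max_eq_right hu, cut_zero]
  simp

theorem cf_pos {r x u : ℝ} {J : ℕ} (hu : 0 ≤ u) (ξ : ℝ) :
    Complex.exp (-((2 * Real.pi * ξ * u : ℝ) * I)) * cf r J x u =
      gw 0 ((x : ℂ) + (2 * Real.pi * ξ : ℝ) * I) u -
        ∑ j ∈ Finset.range J, (r : ℂ) ^ j * gw j ((x : ℂ) + (2 * Real.pi * ξ : ℝ) * I + r) u := by
  unfold cf cut gw
  rw [max_eq_left hu]
  push_cast
  have e1 : Complex.exp (-(2 * (Real.pi : ℂ) * ξ * u * I)) * Complex.exp (-((x : ℂ) * u)) =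
      Complex.exp (-(((x : ℂ) + 2 * Real.pi * ξ * I) * u)) := by
    rw [← Complex.exp_add]; congr 1; ring
  have e2 : ∀ j : ℕ, (r : ℂ) ^ j * ((u : ℂ) ^ j / (j.factorial : ℂ) *
      Complex.exp (-(((x : ℂ) + 2 * Real.pi * ξ * I + r) * u))) =
      Complex.exp (-(((x : ℂ) + 2 * Real.pi * ξ * I) * u)) * (Complex.exp (-((r : ℂ) * u)) *
        ((r : ℂ) * u) ^ j / (j.factorial : ℂ)) := by
    intro j
    have : Complex.exp (-(((x : ℂ) + 2 * Real.pi * ξ * I + r) * u)) =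
        Complex.exp (-(((x : ℂ) + 2 * Real.pi * ξ * I) * u)) * Complex.exp (-((r : ℂ) * u)) := by
      rw [← Complex.exp_add]; congr 1; ring
    rw [this, mul_pow]
    ring
  rw [Finset.sum_congr rfl fun j _ => e2 j, ← Finset.mul_sum, ← mul_assoc, e1, pow_zero,
    Nat.factorial_zero, Nat.cast_one, div_one, one_mul]
  have e3 : ∑ j ∈ Finset.range J, Complex.exp (-((r : ℂ) * u)) * ((r : ℂ) * u) ^ j /
      (j.factorial : ℂ) = Complex.exp (-((r : ℂ) * u)) *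
        ∑ j ∈ Finset.range J, ((r : ℂ) * u) ^ j / (j.factorial : ℂ) := by
    rw [Finset.mul_sum]
    exact Finset.sum_congr rfl fun j _ => by ring
  rw [e3]
  ring

theorem lap_intOn {r x : ℝ} (hr : 0 < r) (hx : 0 < x) (J : ℕ) (ξ : ℝ) :
    IntegrableOn (fun u : ℝ => Complex.exp (-((2 * Real.pi * ξ * u : ℝ) * I)) * cf r J x u)
      (Set.Ioi 0) := by
  have h1 : IntegrableOn (fun u : ℝ => gw 0 ((x : ℂ) + (2 * Real.pi * ξ : ℝ) * I) u -
      ∑ j ∈ Finset.range J, (r : ℂ) ^ j * gw j ((x : ℂ) + (2 * Real.pi * ξ : ℝ) * I + r) u)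
      (Set.Ioi 0) := by
    apply Integrable.sub
    · exact gw_intOn 0 (by simpa using hx)
    · apply integrable_finsetSum
      intro j _
      apply Integrable.const_mul
      exact gw_intOn j (by simp; linarith)
  refine h1.congr_fun ?_ measurableSet_Ioi
  intro u hu
  exact (cf_pos (le_of_lt hu) ξ).symm

theorem cf_int {r x : ℝ} (hr : 0 < r) (hx : 0 < x) (n : ℕ) : Integrable (cf r (n + 1) x) := by
  have h1 : IntegrableOn (cf r (n + 1) x) (Set.Ioi 0) := by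
    refine (lap_intOn hr hx (n + 1) 0).congr_fun ?_ measurableSet_Ioi
    intro u _
    simp
  have h2 : IntegrableOn (cf r (n + 1) x) (Set.Iic 0) := by
    refine (integrableOn_zero).congr_fun ?_ measurableSet_Iic
    intro u hu
    exact (cf_neg hu).symm
  rw [← integrableOn_univ, ← Set.Iic_union_Ioi (a := (0 : ℝ))]
  exact h2.union h1

/-- the Laplace transform of the cutoff -/
noncomputable def cF (r : ℝ) (J : ℕ) (s : ℂ) : ℂ := 1 / s * ((r : ℂ) / (s + r)) ^ J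

theorem cF_sum {r : ℝ} {s : ℂ} (hs : s ≠ 0) (hsr : s + r ≠ 0) (J : ℕ) :
    1 / s - ∑ j ∈ Finset.range J, (r : ℂ) ^ j * (1 / (s + r) ^ (j + 1)) = cF r J s := by
  induction J with
  | zero => simp [cF]
  | succ J ih =>
    rw [Finset.sum_range_succ, ← sub_sub, ih]
    unfold cF
    rw [div_pow, div_pow]
    field_simp
    ring

theorem cf_fourier {r x : ℝ} (hr : 0 < r) (hx : 0 < x) (n : ℕ) (ξ : ℝ) :
    𝓕 (cf r (n + 1) x) ξ = cF r (n + 1) ((x : ℂ) + (2 * Real.pi * ξ : ℝ) * I) := by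
  rw [Real.fourier_real_eq_integral_exp_smul]
  have h0 : ∫ v : ℝ, Complex.exp (↑(-2 * Real.pi * v * ξ) * I) • cf r (n + 1) x v =
      ∫ v in Set.Ioi (0 : ℝ), Complex.exp (↑(-2 * Real.pi * v * ξ) * I) • cf r (n + 1) x v := by
    rw [← integral_indicator measurableSet_Ioi]
    congr 1
    funext v
    by_cases hv : v ∈ Set.Ioi (0 : ℝ)
    · rw [Set.indicator_of_mem hv]
    · rw [Set.indicator_of_notMem hv, cf_neg (not_lt.1 hv), smul_zero]
  have hs : (0 : ℝ) < ((x : ℂ) + (2 * Real.pi * ξ : ℝ) * I).re := by simpa using hx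
  have hsr : (0 : ℝ) < ((x : ℂ) + (2 * Real.pi * ξ : ℝ) * I + r).re := by
    rw [Complex.add_re, Complex.ofReal_re]; linarith
  have hs0 : ((x : ℂ) + (2 * Real.pi * ξ : ℝ) * I) ≠ 0 := by
    intro h; rw [h] at hs; simp at hs
  have hsr0 : ((x : ℂ) + (2 * Real.pi * ξ : ℝ) * I + r) ≠ 0 := by
    intro h; rw [h] at hsr; simp at hsr
  have h1 : ∫ v in Set.Ioi (0 : ℝ), Complex.exp (↑(-2 * Real.pi * v * ξ) * I) • cf r (n + 1) x v =
      ∫ v in Set.Ioi (0 : ℝ), (gw 0 ((x : ℂ) + (2 * Real.pi * ξ : ℝ) * I) v -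
        ∑ j ∈ Finset.range (n + 1),
          (r : ℂ) ^ j * gw j ((x : ℂ) + (2 * Real.pi * ξ : ℝ) * I + r) v) := by
    refine setIntegral_congr_fun measurableSet_Ioi fun v hv => ?_
    have hv0 : 0 ≤ v := le_of_lt hv
    simp only [smul_eq_mul]
    rw [← cf_pos hv0 ξ]
    congr 2
    push_cast
    ring
  have hint : ∀ j ∈ Finset.range (n + 1), Integrable
      (fun v : ℝ => (r : ℂ) ^ j * gw j ((x : ℂ) + (2 * Real.pi * ξ : ℝ) * I + r) v)
      (volume.restrict (Set.Ioi 0)) := fun j _ => (gw_intOn j hsr).const_mul _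
  rw [h0, h1, integral_sub (gw_intOn 0 hs) (integrable_finsetSum _ hint),
    integral_finsetSum _ hint, gw_integral 0 hs, zero_add, pow_one, ← cF_sum hs0 hsr0]
  congr 1
  refine Finset.sum_congr rfl fun j _ => ?_
  rw [integral_const_mul, gw_integral j hsr]

theorem nrm_sq (c ξ : ℝ) : ‖(c : ℂ) + (2 * Real.pi * ξ : ℝ) * I‖ ^ 2 =
    c ^ 2 + (2 * Real.pi * ξ) ^ 2 := by
  rw [← Complex.normSq_eq_norm_sq, Complex.normSq_add_mul_I]

theorem nrm_ge (c ξ : ℝ) : c ≤ ‖(c : ℂ) + (2 * Real.pi * ξ : ℝ) * I‖ := by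
  have h1 := Complex.re_le_norm ((c : ℂ) + (2 * Real.pi * ξ : ℝ) * I)
  have h2 : ((c : ℂ) + (2 * Real.pi * ξ : ℝ) * I).re = c := by simp
  rwa [h2] at h1

theorem nrm_ge' (c ξ : ℝ) : |2 * Real.pi * ξ| ≤ ‖(c : ℂ) + (2 * Real.pi * ξ : ℝ) * I‖ := by
  have h1 := Complex.abs_im_le_norm ((c : ℂ) + (2 * Real.pi * ξ : ℝ) * I)
  have h2 : ((c : ℂ) + (2 * Real.pi * ξ : ℝ) * I).im = 2 * Real.pi * ξ := by simp
  rwa [h2] at h1

theorem nrm_sqrt {c : ℝ} (hc : 1 ≤ c) (ξ : ℝ) :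
    √(1 + ξ ^ 2) ≤ ‖(c : ℂ) + (2 * Real.pi * ξ : ℝ) * I‖ := by
  rw [Real.sqrt_le_left (norm_nonneg _), nrm_sq]
  have hpi := Real.pi_gt_three
  have h1 : 1 ≤ c ^ 2 := one_le_pow₀ hc
  have h2 : ξ ^ 2 ≤ (2 * Real.pi * ξ) ^ 2 := by
    rw [mul_pow]
    have h3 : (1 : ℝ) ≤ (2 * Real.pi) ^ 2 := one_le_pow₀ (by linarith)
    exact le_mul_of_one_le_left (sq_nonneg _) h3
  linarith

theorem cF_le {r x : ℝ} (hr : 0 < r) (hx : 1 ≤ x) (n : ℕ) (ξ : ℝ) {q : ℝ}
    (hq : r / ‖((x + r : ℝ) : ℂ) + (2 * Real.pi * ξ : ℝ) * I‖ ≤ q) :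
    ‖cF r (n + 1) ((x : ℂ) + (2 * Real.pi * ξ : ℝ) * I)‖ ≤ r * q ^ n * (1 + ξ ^ 2)⁻¹ := by
  unfold cF
  have e1 : (x : ℂ) + (2 * Real.pi * ξ : ℝ) * I + r =
      ((x + r : ℝ) : ℂ) + (2 * Real.pi * ξ : ℝ) * I := by push_cast; ring
  rw [e1, norm_mul, norm_pow, norm_div, norm_div, norm_one, Complex.norm_real,
    Real.norm_of_nonneg hr.le, pow_succ]
  set A : ℝ := ‖(x : ℂ) + (2 * Real.pi * ξ : ℝ) * I‖ with hA
  set B : ℝ := ‖((x + r : ℝ) : ℂ) + (2 * Real.pi * ξ : ℝ) * I‖ with hB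
  have h1 : √(1 + ξ ^ 2) ≤ A := nrm_sqrt hx ξ
  have h2 : √(1 + ξ ^ 2) ≤ B := nrm_sqrt (by linarith) ξ
  have h3 : 0 < √(1 + ξ ^ 2) := Real.sqrt_pos.2 (by positivity)
  have hA0 : 0 < A := by linarith
  have hB0 : 0 < B := by linarith
  have h4 : 1 + ξ ^ 2 ≤ A * B := by
    calc 1 + ξ ^ 2 = √(1 + ξ ^ 2) * √(1 + ξ ^ 2) := (Real.mul_self_sqrt (by positivity)).symm
      _ ≤ A * B := mul_le_mul h1 h2 h3.le hA0.le
  have h5 : (A * B)⁻¹ ≤ (1 + ξ ^ 2)⁻¹ := inv_anti₀ (by positivity) h4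
  have h6 : (r / B) ^ n ≤ q ^ n := pow_le_pow_left₀ (by positivity) hq n
  have hq0 : 0 ≤ q := le_trans (by positivity) hq
  calc 1 / A * ((r / B) ^ n * (r / B)) = r * (r / B) ^ n * (A * B)⁻¹ := by
        rw [mul_inv]; ring
    _ ≤ r * q ^ n * (1 + ξ ^ 2)⁻¹ := by gcongr

theorem cF_cont {r x : ℝ} (hr : 0 < r) (hx : 0 < x) (n : ℕ) :
    Continuous (fun ξ : ℝ => cF r n ((x : ℂ) + (2 * Real.pi * ξ : ℝ) * I)) := by
  unfold cF
  refine Continuous.mul (Continuous.div continuous_const (by fun_prop) fun ξ => ?_)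
    ((Continuous.div continuous_const (by fun_prop) fun ξ => ?_).pow n)
  · intro h
    have := congrArg Complex.re h
    simp at this
    linarith
  · intro h
    have := congrArg Complex.re h
    simp at this
    linarith

theorem near_le {r x : ℝ} (hr : 0 < r) (hx : 1 ≤ x) (ξ : ℝ) :
    r / ‖((x + r : ℝ) : ℂ) + (2 * Real.pi * ξ : ℝ) * I‖ ≤ r / (r + 1) := by
  apply div_le_div_of_nonneg_left hr.le (by linarith)
  have := nrm_ge (x + r) ξ
  linarith

theorem far_le {r x W ξ : ℝ} (hr : 0 < r) (hW : 0 < W) (h : W ≤ |2 * Real.pi * ξ|) :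
    r / ‖((x + r : ℝ) : ℂ) + (2 * Real.pi * ξ : ℝ) * I‖ ≤ r / W :=
  div_le_div_of_nonneg_left hr.le hW (h.trans (nrm_ge' (x + r) ξ))

theorem cF_int {r x : ℝ} (hr : 0 < r) (hx : 1 ≤ x) (n : ℕ) :
    Integrable (fun ξ : ℝ => cF r (n + 1) ((x : ℂ) + (2 * Real.pi * ξ : ℝ) * I)) := by
  refine Integrable.mono' (integrable_inv_one_add_sq.const_mul (r * (r / (r + 1)) ^ n))
    (cF_cont hr (by linarith) _).aestronglyMeasurable (Filter.Eventually.of_forall fun ξ => ?_)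
  exact cF_le hr hx n ξ (near_le hr hx ξ)

theorem cf_inv {r x : ℝ} (hr : 0 < r) (hx : 1 ≤ x) (n : ℕ) (u : ℝ) :
    ∫ ξ : ℝ, cF r (n + 1) ((x : ℂ) + (2 * Real.pi * ξ : ℝ) * I) *
      Complex.exp ((2 * Real.pi * ξ * u : ℝ) * I) = cf r (n + 1) x u := by
  have hx0 : 0 < x := by linarith
  have hF : 𝓕 (cf r (n + 1) x) =
      fun ξ : ℝ => cF r (n + 1) ((x : ℂ) + (2 * Real.pi * ξ : ℝ) * I) :=
    funext fun ξ => cf_fourier hr hx0 n ξ
  have h := (cf_cont r (n + 1) x).fourierInv_fourier_eq (cf_int hr hx0 n)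
    (by rw [hF]; exact cF_int hr hx n)
  have h2 := congrFun h u
  rw [hF, Real.fourierInv_eq'] at h2
  rw [← h2]
  congr 1
  funext ξ
  rw [smul_eq_mul, mul_comm]
  congr 3
  simp
  ring

theorem P_norm_le (N : ℕ) (t : ℝ) : ‖P N t‖ ≤ N := by
  unfold P
  refine (norm_sum_le_of_le _ (f := fun p : ℕ => (p : ℂ) ^ (-(t * I))) (n := fun _ => (1 : ℝ))
    fun p hp => ?_).trans ?_
  · rw [Finset.mem_filter, Finset.mem_Icc] at hp
    rw [Complex.norm_natCast_cpow_of_pos (by omega)]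
    simp
  · rw [Finset.sum_const, nsmul_eq_mul, mul_one]
    have h1 := Finset.card_filter_le (Finset.Icc 1 N) Nat.Prime
    rw [Nat.card_Icc] at h1
    have h2 : ((Finset.Icc 1 N).filter Nat.Prime).card ≤ N := by omega
    exact_mod_cast h2

theorem cpow_shift {p : ℕ} (hp : 1 ≤ p) (γ ξ : ℝ) :
    Complex.exp ((2 * Real.pi * ξ * Real.log p : ℝ) * I) * (p : ℂ) ^ (-(γ * I)) =
      (p : ℂ) ^ (-(((γ - 2 * Real.pi * ξ : ℝ) : ℂ) * I)) := by
  have hp0 : (p : ℂ) ≠ 0 := by exact_mod_cast (by omega : p ≠ 0)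
  rw [Complex.cpow_def_of_ne_zero hp0, Complex.cpow_def_of_ne_zero hp0, ← Complex.exp_add,
    ← Complex.natCast_log]
  congr 1
  push_cast
  ring

theorem PN_cont (N : ℕ) : Continuous (P N) := by
  unfold P
  refine continuous_finsetSum _ fun p hp => ?_
  rw [Finset.mem_filter, Finset.mem_Icc] at hp
  have hp0 : (p : ℂ) ≠ 0 := by exact_mod_cast (by omega : p ≠ 0)
  exact Continuous.const_cpow (by fun_prop) (Or.inl hp0)

/-- the mean of `|P(N, t)|` over `|t - γ| ≤ V` -/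
noncomputable def PM (N : ℕ) (γ V : ℝ) : ℝ := ∫ t in (γ - V)..(γ + V), ‖P N t‖

theorem PM_sub {N : ℕ} {γ τ a W : ℝ} (hW : 0 ≤ W) (hτ : |τ - γ| ≤ a) :
    ∫ t in (τ - W)..(τ + W), ‖P N t‖ ≤ PM N γ (W + a) := by
  have h1 := abs_le.1 hτ
  have hc : Continuous fun t : ℝ => ‖P N t‖ := (PN_cont N).norm
  unfold PM
  exact intervalIntegral.integral_mono_interval (by linarith) (by linarith) (by linarith)
    (Filter.Eventually.of_forall fun t => norm_nonneg _) (hc.intervalIntegrable _ _)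

theorem PM_mono {N : ℕ} {γ V V' : ℝ} (h : V ≤ V') (hV : 0 ≤ V) : PM N γ V ≤ PM N γ V' := by
  have h1 := PM_sub (N := N) (γ := γ) (τ := γ) (a := V' - V) hV (by rw [sub_self, abs_zero]; linarith)
  rw [add_sub_cancel] at h1
  exact h1

theorem PM_nonneg {N : ℕ} {γ V : ℝ} (hV : 0 ≤ V) : 0 ≤ PM N γ V :=
  intervalIntegral.integral_nonneg (by linarith) fun _ _ => norm_nonneg _

theorem kerC {r x W γ a τ : ℝ} {N n : ℕ} (hr : 0 < r) (hx : 1 ≤ x) (hW : 0 < W)
    (hτ : |τ - γ| ≤ a) :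
    ‖∑ p ∈ (Finset.Icc 1 N).filter Nat.Prime,
      cf r (n + 1) x (Real.log p) * (p : ℂ) ^ (-(τ * I))‖ ≤
      r * (r / (r + 1)) ^ n * PM N γ (W + a) + r * (r / W) ^ n * N * Real.pi := by
  set G : ℝ → ℂ := fun ξ => cF r (n + 1) ((x : ℂ) + (2 * Real.pi * ξ : ℝ) * I) with hG
  have hGi : Integrable G := cF_int hr hx n
  have e1 : ∑ p ∈ (Finset.Icc 1 N).filter Nat.Prime,
      cf r (n + 1) x (Real.log p) * (p : ℂ) ^ (-(τ * I)) =
      ∫ ξ : ℝ, G ξ * P N (τ - 2 * Real.pi * ξ) := by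
    have h1 : ∀ ξ : ℝ, G ξ * P N (τ - 2 * Real.pi * ξ) =
        ∑ p ∈ (Finset.Icc 1 N).filter Nat.Prime,
          G ξ * Complex.exp ((2 * Real.pi * ξ * Real.log p : ℝ) * I) * (p : ℂ) ^ (-(τ * I)) := by
      intro ξ
      unfold P
      rw [Finset.mul_sum]
      refine Finset.sum_congr rfl fun p hp => ?_
      rw [Finset.mem_filter, Finset.mem_Icc] at hp
      rw [mul_assoc (G ξ), cpow_shift hp.1.1]
    simp_rw [h1]
    rw [integral_finsetSum]
    · refine Finset.sum_congr rfl fun p hp => ?_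
      rw [integral_mul_const, hG, cf_inv hr hx]
    · intro p _
      apply Integrable.mul_const
      refine hGi.norm.mono' (hGi.aestronglyMeasurable.mul
        (by fun_prop : Continuous fun ξ : ℝ =>
          Complex.exp ((2 * Real.pi * ξ * Real.log p : ℝ) * I)).aestronglyMeasurable) ?_
      refine Filter.Eventually.of_forall fun ξ => ?_
      rw [norm_mul, Complex.norm_exp_ofReal_mul_I, mul_one]
  rw [e1]
  have hpi := Real.pi_pos
  have hpi3 := Real.pi_gt_three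
  set A : ℝ := r * (r / (r + 1)) ^ n with hA
  have hA0 : 0 < A := by positivity
  set K : ℝ := r * (r / W) ^ n * N with hK
  have hK0 : 0 ≤ K := by positivity
  set w : ℝ := W / (2 * Real.pi) with hw
  have hw0 : 0 < w := by positivity
  have hcP : Continuous fun ξ : ℝ => ‖P N (τ - 2 * Real.pi * ξ)‖ :=
    ((PN_cont N).comp (by fun_prop)).norm
  have h2 : Integrable fun ξ : ℝ => K * (1 + ξ ^ 2)⁻¹ := integrable_inv_one_add_sq.const_mul K
  have h3 : ∫ ξ : ℝ, K * (1 + ξ ^ 2)⁻¹ = K * Real.pi := by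
    rw [integral_const_mul, integral_univ_inv_one_add_sq]
  have h4 : Integrable ((Set.Ioc (-w) w).indicator
      fun ξ : ℝ => A * ‖P N (τ - 2 * Real.pi * ξ)‖) := by
    rw [integrable_indicator_iff measurableSet_Ioc]
    exact ((hcP.const_mul A).integrableOn_Icc).mono_set Set.Ioc_subset_Icc_self
  have h5 : ∫ ξ : ℝ, (Set.Ioc (-w) w).indicator
      (fun ξ : ℝ => A * ‖P N (τ - 2 * Real.pi * ξ)‖) ξ ≤ A * PM N γ (W + a) := by
    rw [integral_indicator measurableSet_Ioc, ← intervalIntegral.integral_of_le (by linarith),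
      intervalIntegral.integral_const_mul]
    apply mul_le_mul_of_nonneg_left _ hA0.le
    have h6 := intervalIntegral.integral_comp_sub_mul (a := -w) (b := w) (fun t => ‖P N t‖)
      (c := 2 * Real.pi) (by positivity) τ
    rw [h6]
    have h7 : τ - 2 * Real.pi * w = τ - W := by rw [hw]; field_simp
    have h8 : τ - 2 * Real.pi * -w = τ + W := by rw [hw]; field_simp; ring
    rw [h7, h8, smul_eq_mul]
    have h9 : 0 ≤ ∫ t in (τ - W)..(τ + W), ‖P N t‖ :=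
      intervalIntegral.integral_nonneg (by linarith) fun t _ => norm_nonneg _
    have h10 : (2 * Real.pi)⁻¹ ≤ 1 := inv_le_one_of_one_le₀ (by linarith)
    calc (2 * Real.pi)⁻¹ * ∫ t in (τ - W)..(τ + W), ‖P N t‖
        ≤ 1 * ∫ t in (τ - W)..(τ + W), ‖P N t‖ := mul_le_mul_of_nonneg_right h10 h9
      _ = ∫ t in (τ - W)..(τ + W), ‖P N t‖ := one_mul _
      _ ≤ PM N γ (W + a) := PM_sub hW.le hτ
  calc ‖∫ ξ : ℝ, G ξ * P N (τ - 2 * Real.pi * ξ)‖
      ≤ ∫ ξ : ℝ, ((Set.Ioc (-w) w).indicator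
        (fun ξ : ℝ => A * ‖P N (τ - 2 * Real.pi * ξ)‖) ξ + K * (1 + ξ ^ 2)⁻¹) := by
        refine norm_integral_le_of_norm_le (h4.add h2) ?_
        have hae : ∀ᵐ ξ : ℝ, ξ ≠ -w := by
          simp [ae_iff]
        filter_upwards [hae] with ξ hξ
        rw [norm_mul]
        have hq : 0 ≤ (1 + ξ ^ 2)⁻¹ := by positivity
        have hq1 : (1 + ξ ^ 2)⁻¹ ≤ 1 := inv_le_one_of_one_le₀ (by nlinarith)
        by_cases h : ξ ∈ Set.Ioc (-w) w
        · rw [Set.indicator_of_mem h]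
          have hg : ‖G ξ‖ ≤ A * 1 :=
            (cF_le hr hx n ξ (near_le hr hx ξ)).trans (mul_le_mul_of_nonneg_left hq1 hA0.le)
          rw [mul_one] at hg
          have := mul_le_mul_of_nonneg_right hg (norm_nonneg (P N (τ - 2 * Real.pi * ξ)))
          have : 0 ≤ K * (1 + ξ ^ 2)⁻¹ := by positivity
          linarith
        · rw [Set.indicator_of_notMem h, zero_add]
          have h' : W ≤ |2 * Real.pi * ξ| := by
            rw [abs_mul, abs_of_pos (by positivity : 0 < 2 * Real.pi)]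
            have : w ≤ |ξ| := by
              rw [Set.mem_Ioc, not_and_or, not_lt, not_le] at h
              rcases h with h | h
              · rw [abs_of_nonpos (by linarith)]; linarith
              · rw [abs_of_pos (by linarith)]; linarith
            calc W = 2 * Real.pi * w := by rw [hw]; field_simp
              _ ≤ 2 * Real.pi * |ξ| := mul_le_mul_of_nonneg_left this (by positivity)
          calc ‖G ξ‖ * ‖P N (τ - 2 * Real.pi * ξ)‖ ≤ (r * (r / W) ^ n * (1 + ξ ^ 2)⁻¹) * N :=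
                mul_le_mul (cF_le hr hx n ξ (far_le hr hW h')) (P_norm_le N _) (norm_nonneg _)
                  (by positivity)
            _ = K * (1 + ξ ^ 2)⁻¹ := by rw [hK]; ring
    _ = (∫ ξ : ℝ, (Set.Ioc (-w) w).indicator
        (fun ξ : ℝ => A * ‖P N (τ - 2 * Real.pi * ξ)‖) ξ) + ∫ ξ : ℝ, K * (1 + ξ ^ 2)⁻¹ :=
        integral_add h4 h2
    _ ≤ A * PM N γ (W + a) + K * Real.pi := by rw [h3]; linarith

end Pool.Agent.H48.VP
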