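import Mathlib
import Pool.Agent.H76.PS.Vis
import Pool.Agent.H48.VP.KerC

/-!
# KerD: the detecting polynomial with a smooth cutoff, bounded by the mean of `|P(N, t)|` near `γ`

Cauchy's estimate on the circle `|z - (1+a)| = a` for
`H(z) = ∑_{p ≤ N} cut(log p) p^(-z-iγ)`.
-/

set_option autoImplicit false

open Complex

namespace Pool.Agent.H48.VP

open Pool.Agent.H76.CR Pool.Agent.H52.Unc

theorem iter_exp (s : Finset ℕ) (c l : ℕ → ℂ) (n : ℕ) :
    iteratedDeriv n (fun z : ℂ => ∑ p ∈ s, c p * Complex.exp (-(l p * z))) =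
      fun z : ℂ => ∑ p ∈ s, c p * (-(l p)) ^ n * Complex.exp (-(l p * z)) := by
  induction n with
  | zero =>
    rw [iteratedDeriv_zero]
    funext z
    exact Finset.sum_congr rfl fun p _ => by rw [pow_zero, mul_one]
  | succ n ih =>
    rw [iteratedDeriv_succ, ih]
    funext z
    have h : HasDerivAt (fun z : ℂ => ∑ p ∈ s, c p * (-(l p)) ^ n * Complex.exp (-(l p * z)))
        (∑ p ∈ s, c p * (-(l p)) ^ n * (Complex.exp (-(l p * z)) * (-(l p * 1)))) z := by
      apply HasDerivAt.fun_sum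
      intro p _
      exact ((((hasDerivAt_id z).const_mul (l p)).neg).cexp).const_mul _
    rw [h.deriv]
    refine Finset.sum_congr rfl fun p _ => ?_
    rw [pow_succ]
    ring

/-- `H(z)` -/
noncomputable def HH (r : ℝ) (J N : ℕ) (γ : ℝ) (z : ℂ) : ℂ :=
  ∑ p ∈ (Finset.Icc 1 N).filter Nat.Prime,
    ((cut r J (Real.log p) : ℝ) : ℂ) * (p : ℂ) ^ (-(γ * I)) * Complex.exp (-((Real.log p : ℂ) * z))

theorem HH_eq (r : ℝ) (J N : ℕ) (γ : ℝ) (z : ℂ) :
    HH r J N γ z = ∑ p ∈ (Finset.Icc 1 N).filter Nat.Prime,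
      cf r J z.re (Real.log p) * (p : ℂ) ^ (-(((γ + z.im : ℝ) : ℂ) * I)) := by
  unfold HH
  refine Finset.sum_congr rfl fun p hp => ?_
  rw [Finset.mem_filter, Finset.mem_Icc] at hp
  have hp1 : (1 : ℝ) ≤ p := by exact_mod_cast hp.1.1
  have hp0 : (p : ℂ) ≠ 0 := by exact_mod_cast (by omega : p ≠ 0)
  have hl : 0 ≤ Real.log p := Real.log_nonneg hp1
  unfold cf
  rw [max_eq_left hl, Complex.cpow_def_of_ne_zero hp0, Complex.cpow_def_of_ne_zero hp0,
    ← Complex.natCast_log]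
  push_cast
  have hz : z = (z.re : ℂ) + z.im * I := (Complex.re_add_im z).symm
  have h2 : Complex.log (p : ℂ) * z =
      Complex.log (p : ℂ) * z.re + Complex.log (p : ℂ) * z.im * I := by
    nth_rw 1 [hz]
    ring
  rw [mul_assoc, ← Complex.exp_add, mul_comm (Complex.exp (-((z.re : ℂ) * Complex.log (p : ℂ)))),
    mul_assoc, ← Complex.exp_add, h2]
  congr 2
  ring

theorem HH_le {r a W γ : ℝ} {N n : ℕ} (hr : 0 < r) (hW : 0 < W) {z : ℂ}
    (hz : z ∈ Metric.sphere (((1 + a : ℝ) : ℂ)) a) :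
    ‖HH r (n + 1) N γ z‖ ≤
      r * (r / (r + 1)) ^ n * PM N γ (W + a) + r * (r / W) ^ n * N * Real.pi := by
  rw [mem_sphere_iff_norm] at hz
  have h1 : 1 ≤ z.re := by
    have h2 := Complex.abs_re_le_norm (z - ((1 + a : ℝ) : ℂ))
    rw [hz, Complex.sub_re, Complex.ofReal_re] at h2
    linarith [(abs_le.1 h2).1]
  have h3 : |z.im| ≤ a := by
    have h2 := Complex.abs_im_le_norm (z - ((1 + a : ℝ) : ℂ))
    rwa [hz, Complex.sub_im, Complex.ofReal_im, sub_zero] at h2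
  rw [HH_eq]
  refine kerC hr h1 hW ?_
  have e : γ + z.im - γ = z.im := by ring
  rw [e]
  exact h3

theorem kerD {r a W γ : ℝ} {k N n : ℕ} (hr : 0 < r) (ha : 0 < a) (hW : 0 < W) :
    a ^ (k + 1) * ‖∑ p ∈ (Finset.Icc 1 N).filter Nat.Prime,
      ((cut r (n + 1) (Real.log p) : ℝ) : ℂ) * ((dco a k p : ℂ) * (p : ℂ) ^ (-(γ * I)))‖ ≤
      ((k : ℝ) + 1) *
        (r * (r / (r + 1)) ^ n * PM N γ (W + a) + r * (r / W) ^ n * N * Real.pi) := by
  set B : ℝ := r * (r / (r + 1)) ^ n * PM N γ (W + a) + r * (r / W) ^ n * N * Real.pi with hB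
  have hd : Differentiable ℂ (HH r (n + 1) N γ) := by
    unfold HH
    fun_prop
  have hC := Complex.norm_iteratedDeriv_le_of_forall_mem_sphere_norm_le (k + 1) ha
    (f := HH r (n + 1) N γ) (c := (((1 + a : ℝ) : ℂ))) (C := B)
    hd.diffContOnCl (fun z hz => HH_le hr hW hz)
  have hI : iteratedDeriv (k + 1) (HH r (n + 1) N γ) ((1 + a : ℝ) : ℂ) =
      (-1) ^ (k + 1) * (k.factorial : ℂ) * ∑ p ∈ (Finset.Icc 1 N).filter Nat.Prime,
      ((cut r (n + 1) (Real.log p) : ℝ) : ℂ) * ((dco a k p : ℂ) * (p : ℂ) ^ (-(γ * I))) := by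
    have h1 := iter_exp ((Finset.Icc 1 N).filter Nat.Prime)
      (fun p => ((cut r (n + 1) (Real.log p) : ℝ) : ℂ) * (p : ℂ) ^ (-(γ * I)))
      (fun p => (Real.log p : ℂ)) (k + 1)
    have h2 : HH r (n + 1) N γ = fun z : ℂ => ∑ p ∈ (Finset.Icc 1 N).filter Nat.Prime,
        ((cut r (n + 1) (Real.log p) : ℝ) : ℂ) * (p : ℂ) ^ (-(γ * I)) *
          Complex.exp (-((Real.log p : ℂ) * z)) := by
      funext z
      rfl
    rw [h2, h1, Finset.mul_sum]
    refine Finset.sum_congr rfl fun p hp => ?_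
    rw [Finset.mem_filter, Finset.mem_Icc] at hp
    have hp1 : (1 : ℝ) ≤ p := by exact_mod_cast hp.1.1
    have hp0 : (0 : ℝ) < p := by linarith
    have hk : (k.factorial : ℂ) ≠ 0 := by exact_mod_cast (Nat.factorial_ne_zero k)
    have h3 : (dco a k p : ℂ) = (Real.log p : ℂ) ^ (k + 1) / (k.factorial : ℂ) *
        Complex.exp (-((Real.log p : ℂ) * ((1 + a : ℝ) : ℂ))) := by
      have h4 : dco a k p = Real.log p ^ (k + 1) / (k.factorial : ℝ) *
          Real.exp (-(Real.log p * (1 + a))) := by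
        rw [dco, ArithmeticFunction.vonMangoldt_apply_prime hp.2, Real.rpow_def_of_pos hp0, pow_succ]
        have : Real.log p * -(1 + a) = -(Real.log p * (1 + a)) := by ring
        rw [this]
        ring
      rw [h4]
      push_cast
      rfl
    rw [h3, neg_pow]
    field_simp
  rw [hI, norm_mul, norm_mul, norm_pow, norm_neg, norm_one, one_pow, one_mul,
    Complex.norm_natCast, le_div_iff₀ (by positivity)] at hC
  have hk0 : (0 : ℝ) < k.factorial := by exact_mod_cast (Nat.factorial_pos k)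
  have hf : (((k + 1).factorial : ℕ) : ℝ) = ((k : ℝ) + 1) * (k.factorial : ℝ) := by
    rw [Nat.factorial_succ]; push_cast; ring
  rw [hf] at hC
  have h5 : (k.factorial : ℝ) * (a ^ (k + 1) * ‖∑ p ∈ (Finset.Icc 1 N).filter Nat.Prime,
      ((cut r (n + 1) (Real.log p) : ℝ) : ℂ) * ((dco a k p : ℂ) * (p : ℂ) ^ (-(γ * I)))‖) ≤
      (k.factorial : ℝ) * (((k : ℝ) + 1) * B) := by
    linarith
  exact le_of_mul_le_mul_left h5 hk0

end Pool.Agent.H48.VP
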