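import Mathlib
import Pool.Agent.H76.SV.LargeV
import Pool.Agent.H76.PS.Uncr

/-!
# UncrK: zeros are uncrowded at the Vinogradov-Korobov scale

As `H76/PS/Uncr.lean`, with Richert's bound `|ζ s| ≤ B |im s|^(A max(1 - re s, 0)^(3/2)) log |im s|`
in place of `|im s|^(η max(1 - re s, 0))`: then `8 η/c' log γ ≤ log N` becomes
`C √d log γ ≤ log N`.
-/

set_option autoImplicit false

open Complex

namespace Pool.Agent.H48.VP

open Pool.Agent.H76.CR Pool.Agent.H52.Unc

/-- Richert's bound with constants `A` (exponent) and `B` -/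
def RB (A B : ℝ) : Prop :=
  ∀ s : ℂ, 1 / 2 ≤ s.re → 2 ≤ |s.im| →
    ‖riemannZeta s‖ ≤ B * |s.im| ^ (A * max (1 - s.re) 0 ^ (3 / 2 : ℝ)) * Real.log |s.im|

theorem rpow_three_half {y d : ℝ} (hy : 0 ≤ y) (hd : 0 < d) (hyd : y ≤ 2 * d) :
    y ^ (3 / 2 : ℝ) ≤ 3 * (d * √d) := by
  have h1 : y ^ (3 / 2 : ℝ) ≤ (2 * d) ^ (3 / 2 : ℝ) := Real.rpow_le_rpow hy hyd (by norm_num)
  have h2 : (2 * d) ^ (3 / 2 : ℝ) = 2 * d * √(2 * d) := by
    have e : (3 / 2 : ℝ) = 1 + 1 / 2 := by norm_num
    rw [e, Real.rpow_add (by positivity), Real.rpow_one, ← Real.sqrt_eq_rpow]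
  have h3 : √(2 * d) = √2 * √d := Real.sqrt_mul (by norm_num) d
  have h4 : √2 ≤ 3 / 2 := by
    rw [Real.sqrt_le_left (by norm_num)]; norm_num
  rw [h2, h3] at h1
  calc y ^ (3 / 2 : ℝ) ≤ 2 * d * (√2 * √d) := h1
    _ ≤ 2 * d * (3 / 2 * √d) := by gcongr
    _ = 3 * (d * √d) := by ring

theorem uncrK {K ε c A B : ℝ} (hK : 0 < K) (hε : 0 < ε) (hε1 : ε ≤ 1 / 4) (hc : 0 < c)
    (hA : 0 < A) (hB : 1 ≤ B) (hbd : RB A B) :
    ∃ C : ℝ, 1 ≤ C ∧ ∀ (ρ : ℂ) (d N : ℝ), riemannZeta ρ = 0 → 0 < d → d ≤ 1 / 2 →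
        1 - d ≤ ρ.re → 1 / 2 ≤ ρ.re - 2 * ε * d → C ≤ ρ.im → 1 ≤ N →
        C * (√d * Real.log ρ.im) ≤ Real.log N →
        C * Real.log (Real.log (ρ.im + N)) ≤ d * Real.log N →
        (rz (K * d) (ρ.re - ε * d) ρ : ℝ) < c * d * Real.log N := by
  obtain ⟨c', C0, hc', hC0, hL⟩ := Pool.Agent.H76.SV.largeV hK hε (by linarith) hc
  have hlB : 0 ≤ Real.log B := Real.log_nonneg hB
  have hl2 : 0 < Real.log 2 := Real.log_pos (by norm_num)
  set E : ℝ := 2 * (Real.log B + Real.log 2 + 1) / c' with hE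
  have hE0 : 0 ≤ E := by rw [hE]; positivity
  set F : ℝ := 12 * A / c' with hF
  have hF0 : 0 ≤ F := by rw [hF]; positivity
  refine ⟨2 * C0 + 16 + E + F, by linarith, ?_⟩
  intro ρ d N hρ hd hd1 hre hr0 hCim hN hlog hloglog
  by_contra hcon
  push Not at hcon
  set γ : ℝ := ρ.im with hγ
  have hγ16 : 16 ≤ γ := by linarith
  have hγ0 : 0 < γ := by linarith
  have hlN0 : 0 ≤ Real.log N := Real.log_nonneg hN
  -- log log (γ + N) ≥ 1
  have hee : Real.exp (Real.exp 1) ≤ γ + N := by
    have h1 : Real.exp 1 < 2.7182818286 := Real.exp_one_lt_d9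
    have h2 : Real.exp (Real.exp 1) ≤ 16 := by
      have h3 : Real.exp (Real.exp 1) ≤ Real.exp (4 * (69 / 100)) := by
        apply Real.exp_le_exp.2; linarith
      have h4 : (69 / 100 : ℝ) ≤ Real.log 2 := by
        have := Real.log_two_gt_d9; linarith
      have h5 : Real.exp (4 * (69 / 100)) ≤ Real.exp (4 * Real.log 2) := by
        apply Real.exp_le_exp.2; linarith
      have h6 : Real.exp (4 * Real.log 2) = 16 := by
        have : Real.exp (4 * Real.log 2) = Real.exp (Real.log 2) ^ 4 := by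
          rw [← Real.exp_nat_mul]; norm_num
        rw [this, Real.exp_log (by norm_num)]; norm_num
      linarith
    linarith
  have hlog1 : Real.exp 1 ≤ Real.log (γ + N) := by
    rw [Real.le_log_iff_exp_le (by linarith)]; exact hee
  have hL0 : 0 < Real.log (γ + N) := lt_of_lt_of_le (Real.exp_pos 1) hlog1
  have hLL : 1 ≤ Real.log (Real.log (γ + N)) := by
    rw [Real.le_log_iff_exp_le hL0]; exact hlog1
  set LL : ℝ := Real.log (Real.log (γ + N)) with hLLdef
  -- d log N is large
  have hdl : 2 * C0 + 16 + E ≤ d * Real.log N := by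
    calc 2 * C0 + 16 + E ≤ (2 * C0 + 16 + E + F) * 1 := by linarith
      _ ≤ (2 * C0 + 16 + E + F) * LL := mul_le_mul_of_nonneg_left hLL (by linarith)
      _ ≤ d * Real.log N := hloglog
  have hlN : 2 * C0 + 16 + E ≤ Real.log N := by
    calc 2 * C0 + 16 + E ≤ d * Real.log N := hdl
      _ ≤ 1 * Real.log N := by gcongr; linarith
      _ = Real.log N := one_mul _
  have hlN1 : 0 < Real.log N := by linarith
  have hLLN : Real.log (Real.log N) ≤ LL := by
    apply Real.log_le_log hlN1
    apply Real.log_le_log (by linarith)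
    linarith
  obtain ⟨s, hs1, hs2, hs3⟩ := hL ρ d N hρ hd hd1 hre
    (by rw [← hγ, abs_of_pos hγ0]; linarith) hN (by linarith)
    (by
      calc C0 * Real.log (Real.log N) ≤ C0 * LL := by gcongr
        _ ≤ (2 * C0 + 16 + E + F) * LL := by gcongr; linarith
        _ ≤ d * Real.log N := hloglog) hcon
  -- the imaginary part of `s`
  have him : |s.im - γ| ≤ C0 := by
    have h1 : |(s - ρ).im| ≤ ‖s - ρ‖ := Complex.abs_im_le_norm _
    rw [Complex.sub_im] at h1
    exact h1.trans hs2
  have hAb := abs_le.1 him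
  have hs0 : 0 < s.im := by linarith
  have habs : |s.im| = s.im := abs_of_pos hs0
  have hb := hbd s (hr0.trans hs1) (by rw [habs]; linarith)
  rw [habs] at hb
  have hs2γ : s.im ≤ 2 * γ := by linarith
  have hs2 : 2 ≤ s.im := by linarith
  have hmax : max (1 - s.re) 0 ≤ 2 * d := by
    apply max_le
    · have : 2 * ε * d ≤ 2 * (1 / 4) * d := by gcongr
      linarith
    · linarith
  have hmax0 : 0 ≤ max (1 - s.re) 0 := le_max_right _ _
  set Y : ℝ := max (1 - s.re) 0 ^ (3 / 2 : ℝ) with hY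
  have hY0 : 0 ≤ Y := Real.rpow_nonneg hmax0 _
  have hY3 : Y ≤ 3 * (d * √d) := rpow_three_half hmax0 hd hmax
  have hl2γ : Real.log (2 * γ) ≤ 2 * Real.log γ := by
    rw [Real.log_mul (by norm_num) hγ0.ne']
    have : Real.log 2 ≤ Real.log γ := Real.log_le_log (by norm_num) (by linarith)
    linarith
  have hlγ0 : 0 < Real.log γ := Real.log_pos (by linarith)
  have hlsim : 0 < Real.log s.im := Real.log_pos (by linarith)
  have hBpos : 0 < B := by linarith
  have hpow0 : 0 < s.im ^ (A * Y) := Real.rpow_pos_of_pos hs0 _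
  -- take logs
  have hNpos : 0 < N := by linarith
  have h1 : c' * d * Real.log N < Real.log (B * s.im ^ (A * Y) * Real.log s.im) := by
    rw [← Real.log_rpow hNpos]
    apply Real.log_lt_log (Real.rpow_pos_of_pos hNpos _)
    exact lt_of_lt_of_le hs3 hb
  rw [Real.log_mul (by positivity) hlsim.ne', Real.log_mul hBpos.ne' hpow0.ne',
    Real.log_rpow hs0] at h1
  have h2 : A * Y * Real.log s.im ≤ 6 * A * d * (√d * Real.log γ) := by
    calc A * Y * Real.log s.im ≤ A * (3 * (d * √d)) * Real.log (2 * γ) := by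
          gcongr
      _ ≤ A * (3 * (d * √d)) * (2 * Real.log γ) := by gcongr
      _ = 6 * A * d * (√d * Real.log γ) := by ring
  have h3 : 6 * A * d * (√d * Real.log γ) ≤ c' / 2 * (d * Real.log N) := by
    have h4 : F * (√d * Real.log γ) ≤ Real.log N := by
      refine le_trans ?_ hlog
      apply mul_le_mul_of_nonneg_right _ (by positivity)
      linarith
    have h5 : c' / 2 * d * (F * (√d * Real.log γ)) ≤ c' / 2 * d * Real.log N :=
      mul_le_mul_of_nonneg_left h4 (by positivity)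
    have h6 : c' / 2 * d * (F * (√d * Real.log γ)) = 6 * A * d * (√d * Real.log γ) := by
      rw [hF]; field_simp; ring
    linarith
  have h4 : Real.log (Real.log s.im) ≤ Real.log 2 + LL := by
    calc Real.log (Real.log s.im) ≤ Real.log (2 * Real.log (γ + N)) := by
          apply Real.log_le_log hlsim
          calc Real.log s.im ≤ Real.log (2 * γ) := Real.log_le_log hs0 hs2γ
            _ ≤ 2 * Real.log γ := hl2γ
            _ ≤ 2 * Real.log (γ + N) := by
                have : Real.log γ ≤ Real.log (γ + N) := Real.log_le_log hγ0 (by linarith)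
                linarith
      _ = Real.log 2 + LL := by rw [Real.log_mul (by norm_num) hL0.ne']
  have h5 : Real.log B + Real.log 2 + LL ≤ c' / 2 * (d * Real.log N) := by
    have h6 : Real.log B + Real.log 2 + LL ≤ (Real.log B + Real.log 2 + 1) * LL := by
      have h7 : Real.log B + Real.log 2 ≤ (Real.log B + Real.log 2) * LL :=
        le_mul_of_one_le_right (by linarith) hLL
      linarith
    have h8 : c' / 2 * E = Real.log B + Real.log 2 + 1 := by
      rw [hE]; field_simp
    calc Real.log B + Real.log 2 + LL ≤ (Real.log B + Real.log 2 + 1) * LL := h6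
      _ = c' / 2 * (E * LL) := by rw [← h8]; ring
      _ ≤ c' / 2 * ((2 * C0 + 16 + E + F) * LL) := by gcongr; linarith
      _ ≤ c' / 2 * (d * Real.log N) := by gcongr
  have h9 : c' / 2 * (d * Real.log N) + c' / 2 * (d * Real.log N) = c' * d * Real.log N := by ring
  linarith

end Pool.Agent.H48.VP
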