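import Mathlib
import Pool.Agent.H76.PS.Vis
import Pool.Agent.H48.VP.KerD
import Pool.Agent.H48.VP.SeenK
import Pool.Agent.H48.VP.UncrK

/-!
# VisC: visibility for every cutoff, within a bounded distance of the zero

A zero `β + iγ` is seen by the prime sums `P(⌊N⌋, t)`, `N` given, in the mean over the heights `t`
within `C` of `γ`.  The sum detected by `seenK` (weight `(log p)^(k+1) p^(-1-a)/k!`) is multiplied with the
smooth cutoff `cut r J (log p)` (`KerC`) and bounded by Cauchy's estimate (`KerD`).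
-/

set_option autoImplicit false

open Complex

namespace Pool.Agent.H48.VP

open Pool.Agent.H76.CR Pool.Agent.H52.Unc

private theorem log_pow_le {a x : ℝ} (ha : 0 < a) (hx : 1 ≤ x) (k : ℕ) :
    Real.log x ^ k / (k.factorial : ℝ) ≤ (a ^ k)⁻¹ * x ^ a := by
  have hl : 0 ≤ Real.log x := Real.log_nonneg hx
  have h1 := Real.pow_div_factorial_le_exp (a * Real.log x) (by positivity) k
  have h2 : Real.exp (a * Real.log x) = x ^ a := by
    rw [Real.rpow_def_of_pos (by linarith), mul_comm]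
  rw [h2, mul_pow] at h1
  have hak : 0 < a ^ k := by positivity
  rw [← div_eq_inv_mul, le_div_iff₀ hak]
  calc Real.log x ^ k / (k.factorial : ℝ) * a ^ k = a ^ k * Real.log x ^ k / (k.factorial : ℝ) := by
        ring
    _ ≤ _ := h1

/-- `a^(k+1) dco a k n ≤ a Λ(n)/n` -/
theorem dco_up {a : ℝ} (ha : 0 < a) (k : ℕ) {n : ℕ} (hn : 1 ≤ n) :
    a ^ (k + 1) * dco a k n ≤ a * (ArithmeticFunction.vonMangoldt n * (n : ℝ)⁻¹) := by
  have hn1r : (1:ℝ) ≤ n := by exact_mod_cast hn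
  have hn0 : (0:ℝ) < n := by linarith
  have h1 := log_pow_le ha hn1r k
  have e3 : (n:ℝ) ^ a * (n:ℝ) ^ (-(1 + a)) = (n:ℝ)⁻¹ := by
    rw [← Real.rpow_add hn0, ← Real.rpow_neg_one]
    congr 1; ring
  have hΛ : 0 ≤ ArithmeticFunction.vonMangoldt n := ArithmeticFunction.vonMangoldt_nonneg
  have hak : 0 < a ^ k := by positivity
  rw [dco]
  calc a ^ (k + 1) * (ArithmeticFunction.vonMangoldt n * (Real.log n ^ k / (k.factorial : ℝ)) *
        (n : ℝ) ^ (-(1 + a)))
      ≤ a ^ (k + 1) * (ArithmeticFunction.vonMangoldt n * ((a ^ k)⁻¹ * (n:ℝ) ^ a) *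
        (n : ℝ) ^ (-(1 + a))) := by gcongr
    _ = a * (a ^ k * (a ^ k)⁻¹) * (ArithmeticFunction.vonMangoldt n *
          ((n:ℝ) ^ a * (n:ℝ) ^ (-(1 + a)))) := by rw [pow_succ]; ring
    _ = _ := by rw [e3, mul_inv_cancel₀ hak.ne', mul_one]

theorem tw_norm {n : ℕ} (hn : 1 ≤ n) (t : ℝ) : ‖(n : ℂ) ^ (-(t * I))‖ = 1 := by
  rw [Complex.norm_natCast_cpow_of_pos (by omega)]
  simp

/-- prime powers `≥ A0` (as in `H52/Unc/PartSumU`, `H76/SV/PartSumV`) -/
theorem nonprime_le {a N : ℝ} (ha : 0 < a) (k A0 : ℕ) (hN : 1 ≤ N) (hA : 1 ≤ A0) (t : ℝ) :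
    a ^ (k + 1) * ‖∑ n ∈ (Finset.Icc 1 ⌊N⌋₊).filter (fun n => A0 ≤ n ∧ ¬ n.Prime),
        (dco a k n : ℂ) * (n : ℂ) ^ (-(t * I))‖ ≤
      a * (2 * Real.log N) * (N ^ (1 / 2 : ℝ) * (A0 : ℝ)⁻¹) := by
  have hA1 : (1 : ℝ) ≤ A0 := by exact_mod_cast hA
  have hA0 : (0 : ℝ) < A0 := by linarith
  have hpsi := Chebyshev.psi_sub_theta_le hN
  rw [Chebyshev.psi_sub_theta_eq_sum_not_prime] at hpsi
  have hak : 0 < a ^ (k + 1) := by positivity
  calc a ^ (k + 1) * ‖∑ n ∈ (Finset.Icc 1 ⌊N⌋₊).filter (fun n => A0 ≤ n ∧ ¬ n.Prime),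
        (dco a k n : ℂ) * (n : ℂ) ^ (-(t * I))‖
      ≤ a ^ (k + 1) * ∑ n ∈ (Finset.Icc 1 ⌊N⌋₊).filter (fun n => A0 ≤ n ∧ ¬ n.Prime),
        dco a k n := by
        apply mul_le_mul_of_nonneg_left _ hak.le
        refine norm_sum_le_of_le _ fun n hn => ?_
        rw [Finset.mem_filter, Finset.mem_Icc] at hn
        rw [norm_mul, tw_norm hn.1.1, mul_one, Complex.norm_real,
          Real.norm_of_nonneg (dco_nonneg a k n)]
    _ = ∑ n ∈ (Finset.Icc 1 ⌊N⌋₊).filter (fun n => A0 ≤ n ∧ ¬ n.Prime),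
        a ^ (k + 1) * dco a k n := by rw [Finset.mul_sum]
    _ ≤ ∑ n ∈ (Finset.Icc 1 ⌊N⌋₊).filter (fun n => A0 ≤ n ∧ ¬ n.Prime),
        a * (A0:ℝ)⁻¹ * ArithmeticFunction.vonMangoldt n := by
        apply Finset.sum_le_sum
        intro n hn
        rw [Finset.mem_filter, Finset.mem_Icc] at hn
        have hnA : (A0:ℝ) ≤ n := by exact_mod_cast hn.2.1
        have hΛ : 0 ≤ ArithmeticFunction.vonMangoldt n := ArithmeticFunction.vonMangoldt_nonneg
        refine (dco_up ha k hn.1.1).trans ?_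
        have : (n:ℝ)⁻¹ ≤ (A0:ℝ)⁻¹ := inv_anti₀ hA0 hnA
        calc a * (ArithmeticFunction.vonMangoldt n * (n : ℝ)⁻¹)
            ≤ a * (ArithmeticFunction.vonMangoldt n * (A0 : ℝ)⁻¹) := by gcongr
          _ = _ := by ring
    _ = a * (A0:ℝ)⁻¹ * ∑ n ∈ (Finset.Icc 1 ⌊N⌋₊).filter (fun n => A0 ≤ n ∧ ¬ n.Prime),
        ArithmeticFunction.vonMangoldt n := by rw [Finset.mul_sum]
    _ ≤ a * (A0:ℝ)⁻¹ * (2 * √N * Real.log N) := by
        apply mul_le_mul_of_nonneg_left _ (by positivity)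
        refine le_trans ?_ hpsi
        apply Finset.sum_le_sum_of_subset_of_nonneg
        · intro n hn
          rw [Finset.mem_filter, Finset.mem_Icc] at hn
          rw [Finset.mem_filter, Finset.mem_Ioc]
          exact ⟨⟨by omega, hn.1.2⟩, hn.2.2⟩
        · intro n _ _
          exact ArithmeticFunction.vonMangoldt_nonneg
    _ = _ := by rw [Real.sqrt_eq_rpow]; ring

/-- the part of the primes `≥ A0` lost by the smooth cutoff -/
theorem lost_le {a N q r : ℝ} (ha : 0 < a) (k A0 J : ℕ) (hN : 1 ≤ N) (hr : 0 < r) (t : ℝ)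
    (hq : ∀ n : ℕ, A0 ≤ n → 1 - cut r J (Real.log n) ≤ q) :
    a ^ (k + 1) * ‖∑ n ∈ (Finset.Icc 1 ⌊N⌋₊).filter (fun n => A0 ≤ n ∧ n.Prime),
        ((1 - cut r J (Real.log n) : ℝ) : ℂ) * ((dco a k n : ℂ) * (n : ℂ) ^ (-(t * I)))‖ ≤
      a * Real.log N * (N * q) := by
  have hN0 : 0 < N := by linarith
  have hak : 0 < a ^ (k + 1) := by positivity
  have hl : 0 ≤ Real.log N := Real.log_nonneg hN
  have hterm : ∀ n ∈ (Finset.Icc 1 ⌊N⌋₊).filter (fun n => A0 ≤ n ∧ n.Prime),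
      a ^ (k + 1) * ‖((1 - cut r J (Real.log n) : ℝ) : ℂ) * ((dco a k n : ℂ) *
        (n : ℂ) ^ (-(t * I)))‖ ≤ q * (a * Real.log N) := by
    intro n hn
    rw [Finset.mem_filter, Finset.mem_Icc] at hn
    have hn1 : (1:ℝ) ≤ n := by exact_mod_cast hn.1.1
    have hnN : (n:ℝ) ≤ N := (Nat.le_floor_iff hN0.le).1 hn.1.2
    have hln : 0 ≤ Real.log n := Real.log_nonneg hn1
    have hc := cut_le_one (r := r) (u := Real.log n) (by positivity) J
    have h1 : 0 ≤ 1 - cut r J (Real.log n) := by linarith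
    have h2 : a ^ (k + 1) * dco a k n ≤ a * Real.log N := by
      refine (dco_up ha k hn.1.1).trans (mul_le_mul_of_nonneg_left ?_ ha.le)
      have h3 : ArithmeticFunction.vonMangoldt n ≤ Real.log N :=
        ArithmeticFunction.vonMangoldt_le_log.trans (Real.log_le_log (by linarith) hnN)
      calc ArithmeticFunction.vonMangoldt n * (n : ℝ)⁻¹ ≤ Real.log N * 1 :=
            mul_le_mul h3 (inv_le_one_of_one_le₀ hn1) (by positivity) hl
        _ = Real.log N := mul_one _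
    rw [norm_mul, norm_mul, tw_norm hn.1.1, mul_one, Complex.norm_real, Complex.norm_real,
      Real.norm_of_nonneg h1, Real.norm_of_nonneg (dco_nonneg a k n)]
    calc a ^ (k + 1) * ((1 - cut r J (Real.log n)) * dco a k n)
        = (1 - cut r J (Real.log n)) * (a ^ (k + 1) * dco a k n) := by ring
      _ ≤ q * (a * Real.log N) :=
          mul_le_mul (hq n hn.2.1) h2 (mul_nonneg hak.le (dco_nonneg a k n))
            (h1.trans (hq n hn.2.1))
  rcases le_or_gt q 0 with hq0 | hq0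
  · -- then the sum is empty
    rcases Finset.eq_empty_or_nonempty
      ((Finset.Icc 1 ⌊N⌋₊).filter (fun n => A0 ≤ n ∧ n.Prime)) with he | ⟨n, hn⟩
    · rw [he, Finset.sum_empty, norm_zero, mul_zero]
      by_contra hcon
      have := hq (A0 + 2) (by omega)
      have hc := cut_le_one (r := r) (u := Real.log ((A0 + 2 : ℕ) : ℝ))
        (mul_nonneg hr.le (Real.log_nonneg (by
          push_cast
          have : (0 : ℝ) ≤ A0 := Nat.cast_nonneg _
          linarith))) J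
      have hq1 : 0 ≤ q := by linarith
      exact hcon (by positivity)
    · have hn' := hn
      rw [Finset.mem_filter, Finset.mem_Icc] at hn'
      have hn1 : (1:ℝ) ≤ n := by exact_mod_cast hn'.1.1
      have hc := cut_le_one (r := r) (u := Real.log n)
        (mul_nonneg hr.le (Real.log_nonneg hn1)) J
      have hq1 : 0 ≤ q := by linarith [hq n hn'.2.1]
      have hq2 : q = 0 := le_antisymm hq0 hq1
      have h0 : ‖∑ n ∈ (Finset.Icc 1 ⌊N⌋₊).filter (fun n => A0 ≤ n ∧ n.Prime),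
          ((1 - cut r J (Real.log n) : ℝ) : ℂ) * ((dco a k n : ℂ) * (n : ℂ) ^ (-(t * I)))‖ ≤
          0 := by
        refine (norm_sum_le_of_le _ (n := fun _ => (0 : ℝ)) fun m hm => ?_).trans (by simp)
        have := hterm m hm
        rw [hq2, zero_mul] at this
        by_contra hcon
        push Not at hcon
        have := mul_pos hak hcon
        linarith
      rw [hq2, mul_zero, mul_zero]
      have := mul_le_mul_of_nonneg_left h0 hak.le
      rwa [mul_zero] at this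
  · calc a ^ (k + 1) * ‖∑ n ∈ (Finset.Icc 1 ⌊N⌋₊).filter (fun n => A0 ≤ n ∧ n.Prime),
        ((1 - cut r J (Real.log n) : ℝ) : ℂ) * ((dco a k n : ℂ) * (n : ℂ) ^ (-(t * I)))‖
        ≤ a ^ (k + 1) * ∑ n ∈ (Finset.Icc 1 ⌊N⌋₊).filter (fun n => A0 ≤ n ∧ n.Prime),
          ‖((1 - cut r J (Real.log n) : ℝ) : ℂ) * ((dco a k n : ℂ) * (n : ℂ) ^ (-(t * I)))‖ :=
          mul_le_mul_of_nonneg_left (norm_sum_le _ _) hak.le
      _ = ∑ n ∈ (Finset.Icc 1 ⌊N⌋₊).filter (fun n => A0 ≤ n ∧ n.Prime), a ^ (k + 1) *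
          ‖((1 - cut r J (Real.log n) : ℝ) : ℂ) * ((dco a k n : ℂ) * (n : ℂ) ^ (-(t * I)))‖ := by
          rw [Finset.mul_sum]
      _ ≤ ∑ n ∈ (Finset.Icc 1 ⌊N⌋₊).filter (fun n => A0 ≤ n ∧ n.Prime),
          q * (a * Real.log N) := Finset.sum_le_sum hterm
      _ = (((Finset.Icc 1 ⌊N⌋₊).filter (fun n => A0 ≤ n ∧ n.Prime)).card : ℝ) *
          (q * (a * Real.log N)) := by rw [Finset.sum_const, nsmul_eq_mul]
      _ ≤ N * (q * (a * Real.log N)) := by
          apply mul_le_mul_of_nonneg_right _ (by positivity)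
          have h1 := Finset.card_filter_le (Finset.Icc 1 ⌊N⌋₊) (fun n => A0 ≤ n ∧ n.Prime)
          rw [Nat.card_Icc, Nat.add_sub_cancel] at h1
          exact (Nat.le_floor_iff hN0.le).1 h1
      _ = _ := by ring

/-- the weights -/
noncomputable def psw (r : ℝ) (J A0 n : ℕ) : ℝ :=
  if A0 ≤ n then 1 else if n.Prime then cut r J (Real.log n) else 0

theorem psw_bd {r : ℝ} (hr : 0 < r) (J A0 n : ℕ) : 0 ≤ psw r J A0 n ∧ psw r J A0 n ≤ 1 := by
  unfold psw
  split_ifs with h1 h2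
  · exact ⟨zero_le_one, le_rfl⟩
  · have hn1 : (1:ℝ) ≤ n := by exact_mod_cast h2.one_lt.le
    have h3 : 0 ≤ r * Real.log n := mul_nonneg hr.le (Real.log_nonneg hn1)
    exact ⟨cut_nonneg h3 J, cut_le_one h3 J⟩
  · exact ⟨le_rfl, zero_le_one⟩

theorem split3 (a r : ℝ) (k J M A0 : ℕ) (t : ℝ) :
    ∑ n ∈ Finset.Icc 1 M, (psw r J A0 n : ℂ) * ((dco a k n : ℂ) * (n : ℂ) ^ (-(t * I))) =
      ∑ p ∈ (Finset.Icc 1 M).filter Nat.Prime,
        ((cut r J (Real.log p) : ℝ) : ℂ) * ((dco a k p : ℂ) * (p : ℂ) ^ (-(t * I))) +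
      ∑ n ∈ (Finset.Icc 1 M).filter (fun n => A0 ≤ n ∧ ¬ n.Prime),
        (dco a k n : ℂ) * (n : ℂ) ^ (-(t * I)) +
      ∑ n ∈ (Finset.Icc 1 M).filter (fun n => A0 ≤ n ∧ n.Prime),
        ((1 - cut r J (Real.log n) : ℝ) : ℂ) * ((dco a k n : ℂ) * (n : ℂ) ^ (-(t * I))) := by
  rw [Finset.sum_filter, Finset.sum_filter, Finset.sum_filter,
    ← Finset.sum_add_distrib, ← Finset.sum_add_distrib]
  refine Finset.sum_congr rfl fun n _ => ?_
  unfold psw
  by_cases hn : n.Prime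
  · by_cases hA : A0 ≤ n
    · rw [if_pos hA, if_pos hn, if_neg (fun h => h.2 hn), if_pos ⟨hA, hn⟩]
      push_cast
      ring
    · rw [if_neg hA, if_pos hn, if_pos hn, if_neg (by tauto), if_neg (by tauto)]
      ring
  · by_cases hA : A0 ≤ n
    · rw [if_pos hA, if_neg hn, if_pos ⟨hA, hn⟩, if_neg (by tauto)]
      push_cast
      ring
    · rw [if_neg hA, if_neg hn, if_neg hn, if_neg (by tauto), if_neg (by tauto)]
      push_cast
      ring

/-- the choice of the free parameter (as in `VisS`) -/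
theorem scale_d {ε C1 : ℝ} (hε1 : ε ≤ 1 / 4) (hC1 : 1 ≤ C1) :
    ∃ C : ℝ, 1 ≤ C ∧ ∀ β γ N : ℝ, 1 / 2 + ε ≤ β → β < 1 → C ≤ γ →
      1 ≤ N → C * (√(1 - β) * Real.log γ) ≤ Real.log N →
      C * (Real.log γ ^ 2 * Real.log (Real.log γ)) ≤ Real.log N ^ 3 →
      ∃ d : ℝ, 0 < d ∧ d ≤ 1 / 2 - ε ∧ 1 - β ≤ d ∧ C1 * (√d * Real.log γ) ≤ Real.log N ∧
        C1 * Real.log (Real.log (γ + N)) ≤ d * Real.log N := by
  have hC1p : 1 ≤ C1 ^ 3 := one_le_pow₀ hC1
  have hC13 : C1 ≤ C1 ^ 3 := le_self_pow₀ hC1 (by norm_num)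
  obtain ⟨Y0, hY0, hY⟩ := Pool.Agent.H76.PS.log_dom (2 * C1 ^ 3) (Real.log 2) (1 / 4) (by norm_num)
  have hE3 := Real.exp_pos 3
  refine ⟨2 * C1 ^ 3 + Y0 ^ 3 + Real.exp 3, by nlinarith [one_le_pow₀ hY0 (n := 3)], ?_⟩
  set C : ℝ := 2 * C1 ^ 3 + Y0 ^ 3 + Real.exp 3 with hC
  have hY03 : 1 ≤ Y0 ^ 3 := one_le_pow₀ hY0
  intro β γ N hre hre1 him hN hlog hcub
  set L : ℝ := Real.log N with hL
  have hCpos : 0 < C := by linarith
  have hγ3 : Real.exp 3 ≤ γ := by linarith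
  have hγ0 : 0 < γ := by linarith
  have hN0 : 0 < N := by linarith
  have hlγ : 3 ≤ Real.log γ := by
    rw [Real.le_log_iff_exp_le hγ0]; exact hγ3
  have hlγ0 : 0 < Real.log γ := by linarith
  have hllγ : 1 ≤ Real.log (Real.log γ) := by
    rw [Real.le_log_iff_exp_le hlγ0]
    have := Real.exp_one_lt_d9
    linarith
  have hL0' : 0 ≤ L := Real.log_nonneg hN
  have hsq1 : 1 ≤ Real.log γ ^ 2 := one_le_pow₀ (by linarith)
  -- `(log γ)^2 ≤ L^3`, `Y0 ≤ L`
  have hprod : Real.log γ ^ 2 ≤ Real.log γ ^ 2 * Real.log (Real.log γ) :=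
    le_mul_of_one_le_right (by positivity) hllγ
  have hLY : Y0 ≤ L := by
    have h1 : Y0 ^ 3 ≤ L ^ 3 := by
      calc Y0 ^ 3 = Y0 ^ 3 * 1 := (mul_one _).symm
        _ ≤ C * (Real.log γ ^ 2 * Real.log (Real.log γ)) :=
          mul_le_mul (by linarith) (hsq1.trans hprod) zero_le_one hCpos.le
        _ ≤ L ^ 3 := hcub
    exact (pow_le_pow_iff_left₀ (by linarith) hL0' (by norm_num)).1 h1
  have hL1 : 1 ≤ L := hY0.trans hLY
  have hLpos : 0 < L := by linarith
  have hγL : Real.log γ ^ 2 ≤ L ^ 3 := by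
    calc Real.log γ ^ 2 ≤ Real.log γ ^ 2 * Real.log (Real.log γ) := hprod
      _ ≤ C * (Real.log γ ^ 2 * Real.log (Real.log γ)) :=
          le_mul_of_one_le_left (by positivity) (by linarith)
      _ ≤ L ^ 3 := hcub
  have hllL : Real.log (Real.log γ) ≤ 3 / 2 * Real.log L := by
    have h1 := Real.log_le_log (by positivity) hγL
    rw [Real.log_pow, Real.log_pow] at h1
    push_cast at h1
    linarith
  have hlL0 : 0 ≤ Real.log L := Real.log_nonneg hL1
  set W : ℝ := Real.log (γ + N) with hW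
  have hWγ : Real.log γ ≤ W := Real.log_le_log hγ0 (by linarith)
  have hW0 : 0 < W := by linarith
  set l : ℝ := Real.log W with hl
  have hl1 : 1 ≤ l := by
    rw [hl, Real.le_log_iff_exp_le hW0]
    have := Real.exp_one_lt_d9
    linarith
  have hl2 : Real.log 2 ≤ 1 := by
    have := Real.log_two_lt_d9
    linarith
  have hl20 : 0 ≤ Real.log 2 := Real.log_nonneg (by norm_num)
  -- the two cases
  have hcase : l ≤ 2 * (Real.log 2 + Real.log L) ∧ C1 ^ 3 * (l * Real.log γ ^ 2) ≤ L ^ 3 := by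
    rcases le_total N γ with hcs | hcs
    · have h1 : W ≤ 2 * Real.log γ := by
        have h2 : W ≤ Real.log (2 * γ) := Real.log_le_log (by linarith) (by linarith)
        rw [Real.log_mul (by norm_num) hγ0.ne'] at h2
        linarith
      have h2 : l ≤ Real.log 2 + Real.log (Real.log γ) := by
        rw [← Real.log_mul (by norm_num) hlγ0.ne']
        exact Real.log_le_log hW0 h1
      refine ⟨by linarith, ?_⟩
      calc C1 ^ 3 * (l * Real.log γ ^ 2)
          ≤ C1 ^ 3 * ((2 * Real.log (Real.log γ)) * Real.log γ ^ 2) := by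
            gcongr
            linarith
        _ = 2 * C1 ^ 3 * (Real.log γ ^ 2 * Real.log (Real.log γ)) := by ring
        _ ≤ C * (Real.log γ ^ 2 * Real.log (Real.log γ)) := by
            apply mul_le_mul_of_nonneg_right _ (by positivity)
            linarith
        _ ≤ L ^ 3 := hcub
    · have h1 : W ≤ 2 * L := by
        have h2 : W ≤ Real.log (2 * N) := Real.log_le_log (by linarith) (by linarith)
        rw [Real.log_mul (by norm_num) hN0.ne'] at h2
        linarith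
      have h2 : l ≤ Real.log 2 + Real.log L := by
        rw [← Real.log_mul (by norm_num) hLpos.ne']
        exact Real.log_le_log hW0 h1
      refine ⟨by linarith, ?_⟩
      have h3 : Real.log γ ≤ L := Real.log_le_log hγ0 hcs
      have h4 := hY L hLY
      have h5 : C1 ^ 3 * l ≤ L := by
        have : C1 ^ 3 * l ≤ C1 ^ 3 * (Real.log 2 + Real.log L) :=
          mul_le_mul_of_nonneg_left h2 (by linarith)
        have h6 : C1 ^ 3 * (Real.log 2 + Real.log L) * 2 ≤ 1 / 4 * L := by linarith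
        have h7 : 0 ≤ C1 ^ 3 * (Real.log 2 + Real.log L) := by positivity
        linarith
      calc C1 ^ 3 * (l * Real.log γ ^ 2) = (C1 ^ 3 * l) * Real.log γ ^ 2 := by ring
        _ ≤ L * L ^ 2 := by
            apply mul_le_mul h5 _ (by positivity) hLpos.le
            exact pow_le_pow_left₀ hlγ0.le h3 2
        _ = L ^ 3 := by ring
  obtain ⟨hlL, hC1L⟩ := hcase
  set d0 : ℝ := C1 * l / L with hd0
  have hd0pos : 0 < d0 := by positivity
  have hd0N : d0 * L = C1 * l := by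
    rw [hd0]; field_simp
  have hd04 : d0 ≤ 1 / 4 := by
    rw [hd0, div_le_iff₀ hLpos]
    calc C1 * l ≤ C1 ^ 3 * (2 * (Real.log 2 + Real.log L)) :=
          mul_le_mul hC13 hlL (by linarith) (by linarith)
      _ = 2 * C1 ^ 3 * (Real.log 2 + Real.log L) := by ring
      _ ≤ 1 / 4 * L := hY L hLY
  have hd0s : C1 * (√d0 * Real.log γ) ≤ L := by
    have h1 : (C1 * (√d0 * Real.log γ)) ^ 2 ≤ L ^ 2 := by
      have h2 : (C1 * (√d0 * Real.log γ)) ^ 2 = C1 ^ 2 * d0 * Real.log γ ^ 2 := by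
        rw [mul_pow, mul_pow, Real.sq_sqrt hd0pos.le]; ring
      rw [h2]
      have h3 : C1 ^ 2 * d0 * Real.log γ ^ 2 * L ≤ L ^ 2 * L := by
        calc C1 ^ 2 * d0 * Real.log γ ^ 2 * L = C1 ^ 2 * (d0 * L) * Real.log γ ^ 2 := by ring
          _ = C1 ^ 3 * (l * Real.log γ ^ 2) := by rw [hd0N]; ring
          _ ≤ L ^ 3 := hC1L
          _ = L ^ 2 * L := by ring
      exact le_of_mul_le_mul_right h3 hLpos
    exact (pow_le_pow_iff_left₀ (by positivity) hLpos.le (by norm_num)).1 h1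
  set d : ℝ := max (1 - β) d0 with hd
  have hdd0 : d0 ≤ d := le_max_right _ _
  have hdβ : 1 - β ≤ d := le_max_left _ _
  have hdpos : 0 < d := hd0pos.trans_le hdd0
  have hd2 : d ≤ 1 / 2 - ε := max_le (by linarith) (by linarith)
  have hCC1 : C1 ≤ C := by linarith
  have hds : C1 * (√d * Real.log γ) ≤ L := by
    rcases le_total (1 - β) d0 with h | h
    · rw [hd, max_eq_right h]; exact hd0s
    · rw [hd, max_eq_left h]
      refine le_trans ?_ hlog
      apply mul_le_mul_of_nonneg_right hCC1 (by positivity)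
  have hdl : C1 * l ≤ d * L := by
    rw [← hd0N]
    exact mul_le_mul_of_nonneg_right hdd0 hLpos.le
  exact ⟨d, hdpos, hd2, hdβ, hds, hdl⟩


/-- the size of the smooth cutoff -/
theorem cut_size {θ r l : ℝ} (hθ : 0 < θ) (hθ1 : θ ≤ 1 / 16) (hr : r = 24 / θ ^ 2) (hl : 1 ≤ l) :
    ∃ n : ℕ, (∀ u : ℝ, (1 - 7 * θ) * l ≤ u → 1 - cut r (n + 1) u ≤ Real.exp (-(3 * l))) ∧
      (r / (r + 1)) ^ n ≤ Real.exp 1 * Real.exp (-((1 - 9 * θ) * l)) ∧
      (r / (Real.exp 1 * r)) ^ n ≤ Real.exp 2 * Real.exp (-(4 * l)) := by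
  have hr0 : 0 < r := by rw [hr]; positivity
  have hrθ2 : r * θ ^ 2 = 24 := by rw [hr]; field_simp
  have hrθ : 24 ≤ r * θ := by
    have h1 : r * θ ^ 2 = r * θ * θ := by ring
    have h2 : 0 < r * θ := by positivity
    have h3 : r * θ * θ ≤ r * θ * 1 := mul_le_mul_of_nonneg_left (by linarith) h2.le
    linarith
  have hr24 : 24 ≤ r := by
    have h3 : r * θ ≤ r * 1 := mul_le_mul_of_nonneg_left (by linarith) hr0.le
    linarith
  set y : ℝ := r * ((1 - 7 * θ) * (1 - θ)) * l with hy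
  have h78 : 1 - 8 * θ ≤ (1 - 7 * θ) * (1 - θ) := by nlinarith
  have hy1 : r * (1 - 8 * θ) * l ≤ y := by
    rw [hy]
    gcongr
  have hy2 : 12 ≤ y := by
    have h1 : r * (1 / 2) * 1 ≤ r * (1 - 8 * θ) * l := by
      refine mul_le_mul ?_ hl zero_le_one (mul_nonneg hr0.le (by linarith))
      exact mul_le_mul_of_nonneg_left (by linarith) hr0.le
    linarith
  refine ⟨⌊y - 1⌋₊, ?_, ?_, ?_⟩
  · intro u hu
    have hfl : ((⌊y - 1⌋₊ + 1 : ℕ) : ℝ) ≤ y := by
      push_cast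
      have := Nat.floor_le (show 0 ≤ y - 1 by linarith)
      linarith
    have hu0 : 0 ≤ u := by
      have : 0 ≤ (1 - 7 * θ) * l := mul_nonneg (by linarith) (by linarith)
      linarith
    have h1 := one_sub_cut_le (r := r) (u := u) (δ := θ / 2) (J := ⌊y - 1⌋₊ + 1)
      (mul_nonneg hr0.le hu0) (by positivity) (by linarith)
      (by
        refine hfl.trans ?_
        have h2 : r * ((1 - 7 * θ) * l) ≤ r * u := mul_le_mul_of_nonneg_left hu hr0.le
        have h3 := mul_le_mul_of_nonneg_right h2 (show 0 ≤ 1 - θ by linarith)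
        calc y = r * ((1 - 7 * θ) * l) * (1 - θ) := by rw [hy]; ring
          _ ≤ r * u * (1 - θ) := h3
          _ = r * u * (1 - 2 * (θ / 2)) := by ring)
    refine h1.trans (Real.exp_le_exp.2 ?_)
    have h4 : l / 2 ≤ u := by
      have : 1 / 2 * l ≤ (1 - 7 * θ) * l := mul_le_mul_of_nonneg_right (by linarith) (by linarith)
      linarith
    have h5 : r * (l / 2) * (θ / 2) ^ 2 ≤ r * u * (θ / 2) ^ 2 := by gcongr
    have h6 : r * (l / 2) * (θ / 2) ^ 2 = 3 * l := by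
      have : r * (l / 2) * (θ / 2) ^ 2 = r * θ ^ 2 * l / 8 := by ring
      rw [this, hrθ2]
      ring
    linarith
  · have hfl : y - 2 ≤ ((⌊y - 1⌋₊ : ℕ) : ℝ) := by
      have := Nat.lt_floor_add_one (y - 1)
      linarith
    have h1 : r / (r + 1) ≤ Real.exp (-(1 / (r + 1))) := by
      have h2 : r / (r + 1) = -(1 / (r + 1)) + 1 := by field_simp; ring
      rw [h2]
      exact Real.add_one_le_exp _
    rw [← Real.exp_add]
    calc (r / (r + 1)) ^ ⌊y - 1⌋₊ ≤ Real.exp (-(1 / (r + 1))) ^ ⌊y - 1⌋₊ :=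
          pow_le_pow_left₀ (by positivity) h1 _
      _ = Real.exp ((⌊y - 1⌋₊ : ℕ) * -(1 / (r + 1))) := (Real.exp_nat_mul _ _).symm
      _ ≤ Real.exp (1 + -((1 - 9 * θ) * l)) := by
          apply Real.exp_le_exp.2
          have h3 : (1 - 9 * θ) * l - 1 ≤ ((⌊y - 1⌋₊ : ℕ) : ℝ) * (1 / (r + 1)) := by
            rw [mul_one_div, le_div_iff₀ (by positivity)]
            have h4 : (1 - 9 * θ) * (r + 1) ≤ r * (1 - 8 * θ) := by
              have : (1 - 9 * θ) * (r + 1) = r * (1 - 8 * θ) - r * θ + 1 - 9 * θ := by ring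
              linarith
            have h5 := mul_le_mul_of_nonneg_right h4 (show 0 ≤ l by linarith)
            have h6 : ((1 - 9 * θ) * l - 1) * (r + 1) = (1 - 9 * θ) * (r + 1) * l - (r + 1) := by
              ring
            linarith
          linarith
  · have hfl : y - 2 ≤ ((⌊y - 1⌋₊ : ℕ) : ℝ) := by
      have := Nat.lt_floor_add_one (y - 1)
      linarith
    have h1 : r / (Real.exp 1 * r) = Real.exp (-1) := by
      rw [Real.exp_neg]
      field_simp
    rw [h1, ← Real.exp_nat_mul, ← Real.exp_add]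
    apply Real.exp_le_exp.2
    have h2 : 4 * l ≤ r * (1 - 8 * θ) * l := by
      apply mul_le_mul_of_nonneg_right _ (by linarith)
      have : r * (1 / 2) ≤ r * (1 - 8 * θ) := mul_le_mul_of_nonneg_left (by linarith) hr0.le
      linarith
    linarith

/-- the free parameter version -/
theorem visC {ε A B : ℝ} (hε : 0 < ε) (hε1 : ε ≤ 1 / 4) (hA : 0 < A) (hB : 1 ≤ B)
    (hbd : RB A B) :
    ∃ C : ℝ, 1 ≤ C ∧ ∀ (ρ : ℂ) (d N : ℝ), riemannZeta ρ = 0 → 0 < d → d ≤ 1 / 2 - ε →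
      1 - d ≤ ρ.re → C ≤ ρ.im → 1 ≤ N → C * (√d * Real.log ρ.im) ≤ Real.log N →
      C * Real.log (Real.log (ρ.im + N)) ≤ d * Real.log N →
      N ^ (ρ.re - ε) ≤ PM ⌊N⌋₊ ρ.im C := by
  set θ : ℝ := ε / 56 with hθ
  have hθ0 : 0 < θ := by positivity
  have hθ8 : θ ≤ 1 / 16 := by rw [hθ]; linarith
  set K : ℝ := 4 / θ ^ 2 with hK
  have hKθ : K * θ ^ 2 = 4 := by rw [hK]; field_simp
  have hK0 : 0 < K := by positivity
  set η : ℝ := ε / (2 * (K + 1)) with hη
  have hη0 : 0 < η := by positivity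
  have hηK : η * (K + 1) = ε / 2 := by rw [hη]; field_simp
  have hη1 : η ≤ 1 := by
    rw [hη, div_le_one (by positivity)]
    linarith
  set r : ℝ := 24 / θ ^ 2 with hr
  have hr0 : 0 < r := by positivity
  set W : ℝ := Real.exp 1 * r with hW
  have hW0 : 0 < W := by positivity
  obtain ⟨c, C0, hc, hC0, hseen⟩ := seenK hθ0 (by linarith) hη0 hη1 hKθ.ge
  obtain ⟨C1, hC1, hunc⟩ := uncrK (K := 3 * (K + 1)) (ε := ε / 2) (by positivity) (by positivity)
    (by linarith) hc hA hB hbd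
  set D : ℝ := (K + 1) * r * 3 + (K + 1) * r * (Real.exp 2 * Real.pi) + 3 * K with hD
  have hpi := Real.pi_pos
  have hD0 : 0 < D := by positivity
  obtain ⟨Y0, hY0, hY⟩ := Pool.Agent.H76.PS.log_dom 1 (Real.log D) (ε / 4) (by positivity)
  have hE3 := Real.exp_pos 3
  refine ⟨2 * C0 + C1 + Y0 + Real.exp 3 + (W + K), by linarith, ?_⟩
  set C : ℝ := 2 * C0 + C1 + Y0 + Real.exp 3 + (W + K) with hC
  intro ρ d N hρ hd0 hd1 hdβ him hN1 hlog hloglog
  set γ : ℝ := ρ.im with hγ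
  set l : ℝ := Real.log N with hl
  set β : ℝ := ρ.re with hβ
  have hCpos : 0 < C := by linarith
  have hγ3 : Real.exp 3 ≤ γ := by linarith
  have hγ0 : 0 < γ := by linarith
  have hN0 : 0 < N := by linarith
  have hlγ : 3 ≤ Real.log γ := by
    rw [Real.le_log_iff_exp_le hγ0]; exact hγ3
  have hlγ0 : 0 < Real.log γ := by linarith
  have hl0 : 0 ≤ l := Real.log_nonneg hN1
  have hW3 : 3 ≤ Real.log (γ + N) := hlγ.trans (Real.log_le_log hγ0 (by linarith))
  have hll1 : 1 ≤ Real.log (Real.log (γ + N)) := by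
    rw [Real.le_log_iff_exp_le (by linarith)]
    have := Real.exp_one_lt_d9
    linarith
  have hbig : ∀ C' : ℝ, 0 ≤ C' → C' ≤ C → C' * Real.log (Real.log (γ + N)) ≤ d * l := by
    intro C' _ h1
    exact (mul_le_mul_of_nonneg_right h1 (by linarith)).trans hloglog
  have hCl : C ≤ l := by
    have h1 : C * 1 ≤ C * Real.log (Real.log (γ + N)) := mul_le_mul_of_nonneg_left hll1 hCpos.le
    have h2 : d * l ≤ 1 * l := mul_le_mul_of_nonneg_right (by linarith) hl0
    linarith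
  have hLY : Y0 ≤ l := by linarith
  have hl1 : 1 ≤ l := by linarith
  have hlpos : 0 < l := by linarith
  have hsq : 0 ≤ √d * Real.log γ := by positivity
  have hre1 : β < 1 := re_lt_one hρ
  have hu := hunc ρ d N hρ hd0 (by linarith) hdβ
    (by
      have : 2 * (ε / 2) * d ≤ 2 * (ε / 2) * (1 / 2) :=
        mul_le_mul_of_nonneg_left (by linarith) (by positivity)
      linarith) (by linarith) hN1
    ((mul_le_mul_of_nonneg_right (by linarith) hsq).trans hlog)
    (hbig C1 (by linarith) (by linarith))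
  have e0 : 1 - (1 - d) = d := by ring
  have e1 : 3 * (K * (1 - (1 - d)) + 1 - (1 - d)) = 3 * (K + 1) * d := by ring
  have e2 : β - η * (K * (1 - (1 - d)) + 1 - (1 - d)) = β - ε / 2 * d := by
    rw [← hηK]; ring
  obtain ⟨k, hk1, hk2, hF⟩ := hseen (1 - d) N (Real.log (γ + N)) ρ (by linarith)
    (by
      have e3 : K * (1 - (1 - d)) + 1 - (1 - d) = (K + 1) * d := by ring
      have h1 : (1 + η) ^ 2 ≤ 1 + 3 * η := by nlinarith
      rw [e3]
      calc (1 + η) ^ 2 * ((K + 1) * d) ≤ (1 + 3 * η) * ((K + 1) * d) :=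
            mul_le_mul_of_nonneg_right h1 (by positivity)
        _ = (K + 1) * d + 3 * (η * (K + 1)) * d := by ring
        _ = (K + 1) * d + 3 * (ε / 2) * d := by rw [hηK]
        _ ≤ K * (1 - (1 - d)) + 1 / 2 := by
            have : 3 * (ε / 2) * d ≤ 3 * (ε / 2) * (1 / 2) :=
              mul_le_mul_of_nonneg_left (by linarith) (by positivity)
            rw [e0]
            linarith)
    hρ hdβ (by rw [abs_of_pos hγ0]; linarith) hN1 (by rw [abs_of_pos hγ0])
    (by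
      rw [e0]
      have h1 := hbig (2 * C0) (by linarith) (by linarith)
      have h2 : C0 * 1 ≤ C0 * Real.log (Real.log (γ + N)) :=
        mul_le_mul_of_nonneg_left hll1 (by linarith)
      linarith)
    (by rw [e1, e2, e0]; exact hu)
  rw [e0] at hk1 hk2 hF
  rw [← hl] at hk1 hk2
  set a : ℝ := K * d with ha
  have ha0 : 0 < a := by positivity
  have haK : a ≤ K := by
    rw [ha]
    exact mul_le_of_le_one_right hK0.le (by linarith)
  by_contra hcon
  push Not at hcon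
  -- split
  obtain ⟨n, hcut, hnear, hfar⟩ := cut_size hθ0 hθ8 hr hl1
  rw [← hW] at hfar
  set A0 : ℕ := ⌈N ^ (1 - 7 * θ)⌉₊ with hA0
  have hN7 : 0 < N ^ (1 - 7 * θ) := Real.rpow_pos_of_pos hN0 _
  have hA0N : N ^ (1 - 7 * θ) ≤ A0 := Nat.le_ceil _
  have hA01 : 1 ≤ A0 := by
    rw [hA0, Nat.one_le_ceil_iff]
    exact hN7
  have low := hF (Finset.Icc 1 ⌊N⌋₊) (psw r (n + 1) A0) (psw_bd hr0 (n + 1) A0) (by
    intro m h1 h2
    have h3 : A0 ≤ m := Nat.ceil_le.2 h1
    refine ⟨?_, ?_⟩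
    · rw [Finset.mem_Icc]
      exact ⟨by omega, Nat.le_floor h2⟩
    · unfold psw
      rw [if_pos h3])
  rw [split3] at low
  have hker := kerD (r := r) (a := a) (W := W) (γ := γ) (k := k) (N := ⌊N⌋₊)
    (n := n) hr0 ha0 hW0
  have hPM : PM ⌊N⌋₊ γ (W + a) ≤ N ^ (β - ε) :=
    (PM_mono (by linarith) (by linarith)).trans hcon.le
  have hPM0 : 0 ≤ PM ⌊N⌋₊ γ (W + a) := PM_nonneg (by linarith)
  have hnp := nonprime_le ha0 k A0 hN1 hA01 γ
  have hlost := lost_le (q := Real.exp (-(3 * l))) ha0 k A0 (n + 1) hN1 hr0 γ (by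
    intro m hm
    apply hcut
    have h1 : (A0 : ℝ) ≤ m := by exact_mod_cast hm
    have h2 := Real.log_le_log hN7 (hA0N.trans h1)
    rwa [Real.log_rpow hN0] at h2)
  rw [← hl] at hnp hlost
  have hexp : ∀ x : ℝ, Real.exp (x * l) = N ^ x := by
    intro x
    rw [Real.rpow_def_of_pos hN0, mul_comm]
  rw [← neg_mul, hexp] at hnear hfar
  rw [show -(3 * l) = (-3) * l by ring, hexp] at hlost
  set Z : ℝ := N ^ (-(1 - β) - θ - ε / 2) with hZ
  have hZ0 : 0 < Z := Real.rpow_pos_of_pos hN0 _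
  have hk10 : (0 : ℝ) < (k : ℝ) + 1 := by positivity
  have hkl : (k : ℝ) + 1 ≤ (K + 1) * l := by
    have : a * l ≤ K * l := mul_le_mul_of_nonneg_right haK hl0
    linarith
  have hpe : Real.exp 1 ≤ 3 := by
    have := Real.exp_one_lt_d9
    linarith
  have hMN : ((⌊N⌋₊ : ℕ) : ℝ) ≤ N := Nat.floor_le hN0.le
  have hβd : 1 - β ≤ d := by linarith
  -- first term
  have t1 : ((k : ℝ) + 1) * (r * (r / (r + 1)) ^ n * PM ⌊N⌋₊ γ (W + a) +
      r * (r / W) ^ n * (⌊N⌋₊ : ℕ) * Real.pi) ≤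
      ((K + 1) * r * 3 + (K + 1) * r * (Real.exp 2 * Real.pi)) * l * Z := by
    have h1 : N ^ (-(1 - 9 * θ)) * N ^ (β - ε) ≤ Z := by
      rw [← Real.rpow_add hN0]
      apply Real.rpow_le_rpow_of_exponent_le hN1
      linarith
    have h2 : N ^ (-4 : ℝ) * N ≤ Z := by
      nth_rw 2 [← Real.rpow_one N]
      rw [← Real.rpow_add hN0]
      apply Real.rpow_le_rpow_of_exponent_le hN1
      linarith
    calc ((k : ℝ) + 1) * (r * (r / (r + 1)) ^ n * PM ⌊N⌋₊ γ (W + a) +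
          r * (r / W) ^ n * (⌊N⌋₊ : ℕ) * Real.pi)
        ≤ ((k : ℝ) + 1) * (r * (Real.exp 1 * N ^ (-(1 - 9 * θ))) * N ^ (β - ε) +
          r * (Real.exp 2 * N ^ (-4 : ℝ)) * N * Real.pi) := by
          gcongr
      _ = ((k : ℝ) + 1) * (r * (Real.exp 1 * (N ^ (-(1 - 9 * θ)) * N ^ (β - ε)) +
          (Real.exp 2 * Real.pi) * (N ^ (-4 : ℝ) * N))) := by ring
      _ ≤ ((K + 1) * l) * (r * (3 * Z + (Real.exp 2 * Real.pi) * Z)) := by gcongr
      _ = _ := by ring
  have t2 : a * (2 * l) * (N ^ (1 / 2 : ℝ) * (A0 : ℝ)⁻¹) ≤ 2 * K * l * Z := by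
    have h1 : (A0 : ℝ)⁻¹ ≤ N ^ (-(1 - 7 * θ)) := by
      rw [Real.rpow_neg hN0.le]
      exact inv_anti₀ hN7 hA0N
    have h2 : N ^ (1 / 2 : ℝ) * N ^ (-(1 - 7 * θ)) ≤ Z := by
      rw [← Real.rpow_add hN0]
      apply Real.rpow_le_rpow_of_exponent_le hN1
      linarith
    calc a * (2 * l) * (N ^ (1 / 2 : ℝ) * (A0 : ℝ)⁻¹)
        ≤ K * (2 * l) * (N ^ (1 / 2 : ℝ) * N ^ (-(1 - 7 * θ))) := by gcongr
      _ ≤ K * (2 * l) * Z := by gcongr
      _ = _ := by ring
  have t3 : a * l * (N * N ^ (-3 : ℝ)) ≤ K * l * Z := by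
    have h2 : N * N ^ (-3 : ℝ) ≤ Z := by
      nth_rw 1 [← Real.rpow_one N]
      rw [← Real.rpow_add hN0]
      apply Real.rpow_le_rpow_of_exponent_le hN1
      linarith
    gcongr
  -- together
  have hak : 0 < a ^ (k + 1) := by positivity
  have hsum : N ^ (-(1 - β) - θ * d) ≤ D * l * Z := by
    refine low.trans ?_
    refine (mul_le_mul_of_nonneg_left (norm_add_le _ _) hak.le).trans ?_
    rw [mul_add]
    refine (add_le_add_left (mul_le_mul_of_nonneg_left (norm_add_le _ _) hak.le) _).trans ?_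
    rw [mul_add]
    calc _ ≤ ((K + 1) * r * 3 + (K + 1) * r * (Real.exp 2 * Real.pi)) * l * Z +
          2 * K * l * Z + K * l * Z :=
          add_le_add (add_le_add (hker.trans t1) (hnp.trans t2)) (hlost.trans t3)
      _ = D * l * Z := by rw [hD]; ring
  -- the contradiction
  have hDl : D * l ≤ N ^ (ε / 4) := by
    have h1 := hY l hLY
    have h2 : Real.log (D * l) ≤ ε / 4 * l := by
      rw [Real.log_mul hD0.ne' hlpos.ne']
      linarith
    calc D * l = Real.exp (Real.log (D * l)) := (Real.exp_log (by positivity)).symm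
      _ ≤ Real.exp (ε / 4 * l) := Real.exp_le_exp.2 h2
      _ = _ := hexp _
  have h1 : N ^ (-(1 - β) - θ) ≤ N ^ (ε / 4) * Z := by
    calc N ^ (-(1 - β) - θ) ≤ N ^ (-(1 - β) - θ * d) := by
          apply Real.rpow_le_rpow_of_exponent_le hN1
          have : θ * d ≤ θ * 1 := mul_le_mul_of_nonneg_left (by linarith) hθ0.le
          linarith
      _ ≤ D * l * Z := hsum
      _ ≤ N ^ (ε / 4) * Z := mul_le_mul_of_nonneg_right hDl hZ0.le
  rw [hZ, ← Real.rpow_add hN0] at h1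
  have hNgt : (1 : ℝ) < N := by
    by_contra h
    push Not at h
    have : l ≤ 0 := Real.log_nonpos hN0.le h
    linarith
  rw [Real.rpow_le_rpow_left_iff hNgt] at h1
  linarith

/-- visibility for every cutoff, within a bounded distance of the zero -/
theorem visN {ε A B : ℝ} (hε : 0 < ε) (hε1 : ε ≤ 1 / 4) (hA : 0 < A) (hB : 1 ≤ B)
    (hbd : RB A B) :
    ∃ C : ℝ, 1 ≤ C ∧ ∀ (ρ : ℂ) (N : ℝ), riemannZeta ρ = 0 → 1 / 2 + ε ≤ ρ.re → C ≤ ρ.im →
      1 ≤ N → C * (√(1 - ρ.re) * Real.log ρ.im) ≤ Real.log N →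
      C * (Real.log ρ.im ^ 2 * Real.log (Real.log ρ.im)) ≤ Real.log N ^ 3 →
      N ^ (ρ.re - ε) ≤ PM ⌊N⌋₊ ρ.im C := by
  obtain ⟨C1, hC1, hvis⟩ := visC hε hε1 hA hB hbd
  obtain ⟨C2, hC2, hsc⟩ := scale_d hε1 hC1
  refine ⟨C1 + C2, by linarith, ?_⟩
  intro ρ N hρ hre him hN hlog hcub
  have hre1 : ρ.re < 1 := re_lt_one hρ
  have h1 : 1 ≤ ρ.im := by linarith
  have hl : 0 ≤ Real.log ρ.im := Real.log_nonneg h1
  have hC20 : 0 ≤ C1 := by linarith
  have hlog2 : C2 * (√(1 - ρ.re) * Real.log ρ.im) ≤ Real.log N :=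
    (mul_le_mul_of_nonneg_right (by linarith)
      (mul_nonneg (Real.sqrt_nonneg _) hl)).trans hlog
  have hcub2 : C2 * (Real.log ρ.im ^ 2 * Real.log (Real.log ρ.im)) ≤ Real.log N ^ 3 := by
    rcases le_total 0 (Real.log ρ.im ^ 2 * Real.log (Real.log ρ.im)) with h | h
    · exact (mul_le_mul_of_nonneg_right (by linarith) h).trans hcub
    · exact (mul_nonpos_of_nonneg_of_nonpos (by linarith) h).trans
        (pow_nonneg (Real.log_nonneg hN) 3)
  obtain ⟨d, h2, h3, h4, h5, h6⟩ := hsc ρ.re ρ.im N hre hre1 (by linarith) hN hlog2 hcub2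
  exact (hvis ρ d N hρ h2 h3 (by linarith) (by linarith) hN h5 h6).trans
    (PM_mono (by linarith) hC20)

end Pool.Agent.H48.VP
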