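import Mathlib
import Pool.Agent.H76.PS.Crit
import Pool.Agent.H48.VP.VisC
import Pool.Agent.H48.VP.PerronC

/-!
# Crit1: a zero-free half-plane from one unit mean of prime sums per height
-/

set_option autoImplicit false

open Complex

namespace Pool.Agent.H48.VP

open Pool.Agent.H76.CR Pool.Agent.H52.Unc

theorem P_diff_le {M M' : ℕ} (h : M' ≤ M) (t : ℝ) : ‖P M t - P M' t‖ ≤ (M : ℝ) - M' := by
  have hsub : (Finset.Icc 1 M').filter Nat.Prime ⊆ (Finset.Icc 1 M).filter Nat.Prime := by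
    intro p hp
    rw [Finset.mem_filter, Finset.mem_Icc] at hp ⊢
    exact ⟨⟨hp.1.1, hp.1.2.trans h⟩, hp.2⟩
  unfold P
  rw [← Finset.sum_sdiff hsub, add_sub_cancel_right]
  set T : Finset ℕ := (Finset.Icc 1 M).filter Nat.Prime \ (Finset.Icc 1 M').filter Nat.Prime
    with hT
  have hTI : T ⊆ Finset.Ioc M' M := by
    intro p hp
    rw [hT, Finset.mem_sdiff, Finset.mem_filter, Finset.mem_filter, Finset.mem_Icc,
      Finset.mem_Icc] at hp
    obtain ⟨⟨⟨p1, p2⟩, p3⟩, p4⟩ := hp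
    rw [Finset.mem_Ioc]
    refine ⟨?_, p2⟩
    by_contra hcon
    exact p4 ⟨⟨p1, by omega⟩, p3⟩
  calc ‖∑ p ∈ T, (p : ℂ) ^ (-((t : ℂ) * I))‖ ≤ ∑ p ∈ T, (1 : ℝ) := by
        refine norm_sum_le_of_le _ fun p hp => ?_
        have hp1 := Finset.mem_Ioc.1 (hTI hp)
        rw [pw_norm (by omega)]
    _ = (T.card : ℝ) := by simp
    _ ≤ ((Finset.Ioc M' M).card : ℝ) := by exact_mod_cast Finset.card_le_card hTI
    _ = (M : ℝ) - M' := by rw [Nat.card_Ioc, Nat.cast_sub h]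

theorem P_diff (M M' : ℕ) (t : ℝ) : ‖P M t‖ ≤ ‖P M' t‖ + |(M : ℝ) - M'| := by
  have h1 : ‖P M t - P M' t‖ ≤ |(M : ℝ) - M'| := by
    rcases le_total M' M with h | h
    · have : (M' : ℝ) ≤ M := by exact_mod_cast h
      rw [abs_of_nonneg (by linarith)]
      exact P_diff_le h t
    · have : (M : ℝ) ≤ M' := by exact_mod_cast h
      rw [abs_of_nonpos (by linarith), norm_sub_rev]
      have := P_diff_le h t
      linarith
  have h2 : P M t = P M' t + (P M t - P M' t) := by ring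
  calc ‖P M t‖ = ‖P M' t + (P M t - P M' t)‖ := by rw [← h2]
    _ ≤ ‖P M' t‖ + ‖P M t - P M' t‖ := norm_add_le _ _
    _ ≤ _ := by linarith

theorem floor_diff {a b : ℝ} (ha : 0 ≤ a) (hb : 0 ≤ b) :
    |((⌊a⌋₊ : ℕ) : ℝ) - (⌊b⌋₊ : ℕ)| ≤ |a - b| + 1 := by
  have h1 := Nat.floor_le ha
  have h2 := Nat.lt_floor_add_one a
  have h3 := Nat.floor_le hb
  have h4 := Nat.lt_floor_add_one b
  have h5 := le_abs_self (a - b)
  have h6 := neg_abs_le (a - b)
  rw [abs_le]
  constructor <;> linarith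

theorem rpow_close {x γ t : ℝ} (hx : 0 < x) (hγ : 0 < γ) (ht : |t - γ| ≤ γ / 2) :
    |t ^ x - γ ^ x| ≤ 2 * x * Real.exp x * (γ ^ x * (|t - γ| / γ)) := by
  have ht1 := (abs_le.1 ht).1
  have ht0 : γ / 2 ≤ t := by linarith
  have htp : 0 < t := by linarith
  set u : ℝ := t / γ with hu
  have hu0 : 0 < u := by positivity
  have hu2 : 1 / 2 ≤ u := by
    rw [hu, le_div_iff₀ hγ]; linarith
  have htu : t = γ * u := by rw [hu]; field_simp
  have hu1 : |t - γ| / γ = |u - 1| := by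
    rw [htu]
    have : γ * u - γ = γ * (u - 1) := by ring
    rw [this, abs_mul, abs_of_pos hγ]
    field_simp
  have hu3 : |u - 1| ≤ 1 / 2 := by
    rw [← hu1, div_le_iff₀ hγ]; linarith
  -- the logarithm
  have l1 : Real.log u ≤ u - 1 := Real.log_le_sub_one_of_pos hu0
  have l2 : 1 - u⁻¹ ≤ Real.log u := Real.one_sub_inv_le_log_of_pos hu0
  have l3 : |Real.log u| ≤ 2 * |u - 1| := by
    rw [abs_le]
    constructor
    · have h1 : -(2 * |u - 1|) ≤ 1 - u⁻¹ := by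
        have h2 : 1 - u⁻¹ = (u - 1) * u⁻¹ := by
          field_simp
        have h3 : u⁻¹ ≤ 2 := by
          rw [inv_le_comm₀ hu0 (by norm_num)]
          linarith
        have h4 : |(u - 1) * u⁻¹| ≤ |u - 1| * 2 := by
          rw [abs_mul, abs_of_pos (inv_pos.2 hu0)]
          exact mul_le_mul_of_nonneg_left h3 (abs_nonneg _)
        rw [h2]
        have := (abs_le.1 h4).1
        linarith
      linarith
    · have := le_abs_self (u - 1)
      have := abs_nonneg (u - 1)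
      linarith
  set v : ℝ := x * Real.log u with hv
  have hv1 : |v| ≤ 2 * x * |u - 1| := by
    rw [hv, abs_mul, abs_of_pos hx]
    have := mul_le_mul_of_nonneg_left l3 hx.le
    linarith
  have hv2 : |v| ≤ x := by
    have := mul_le_mul_of_nonneg_left hu3 hx.le
    linarith
  have hexp : |Real.exp v - 1| ≤ |v| * Real.exp x := by
    have hex : 1 ≤ Real.exp x := Real.one_le_exp hx.le
    rcases le_total 0 v with h0 | h0
    · have e1 : 1 ≤ Real.exp v := Real.one_le_exp h0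
      have e2 : -v + 1 ≤ Real.exp (-v) := Real.add_one_le_exp _
      have e3 : Real.exp v * Real.exp (-v) = 1 := by
        rw [← Real.exp_add, add_neg_cancel, Real.exp_zero]
      have e4 : Real.exp v ≤ Real.exp x := Real.exp_le_exp.2 ((le_abs_self v).trans hv2)
      have e5 : Real.exp v * (-v + 1) ≤ Real.exp v * Real.exp (-v) :=
        mul_le_mul_of_nonneg_left e2 (Real.exp_pos v).le
      rw [e3] at e5
      have e6 : v * Real.exp v ≤ v * Real.exp x := mul_le_mul_of_nonneg_left e4 h0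
      rw [abs_of_nonneg (by linarith), abs_of_nonneg h0]
      linarith
    · have e1 : Real.exp v ≤ 1 := Real.exp_le_one_iff.2 h0
      have e2 : v + 1 ≤ Real.exp v := Real.add_one_le_exp _
      rw [abs_of_nonpos (by linarith), abs_of_nonpos h0]
      nlinarith
  have huv : u ^ x = Real.exp v := by
    rw [Real.rpow_def_of_pos hu0, hv, mul_comm]
  have e : t ^ x - γ ^ x = γ ^ x * (Real.exp v - 1) := by
    rw [htu, Real.mul_rpow hγ.le hu0.le, huv]; ring
  have hγx : 0 < γ ^ x := Real.rpow_pos_of_pos hγ _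
  rw [e, abs_mul, abs_of_pos hγx, hu1]
  calc γ ^ x * |Real.exp v - 1| ≤ γ ^ x * (2 * x * |u - 1| * Real.exp x) := by
        apply mul_le_mul_of_nonneg_left _ hγx.le
        exact hexp.trans (mul_le_mul_of_nonneg_right hv1 (Real.exp_pos x).le)
    _ = _ := by ring

/-- a bound for `∫_n^(n+1)` -/
theorem unit_le {M : ℕ} {n c : ℝ} (h : ∀ t ∈ Set.Icc n (n + 1), ‖P M t‖ ≤ c) :
    ∫ t in n..(n + 1), ‖P M t‖ ≤ c := by
  have hc : Continuous fun t : ℝ => ‖P M t‖ := (PN_cont M).norm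
  have h1 := intervalIntegral.integral_mono_on (by linarith) (hc.intervalIntegrable n (n + 1))
    (continuous_const.intervalIntegrable (μ := MeasureTheory.volume) n (n + 1)) h
  rw [intervalIntegral.integral_const] at h1
  simpa using h1

theorem unit_add {M M' : ℕ} {n : ℝ} :
    ∫ t in n..(n + 1), ‖P M t‖ ≤
      (∫ t in n..(n + 1), ‖P M' t‖) + |(M : ℝ) - M'| := by
  have hc : Continuous fun t : ℝ => ‖P M t‖ := (PN_cont M).norm
  have hc' : Continuous fun t : ℝ => ‖P M' t‖ + |(M : ℝ) - M'| :=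
    ((PN_cont M').norm).add continuous_const
  have h1 := intervalIntegral.integral_mono_on (by linarith : n ≤ n + 1)
    (hc.intervalIntegrable n (n + 1))
    (hc'.intervalIntegrable (μ := MeasureTheory.volume) n (n + 1)) (fun t _ => P_diff M M' t)
  rw [intervalIntegral.integral_add (((PN_cont M').norm).intervalIntegrable _ _)
    (continuous_const.intervalIntegrable _ _), intervalIntegral.integral_const] at h1
  simpa using h1

theorem mean_back {A B : ℝ} (hA : 0 < A) (hB : 1 ≤ B) (hbd : RB A B) {x : ℝ} (hx : 0 < x)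
    (h : SavingMean x) : ZeroFree := by
  obtain ⟨δ, n0, hδ, h⟩ := h
  obtain ⟨δ1, hδ1⟩ : ∃ δ1 : ℝ, δ1 = min δ (min 1 x) := ⟨_, rfl⟩
  have a1 : δ1 ≤ δ := by rw [hδ1]; exact min_le_left _ _
  have a2 : δ1 ≤ 1 := by rw [hδ1]; exact (min_le_right _ _).trans (min_le_left _ _)
  have a3 : δ1 ≤ x := by rw [hδ1]; exact (min_le_right _ _).trans (min_le_right _ _)
  have a4 : 0 < δ1 := by rw [hδ1]; exact lt_min hδ (lt_min (by norm_num) hx)
  obtain ⟨ε, hε⟩ : ∃ ε : ℝ, ε = min (δ1 / (4 * x)) (1 / 8) := ⟨_, rfl⟩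
  have hε0 : 0 < ε := by rw [hε]; exact lt_min (by positivity) (by norm_num)
  have hεx : 4 * ε * x ≤ δ1 := by
    have h1 : ε ≤ δ1 / (4 * x) := by rw [hε]; exact min_le_left _ _
    rw [le_div_iff₀ (by positivity)] at h1
    linarith
  have hε8 : ε ≤ 1 / 8 := by rw [hε]; exact min_le_right _ _
  obtain ⟨C, hC, hvis⟩ := visN (ε := ε) hε0 (by linarith) hA hB hbd
  have hC0 : 0 < C := by linarith
  obtain ⟨m, hm⟩ := exists_nat_ge (2 * C + 1)
  have hm0 : (0 : ℝ) ≤ m := Nat.cast_nonneg m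
  obtain ⟨Y0, hY0, hY⟩ := Pool.Agent.H76.PS.log_dom C 0 (x ^ 3) (by positivity)
  have h2x : 0 < (2 : ℝ) ^ x := Real.rpow_pos_of_pos (by norm_num) _
  have hE := Real.exp_pos x
  obtain ⟨R, hR⟩ : ∃ R : ℝ, R = C + m + 1 := ⟨_, rfl⟩
  have hR0 : 0 < R := by linarith
  obtain ⟨K, hK⟩ : ∃ K : ℝ, K = m * (2 ^ x + 2 * x * Real.exp x * R + 1) := ⟨_, rfl⟩
  have hKm : 0 ≤ 2 ^ x + 2 * x * Real.exp x * R := by positivity
  have hK1 : 1 ≤ K := by
    have h1 : (1 : ℝ) ≤ m := by linarith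
    rw [hK]
    nlinarith
  obtain ⟨κ, hκ⟩ : ∃ κ : ℝ, κ = min ε ((x / C) ^ 2) := ⟨_, rfl⟩
  have hκ0 : 0 < κ := by rw [hκ]; exact lt_min hε0 (by positivity)
  have hκε : κ ≤ ε := by rw [hκ]; exact min_le_left _ _
  have hκx : κ ≤ (x / C) ^ 2 := by rw [hκ]; exact min_le_right _ _
  obtain ⟨Λ, hΛ⟩ : ∃ Λ : ℝ, Λ = Y0 + (Real.log K + 1) / (δ1 / 2) := ⟨_, rfl⟩
  have hlK : 0 ≤ Real.log K := Real.log_nonneg hK1
  have hΛ2 : 0 < (Real.log K + 1) / (δ1 / 2) := by positivity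
  have key : ∀ ρ : ℂ, riemannZeta ρ = 0 → 1 - κ ≤ ρ.re →
      ρ.im ≤ max (max C (n0 + R)) (max (Real.exp Λ) (2 * R)) := by
    intro ρ hρ hre
    by_contra hcon
    rw [not_le] at hcon
    obtain ⟨γ, hγ⟩ : ∃ γ : ℝ, γ = ρ.im := ⟨_, rfl⟩
    obtain ⟨β, hβ⟩ : ∃ β : ℝ, β = ρ.re := ⟨_, rfl⟩
    rw [← hγ] at hcon
    rw [← hβ] at hre
    have b1 : C < γ := lt_of_le_of_lt ((le_max_left _ _).trans (le_max_left _ _)) hcon
    have b2 : n0 + R < γ := lt_of_le_of_lt ((le_max_right _ _).trans (le_max_left _ _)) hcon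
    have b3 : Real.exp Λ < γ :=
      lt_of_le_of_lt ((le_max_left _ _).trans (le_max_right _ _)) hcon
    have b4 : 2 * R < γ := lt_of_le_of_lt ((le_max_right _ _).trans (le_max_right _ _)) hcon
    have hγ0 : 0 < γ := by linarith
    have hγ1 : 1 ≤ γ := by linarith
    have hlγ : Λ ≤ Real.log γ := by
      rw [Real.le_log_iff_exp_le hγ0]; exact b3.le
    have hlγ1 : 1 ≤ Real.log γ := by linarith
    have hre1 : β < 1 := by rw [hβ]; exact re_lt_one hρ
    have hγx1 : 1 ≤ γ ^ x := Real.one_le_rpow hγ1 hx.le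
    have hγx0 : 0 < γ ^ x := by linarith
    have hlN : Real.log (γ ^ x) = x * Real.log γ := Real.log_rpow hγ0 x
    have hs : C * (√(1 - β) * Real.log γ) ≤ Real.log (γ ^ x) := by
      rw [hlN]
      have h1 : √(1 - β) ≤ x / C := by
        rw [Real.sqrt_le_left (by positivity)]
        linarith
      calc C * (√(1 - β) * Real.log γ) ≤ C * (x / C * Real.log γ) := by gcongr
        _ = x * Real.log γ := by field_simp
    have hcub : C * (Real.log γ ^ 2 * Real.log (Real.log γ)) ≤ Real.log (γ ^ x) ^ 3 := by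
      have h1 := hY (Real.log γ) (by linarith)
      rw [zero_add] at h1
      rw [hlN]
      calc C * (Real.log γ ^ 2 * Real.log (Real.log γ))
          = (C * Real.log (Real.log γ)) * Real.log γ ^ 2 := by ring
        _ ≤ (x ^ 3 * Real.log γ) * Real.log γ ^ 2 :=
            mul_le_mul_of_nonneg_right h1 (sq_nonneg _)
        _ = (x * Real.log γ) ^ 3 := by ring
    have hP := hvis ρ (γ ^ x) hρ (by rw [← hβ]; linarith) (by rw [← hγ]; exact b1.le) hγx1
      (by rw [← hβ, ← hγ]; exact hs) (by rw [← hγ]; exact hcub)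
    rw [← hβ, ← hγ] at hP
    obtain ⟨Q, hQ⟩ : ∃ Q : ℝ, Q = γ ^ (x - δ1) := ⟨_, rfl⟩
    have hQ1 : 1 ≤ Q := by rw [hQ]; exact Real.one_le_rpow hγ1 (by linarith)
    -- the unit intervals
    have hunit : ∀ n : ℕ, |(n : ℝ) - γ| ≤ R →
        ∫ t in (n : ℝ)..(n + 1), ‖P ⌊γ ^ x⌋₊ t‖ ≤ (2 ^ x + 2 * x * Real.exp x * R + 1) * Q := by
      intro n hn
      have hn1 := (abs_le.1 hn).1
      have hn2 := (abs_le.1 hn).2
      have hnn0 : n0 ≤ n := by
        have : (n0 : ℝ) ≤ n := by linarith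
        exact_mod_cast this
      have hn0 : (0 : ℝ) ≤ n := Nat.cast_nonneg n
      have c1 := unit_add (M := ⌊γ ^ x⌋₊) (M' := ⌊(n : ℝ) ^ x⌋₊) (n := (n : ℝ))
      have c2 := floor_diff hγx0.le (Real.rpow_nonneg hn0 x)
      rw [abs_sub_comm (γ ^ x)] at c2
      have c3 := rpow_close hx hγ0 (t := (n : ℝ)) (by linarith)
      have c4 : γ ^ x * (|(n : ℝ) - γ| / γ) ≤ R * Q := by
        calc γ ^ x * (|(n : ℝ) - γ| / γ) ≤ γ ^ x * (R / γ) := by gcongr
          _ = R * γ ^ (x - 1) := by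
              rw [Real.rpow_sub hγ0, Real.rpow_one]
              ring
          _ ≤ R * Q := by
              apply mul_le_mul_of_nonneg_left _ hR0.le
              rw [hQ]
              exact Real.rpow_le_rpow_of_exponent_le hγ1 (by linarith)
      have c5 : 2 * x * Real.exp x * (γ ^ x * (|(n : ℝ) - γ| / γ)) ≤
          2 * x * Real.exp x * (R * Q) := mul_le_mul_of_nonneg_left c4 (by positivity)
      have c6 : (n : ℝ) ^ (x - δ) ≤ 2 ^ x * Q := by
        have hn1' : (1 : ℝ) ≤ n := by linarith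
        have hn1p : (0 : ℝ) < n := by linarith
        calc (n : ℝ) ^ (x - δ) ≤ (n : ℝ) ^ (x - δ1) :=
              Real.rpow_le_rpow_of_exponent_le hn1' (by linarith)
          _ ≤ (2 * γ) ^ (x - δ1) := Real.rpow_le_rpow hn0 (by linarith) (by linarith)
          _ = 2 ^ (x - δ1) * Q := by rw [Real.mul_rpow (by norm_num) hγ0.le, hQ]
          _ ≤ 2 ^ x * Q := by
              apply mul_le_mul_of_nonneg_right _ (by linarith)
              exact Real.rpow_le_rpow_of_exponent_le (by norm_num) (by linarith)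
      have c7 := h n hnn0
      calc ∫ t in (n : ℝ)..(n + 1), ‖P ⌊γ ^ x⌋₊ t‖
          ≤ 2 ^ x * Q + (2 * x * Real.exp x * (R * Q) + 1) := by linarith
        _ ≤ 2 ^ x * Q + (2 * x * Real.exp x * (R * Q) + Q) := by linarith
        _ = _ := by ring
    -- sum over the unit intervals
    obtain ⟨n1, hn1⟩ : ∃ n1 : ℕ, n1 = ⌊γ - C⌋₊ := ⟨_, rfl⟩
    have d1 : (n1 : ℝ) ≤ γ - C := by rw [hn1]; exact Nat.floor_le (by linarith)
    have d2 : γ - C < n1 + 1 := by rw [hn1]; exact Nat.lt_floor_add_one _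
    have hcP : Continuous fun t : ℝ => ‖P ⌊γ ^ x⌋₊ t‖ := (PN_cont _).norm
    have d3 : PM ⌊γ ^ x⌋₊ γ C ≤ ∫ t in (n1 : ℝ)..(n1 + m), ‖P ⌊γ ^ x⌋₊ t‖ := by
      unfold PM
      exact intervalIntegral.integral_mono_interval d1 (by linarith) (by linarith)
        (Filter.Eventually.of_forall fun t => norm_nonneg _) (hcP.intervalIntegrable _ _)
    have d4 : ∫ t in (n1 : ℝ)..(n1 + m), ‖P ⌊γ ^ x⌋₊ t‖ =
        ∑ j ∈ Finset.range m, ∫ t in ((n1 + j : ℕ) : ℝ)..(((n1 + j : ℕ) : ℝ) + 1),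
          ‖P ⌊γ ^ x⌋₊ t‖ := by
      have h1 := intervalIntegral.sum_integral_adjacent_intervals
        (μ := MeasureTheory.volume) (f := fun t : ℝ => ‖P ⌊γ ^ x⌋₊ t‖) (n := m)
        (a := fun j : ℕ => (n1 : ℝ) + j)
        (fun j _ => hcP.intervalIntegrable _ _)
      simp only [Nat.cast_zero, add_zero] at h1
      rw [← h1]
      refine Finset.sum_congr rfl fun j _ => ?_
      push_cast
      rw [add_assoc]
    have d5 : ∑ j ∈ Finset.range m, (∫ t in ((n1 + j : ℕ) : ℝ)..(((n1 + j : ℕ) : ℝ) + 1),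
        ‖P ⌊γ ^ x⌋₊ t‖) ≤ ∑ j ∈ Finset.range m, (2 ^ x + 2 * x * Real.exp x * R + 1) * Q := by
      apply Finset.sum_le_sum
      intro j hj
      rw [Finset.mem_range] at hj
      have hjm : (j : ℝ) ≤ m := by exact_mod_cast hj.le
      have hj0 : (0 : ℝ) ≤ j := Nat.cast_nonneg j
      apply hunit
      rw [abs_le]
      push_cast
      constructor <;> linarith
    rw [Finset.sum_const, Finset.card_range, nsmul_eq_mul] at d5
    have d6 : (γ ^ x) ^ (β - ε) ≤ K * Q := by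
      rw [hK]
      linarith
    have c4 : γ ^ (x - δ1 / 2) ≤ (γ ^ x) ^ (β - ε) := by
      rw [← Real.rpow_mul hγ0.le]
      apply Real.rpow_le_rpow_of_exponent_le hγ1
      have : x * (1 - 2 * ε) ≤ x * (β - ε) := mul_le_mul_of_nonneg_left (by linarith) hx.le
      linarith
    have c5 : γ ^ (δ1 / 2) ≤ K := by
      have h1 : γ ^ (x - δ1 / 2) = γ ^ (δ1 / 2) * Q := by
        rw [hQ, ← Real.rpow_add hγ0]
        congr 1
        ring
      have h2 : γ ^ (δ1 / 2) * Q ≤ K * Q := by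
        rw [← h1]
        linarith
      exact le_of_mul_le_mul_right h2 (by linarith)
    have c6 := Real.log_le_log (Real.rpow_pos_of_pos hγ0 _) c5
    rw [Real.log_rpow hγ0] at c6
    have c7 : (Real.log K + 1) / (δ1 / 2) ≤ Real.log γ := by linarith
    rw [div_le_iff₀ (by positivity)] at c7
    linarith
  refine Pool.Agent.H76.PS.cmpct (σ1 := 1 - κ)
    (t1 := max (max C (n0 + R)) (max (Real.exp Λ) (2 * R))) (by linarith) ?_
  intro s hs hre
  rw [abs_le]
  constructor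
  · have h1 := key _ (Pool.Agent.H76.PS.zeta_conj_zero hs) (by rwa [Complex.conj_re])
    rw [Complex.conj_im] at h1
    linarith
  · exact key s hs hre

theorem mean_of_one {x : ℝ} (hx : 0 < x) (h : SavingOne x) : SavingMean x := by
  obtain ⟨δ, t0, hδ, hδ1, hs⟩ := h
  obtain ⟨δ1, hδ1'⟩ : ∃ δ1 : ℝ, δ1 = min (x * δ) (min 1 x) := ⟨_, rfl⟩
  have a1 : δ1 ≤ x * δ := by rw [hδ1']; exact min_le_left _ _
  have a2 : δ1 ≤ 1 := by rw [hδ1']; exact (min_le_right _ _).trans (min_le_left _ _)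
  have a3 : δ1 ≤ x := by rw [hδ1']; exact (min_le_right _ _).trans (min_le_right _ _)
  have a4 : 0 < δ1 := by rw [hδ1']; exact lt_min (by positivity) (lt_min (by norm_num) hx)
  have h2x : 0 < (2 : ℝ) ^ x := Real.rpow_pos_of_pos (by norm_num) _
  have hE := Real.exp_pos x
  obtain ⟨K, hK⟩ : ∃ K : ℝ, K = 2 ^ x + 2 * x * Real.exp x + 1 := ⟨_, rfl⟩
  have hK0 : 0 < K := by rw [hK]; positivity
  refine ⟨δ1 / 2, ⌈max (max t0 2) (K ^ (2 / δ1))⌉₊, by positivity, ?_⟩
  intro n hn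
  have h1 : max (max t0 2) (K ^ (2 / δ1)) ≤ (n : ℝ) :=
    (Nat.le_ceil _).trans (by exact_mod_cast hn)
  have hn0 : t0 ≤ n := ((le_max_left _ _).trans (le_max_left _ _)).trans h1
  have hn2 : (2 : ℝ) ≤ n := ((le_max_right _ _).trans (le_max_left _ _)).trans h1
  have hnK : K ^ (2 / δ1) ≤ n := (le_max_right _ _).trans h1
  have hnp : (0 : ℝ) < n := by linarith
  have hn1 : (1 : ℝ) ≤ n := by linarith
  obtain ⟨Q, hQ⟩ : ∃ Q : ℝ, Q = (n : ℝ) ^ (x - δ1) := ⟨_, rfl⟩
  have hQ1 : 1 ≤ Q := by rw [hQ]; exact Real.one_le_rpow hn1 (by linarith)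
  have hnx0 : 0 < (n : ℝ) ^ x := Real.rpow_pos_of_pos hnp _
  have hmain : ∫ t in (n : ℝ)..(n + 1), ‖P ⌊(n : ℝ) ^ x⌋₊ t‖ ≤ K * Q := by
    apply unit_le
    intro t ht
    have ht1 : (n : ℝ) ≤ t := ht.1
    have ht2 : t ≤ n + 1 := ht.2
    have htp : 0 < t := by linarith
    have htx0 : 0 ≤ t ^ x := Real.rpow_nonneg htp.le x
    have c1 := P_diff ⌊(n : ℝ) ^ x⌋₊ ⌊t ^ x⌋₊ t
    have c2 := floor_diff hnx0.le htx0
    rw [abs_sub_comm ((n : ℝ) ^ x)] at c2
    have habs : |t - n| ≤ 1 := by rw [abs_le]; constructor <;> linarith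
    have c3 := rpow_close hx hnp (t := t) (by linarith)
    have c4 : (n : ℝ) ^ x * (|t - n| / n) ≤ Q := by
      calc (n : ℝ) ^ x * (|t - n| / n) ≤ (n : ℝ) ^ x * (1 / n) := by gcongr
        _ = (n : ℝ) ^ (x - 1) := by
            rw [Real.rpow_sub hnp, Real.rpow_one]
            ring
        _ ≤ Q := by
            rw [hQ]
            exact Real.rpow_le_rpow_of_exponent_le hn1 (by linarith)
    have c5 : 2 * x * Real.exp x * ((n : ℝ) ^ x * (|t - n| / n)) ≤ 2 * x * Real.exp x * Q :=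
      mul_le_mul_of_nonneg_left c4 (by positivity)
    have c6 : ‖P ⌊t ^ x⌋₊ t‖ ≤ 2 ^ x * Q := by
      refine (hs t (by linarith)).trans ?_
      have hq : 0 ≤ x - x * δ := by nlinarith
      calc ((⌊t ^ x⌋₊ : ℕ) : ℝ) ^ (1 - δ) ≤ (t ^ x) ^ (1 - δ) :=
            Real.rpow_le_rpow (Nat.cast_nonneg _) (Nat.floor_le htx0) (by linarith)
        _ = t ^ (x - x * δ) := by
            rw [← Real.rpow_mul htp.le]
            congr 1
            ring
        _ ≤ (2 * n) ^ (x - x * δ) := Real.rpow_le_rpow htp.le (by linarith) hq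
        _ = 2 ^ (x - x * δ) * (n : ℝ) ^ (x - x * δ) := Real.mul_rpow (by norm_num) hnp.le
        _ ≤ 2 ^ x * Q := by
            rw [hQ]
            apply mul_le_mul _ _ (Real.rpow_nonneg hnp.le _) h2x.le
            · exact Real.rpow_le_rpow_of_exponent_le (by norm_num) (by nlinarith)
            · exact Real.rpow_le_rpow_of_exponent_le hn1 (by linarith)
    calc ‖P ⌊(n : ℝ) ^ x⌋₊ t‖ ≤ 2 ^ x * Q + (2 * x * Real.exp x * Q + 1) := by linarith
      _ ≤ 2 ^ x * Q + (2 * x * Real.exp x * Q + Q) := by linarith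
      _ = K * Q := by rw [hK]; ring
  refine hmain.trans ?_
  have d2 : K ≤ (n : ℝ) ^ (δ1 / 2) := by
    calc K = (K ^ (2 / δ1)) ^ (δ1 / 2) := by
          rw [← Real.rpow_mul hK0.le]
          have : 2 / δ1 * (δ1 / 2) = 1 := by field_simp
          rw [this, Real.rpow_one]
      _ ≤ (n : ℝ) ^ (δ1 / 2) := Real.rpow_le_rpow (Real.rpow_nonneg hK0.le _) hnK (by positivity)
  calc K * Q ≤ (n : ℝ) ^ (δ1 / 2) * Q := mul_le_mul_of_nonneg_right d2 (by linarith)
    _ = (n : ℝ) ^ (x - δ1 / 2) := by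
        rw [hQ, ← Real.rpow_add hnp]
        congr 1
        ring

theorem crit1_fwd {x : ℝ} (hx : 0 < x) (h : Saving x) : SavingOne x := by
  obtain ⟨δ, t0, hδ, hδ1, hs⟩ := h
  -- `⌊t^x⌋ ≥ t^x/2 ≥ t^((1-δ)x)` for `t` large
  set T : ℝ := (2 : ℝ) ^ (1 / (δ * x)) with hT
  have hδx : 0 < δ * x := by positivity
  have hT1 : 1 ≤ T := Real.one_le_rpow (by norm_num) (by positivity)
  refine ⟨δ, max t0 T, hδ, hδ1, ?_⟩
  intro t ht
  have ht0 : t0 ≤ t := (le_max_left _ _).trans ht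
  have htT : T ≤ t := (le_max_right _ _).trans ht
  have ht1 : 1 ≤ t := hT1.trans htT
  have htp : 0 < t := by linarith
  have htx1 : 1 ≤ t ^ x := Real.one_le_rpow ht1 hx.le
  have htx0 : 0 < t ^ x := by linarith
  have hN1 : 1 ≤ ⌊t ^ x⌋₊ := Nat.one_le_floor_iff _ |>.2 htx1
  have hN1' : (1 : ℝ) ≤ (⌊t ^ x⌋₊ : ℕ) := by exact_mod_cast hN1
  have hNle : ((⌊t ^ x⌋₊ : ℕ) : ℝ) ≤ t ^ x := Nat.floor_le htx0.le
  have hNge : t ^ x / 2 ≤ (⌊t ^ x⌋₊ : ℕ) := by
    have := Nat.lt_floor_add_one (t ^ x)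
    linarith
  refine hs t ⌊t ^ x⌋₊ ht0 (le_trans ?_ hNge) hNle
  rw [le_div_iff₀ (by norm_num)]
  have h5 : (2 : ℝ) ≤ t ^ (δ * x) := by
    calc (2 : ℝ) = T ^ (δ * x) := by
          rw [hT, ← Real.rpow_mul (by norm_num), one_div, inv_mul_cancel₀ hδx.ne',
            Real.rpow_one]
      _ ≤ t ^ (δ * x) := Real.rpow_le_rpow (by linarith) htT hδx.le
  calc t ^ ((1 - δ) * x) * 2 ≤ t ^ ((1 - δ) * x) * t ^ (δ * x) :=
        mul_le_mul_of_nonneg_left h5 (Real.rpow_nonneg htp.le _)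
    _ = t ^ x := by
        rw [← Real.rpow_add htp]
        congr 1
        ring

end Pool.Agent.H48.VP
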