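import Mathlib
import Pool.Agent.H48.VP.Crit1

/-!
# Crit2: the criterion at the heights `√n`, `n` an integer
-/

set_option autoImplicit false

open Complex

namespace Pool.Agent.H48.VP

open Pool.Agent.H76.CR Pool.Agent.H52.Unc

theorem cpow_diff {p : ℕ} (hp : 1 ≤ p) (t s : ℝ) :
    ‖(p : ℂ) ^ (-(t * I)) - (p : ℂ) ^ (-(s * I))‖ ≤ |t - s| * Real.log p := by
  have hp0 : (p : ℂ) ≠ 0 := by exact_mod_cast (by omega : p ≠ 0)
  have hl : 0 ≤ Real.log p := Real.log_nonneg (by exact_mod_cast hp)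
  have e1 : ∀ v : ℝ, (p : ℂ) ^ (-(v * I)) = Complex.exp (((-(v * Real.log p) : ℝ) : ℂ) * I) := by
    intro v
    rw [Complex.cpow_def_of_ne_zero hp0, ← Complex.natCast_log]
    congr 1
    push_cast
    ring
  have e2 : (p : ℂ) ^ (-(t * I)) - (p : ℂ) ^ (-(s * I)) =
      (p : ℂ) ^ (-(s * I)) *
        (Complex.exp ((((s - t) * Real.log p : ℝ) : ℂ) * I) - 1) := by
    rw [e1, e1, mul_sub, mul_one, ← Complex.exp_add]
    congr 2
    push_cast
    ring
  rw [e2, norm_mul, Complex.norm_natCast_cpow_of_pos (by omega)]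
  have h1 := Real.norm_exp_I_mul_ofReal_sub_one_le (x := (s - t) * Real.log p)
  rw [mul_comm I] at h1
  rw [Real.norm_eq_abs, abs_mul, abs_of_nonneg hl, abs_sub_comm] at h1
  simpa using h1

theorem P_lip (M : ℕ) (t s : ℝ) : ‖P M t‖ ≤ ‖P M s‖ + (M : ℝ) * (|t - s| * Real.log M) := by
  have h1 : ‖P M t - P M s‖ ≤ (M : ℝ) * (|t - s| * Real.log M) := by
    unfold P
    rw [← Finset.sum_sub_distrib]
    calc ‖∑ p ∈ (Finset.Icc 1 M).filter Nat.Prime,
          ((p : ℂ) ^ (-((t : ℂ) * I)) - (p : ℂ) ^ (-((s : ℂ) * I)))‖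
        ≤ ∑ p ∈ (Finset.Icc 1 M).filter Nat.Prime, |t - s| * Real.log M := by
          refine norm_sum_le_of_le _ fun p hp => ?_
          rw [Finset.mem_filter, Finset.mem_Icc] at hp
          refine (cpow_diff hp.1.1 t s).trans ?_
          apply mul_le_mul_of_nonneg_left _ (abs_nonneg _)
          apply Real.log_le_log
          · exact_mod_cast hp.1.1
          · exact_mod_cast hp.1.2
      _ = (((Finset.Icc 1 M).filter Nat.Prime).card : ℝ) * (|t - s| * Real.log M) := by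
          rw [Finset.sum_const, nsmul_eq_mul]
      _ ≤ (M : ℝ) * (|t - s| * Real.log M) := by
          apply mul_le_mul_of_nonneg_right _ (mul_nonneg (abs_nonneg _) (Real.log_natCast_nonneg _))
          have h2 := Finset.card_filter_le (Finset.Icc 1 M) Nat.Prime
          rw [Nat.card_Icc, Nat.add_sub_cancel] at h2
          exact_mod_cast h2
  have h2 : P M t = P M s + (P M t - P M s) := by ring
  calc ‖P M t‖ = ‖P M s + (P M t - P M s)‖ := by rw [← h2]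
    _ ≤ ‖P M s‖ + ‖P M t - P M s‖ := norm_add_le _ _
    _ ≤ _ := by linarith

theorem int_of_one {x : ℝ} (hx : 0 < x) (h : SavingOne (2 * x)) : SavingInt x := by
  obtain ⟨δ, t0, hδ, hδ1, hs⟩ := h
  refine ⟨x * δ, ⌈t0 ^ 2⌉₊, by positivity, ?_⟩
  intro n hn
  have h1 : t0 ^ 2 ≤ (n : ℝ) := (Nat.le_ceil _).trans (by exact_mod_cast hn)
  have h2 : t0 ≤ √n := Real.le_sqrt_of_sq_le h1
  have hn0 : (0 : ℝ) ≤ n := Nat.cast_nonneg n
  have e1 : (√(n : ℝ)) ^ (2 * x) = (n : ℝ) ^ x := by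
    rw [Real.sqrt_eq_rpow, ← Real.rpow_mul hn0]
    congr 1
    ring
  have h3 := hs (√n) h2
  rw [e1] at h3
  refine h3.trans ?_
  rcases Nat.eq_zero_or_pos n with rfl | hn1
  · have e2 : ((0 : ℕ) : ℝ) ^ x = 0 := by rw [Nat.cast_zero, Real.zero_rpow hx.ne']
    rw [e2, Nat.floor_zero, Nat.cast_zero, Real.zero_rpow (by linarith)]
    exact Real.rpow_nonneg le_rfl _
  have hnp : (0 : ℝ) < n := by exact_mod_cast hn1
  calc ((⌊(n : ℝ) ^ x⌋₊ : ℕ) : ℝ) ^ (1 - δ) ≤ ((n : ℝ) ^ x) ^ (1 - δ) :=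
        Real.rpow_le_rpow (Nat.cast_nonneg _) (Nat.floor_le (Real.rpow_nonneg hn0 x)) (by linarith)
    _ = (n : ℝ) ^ (x - x * δ) := by
        rw [← Real.rpow_mul hn0]
        congr 1
        ring

theorem one_of_int {x : ℝ} (hx : 0 < x) (h : SavingInt x) : SavingOne (2 * x) := by
  obtain ⟨δ, n0, hδ, hs⟩ := h
  obtain ⟨δ1, hδ1⟩ : ∃ δ1 : ℝ, δ1 = min δ (min (1 / 4) x) := ⟨_, rfl⟩
  have a1 : δ1 ≤ δ := by rw [hδ1]; exact min_le_left _ _
  have a2 : δ1 ≤ 1 / 4 := by rw [hδ1]; exact (min_le_right _ _).trans (min_le_left _ _)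
  have a3 : δ1 ≤ x := by rw [hδ1]; exact (min_le_right _ _).trans (min_le_right _ _)
  have a4 : 0 < δ1 := by rw [hδ1]; exact lt_min hδ (lt_min (by norm_num) hx)
  set K : ℝ := 2 + 4 * x + 2 * x * Real.exp x with hK
  have hE := Real.exp_pos x
  have hK0 : 2 ≤ K := by
    have : 0 < 2 * x * Real.exp x := by positivity
    linarith
  refine ⟨δ1 / (2 * x), 2 + n0 + (2 * K) ^ (1 / δ1), by positivity, ?_, ?_⟩
  · rw [div_lt_one (by positivity)]
    linarith
  intro t ht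
  have hKp : 0 ≤ (2 * K) ^ (1 / δ1) := Real.rpow_nonneg (by linarith) _
  have hn00 : (0 : ℝ) ≤ n0 := Nat.cast_nonneg _
  have ht2 : 2 ≤ t := by linarith
  have htp : 0 < t := by linarith
  have htn0 : (n0 : ℝ) ≤ t := by linarith
  have htK : (2 * K) ^ (1 / δ1) ≤ t := by linarith
  have htt : t ≤ t ^ 2 := by nlinarith
  have ht4 : 4 ≤ t ^ 2 := by nlinarith
  set n : ℕ := ⌊t ^ 2⌋₊ with hn
  have b1 : (n : ℝ) ≤ t ^ 2 := Nat.floor_le (by positivity)
  have b2 : t ^ 2 < n + 1 := Nat.lt_floor_add_one _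
  have b3 : n0 ≤ n := by
    rw [hn]
    apply Nat.le_floor
    linarith
  have b4 : (3 : ℝ) ≤ n := by linarith
  have hn1 : (1 : ℝ) ≤ n := by linarith
  have hnp : (0 : ℝ) < n := by linarith
  set s : ℝ := √n with hsdef
  have hs0 : 0 < s := Real.sqrt_pos.2 hnp
  have hs2 : s ^ 2 = n := Real.sq_sqrt hnp.le
  have hst : s ≤ t := by
    rw [hsdef, Real.sqrt_le_left htp.le]
    exact b1
  have hts : |t - s| ≤ 1 / s := by
    rw [abs_of_nonneg (by linarith), le_div_iff₀ hs0]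
    have h1 : (t - s) * (t + s) ≤ 1 := by
      have : (t - s) * (t + s) = t ^ 2 - s ^ 2 := by ring
      rw [this, hs2]; linarith
    have h2 : (t - s) * s ≤ (t - s) * (t + s) := mul_le_mul_of_nonneg_left (by linarith) (by linarith)
    linarith
  have hsinv : 1 / s = (n : ℝ) ^ (-(1 / 2) : ℝ) := by
    rw [hsdef, Real.sqrt_eq_rpow, Real.rpow_neg hnp.le, one_div]
  -- `t^(2x) = (t^2)^x`
  have e1 : t ^ (2 * x) = (t ^ 2) ^ x := by
    rw [Real.rpow_mul htp.le, Real.rpow_two]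
  set N : ℕ := ⌊t ^ (2 * x)⌋₊ with hN
  set N' : ℕ := ⌊(n : ℝ) ^ x⌋₊ with hN'
  have hnx1 : 1 ≤ (n : ℝ) ^ x := Real.one_le_rpow hn1 hx.le
  have hN'1 : 1 ≤ N' := Nat.one_le_floor_iff _ |>.2 hnx1
  have hN'r : (1 : ℝ) ≤ N' := by exact_mod_cast hN'1
  have hN'le : (N' : ℝ) ≤ (n : ℝ) ^ x := Nat.floor_le (by positivity)
  have c1 : ‖P N t‖ ≤ ‖P N' t‖ + |(N : ℝ) - N'| := P_diff N N' t
  have c2 : |(N : ℝ) - N'| ≤ 2 * x * Real.exp x * (n : ℝ) ^ (x - 1) + 1 := by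
    have h1 : |(N : ℝ) - N'| ≤ |t ^ (2 * x) - (n : ℝ) ^ x| + 1 :=
      floor_diff (Real.rpow_nonneg htp.le _) (Real.rpow_nonneg hnp.le _)
    have h2 : |t ^ 2 - n| ≤ 1 := by
      rw [abs_le]; constructor <;> linarith
    have h3 := rpow_close (x := x) (γ := n) (t := t ^ 2) hx hnp (by linarith)
    rw [← e1] at h3
    have h4 : (n : ℝ) ^ x * (|t ^ 2 - n| / n) ≤ (n : ℝ) ^ (x - 1) := by
      rw [Real.rpow_sub hnp, Real.rpow_one, mul_div_assoc']
      apply div_le_div_of_nonneg_right _ hnp.le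
      exact mul_le_of_le_one_right (by positivity) h2
    have h5 : 2 * x * Real.exp x * ((n : ℝ) ^ x * (|t ^ 2 - n| / n)) ≤
        2 * x * Real.exp x * (n : ℝ) ^ (x - 1) := mul_le_mul_of_nonneg_left h4 (by positivity)
    linarith
  have c3 : ‖P N' t‖ ≤ ‖P N' s‖ + (N' : ℝ) * (|t - s| * Real.log N') := P_lip N' t s
  have c4 : ‖P N' s‖ ≤ (n : ℝ) ^ (x - δ) := hs n b3
  set Q : ℝ := (n : ℝ) ^ (x - δ1) with hQ
  have hQ0 : 0 < Q := Real.rpow_pos_of_pos hnp _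
  have c5 : (N' : ℝ) * (|t - s| * Real.log N') ≤ 4 * x * Q := by
    have h1 : Real.log N' ≤ x * Real.log n := by
      rw [← Real.log_rpow hnp]
      exact Real.log_le_log (by linarith) hN'le
    have h2 : Real.log n ≤ (n : ℝ) ^ (1 / 4 : ℝ) / (1 / 4) :=
      Real.log_le_rpow_div hnp.le (by norm_num)
    have h3 : Real.log N' ≤ x * ((n : ℝ) ^ (1 / 4 : ℝ) / (1 / 4)) :=
      h1.trans (mul_le_mul_of_nonneg_left h2 hx.le)
    have h4 : 0 ≤ Real.log N' := Real.log_nonneg hN'r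
    calc (N' : ℝ) * (|t - s| * Real.log N')
        ≤ (n : ℝ) ^ x * ((n : ℝ) ^ (-(1 / 2) : ℝ) * (x * ((n : ℝ) ^ (1 / 4 : ℝ) / (1 / 4)))) := by
          rw [← hsinv]
          gcongr
      _ = 4 * x * ((n : ℝ) ^ x * (n : ℝ) ^ (-(1 / 2) : ℝ) * (n : ℝ) ^ (1 / 4 : ℝ)) := by ring
      _ = 4 * x * (n : ℝ) ^ (x - 1 / 4) := by
          rw [← Real.rpow_add hnp, ← Real.rpow_add hnp]
          congr 2
          ring
      _ ≤ 4 * x * Q := by
          apply mul_le_mul_of_nonneg_left _ (by positivity)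
          exact Real.rpow_le_rpow_of_exponent_le hn1 (by linarith)
  have c6 : (n : ℝ) ^ (x - δ) ≤ Q := Real.rpow_le_rpow_of_exponent_le hn1 (by linarith)
  have c7 : (n : ℝ) ^ (x - 1) ≤ Q := Real.rpow_le_rpow_of_exponent_le hn1 (by linarith)
  have c8 : 1 ≤ Q := Real.one_le_rpow hn1 (by linarith)
  have c9 : ‖P N t‖ ≤ K * Q := by
    have h5 : 2 * x * Real.exp x * (n : ℝ) ^ (x - 1) ≤ 2 * x * Real.exp x * Q :=
      mul_le_mul_of_nonneg_left c7 (by positivity)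
    calc ‖P N t‖ ≤ (n : ℝ) ^ (x - δ) + 4 * x * Q + (2 * x * Real.exp x * (n : ℝ) ^ (x - 1) + 1) := by
          linarith
      _ ≤ Q + 4 * x * Q + (2 * x * Real.exp x * Q + Q) := by linarith
      _ = K * Q := by rw [hK]; ring
  have c10 : Q ≤ t ^ (2 * x - 2 * δ1) := by
    calc Q ≤ (t ^ 2) ^ (x - δ1) := Real.rpow_le_rpow hnp.le b1 (by linarith)
      _ = t ^ (2 * x - 2 * δ1) := by
          rw [← Real.rpow_two, ← Real.rpow_mul htp.le]
          congr 1
          ring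
  have ht1 : 1 ≤ t := by linarith
  have hT1 : 1 ≤ t ^ (2 * x) := Real.one_le_rpow ht1 (by linarith)
  have hNge : t ^ (2 * x) / 2 ≤ (N : ℝ) := by
    have h1 := Nat.lt_floor_add_one (t ^ (2 * x))
    have h2 : 1 ≤ N := Nat.one_le_floor_iff _ |>.2 hT1
    have h3 : (1 : ℝ) ≤ N := by exact_mod_cast h2
    rw [← hN] at h1
    linarith
  have d1 : t ^ (2 * x - δ1) / 2 ≤ (N : ℝ) ^ (1 - δ1 / (2 * x)) := by
    have hq : 0 ≤ 1 - δ1 / (2 * x) := by
      rw [sub_nonneg, div_le_one (by positivity)]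
      linarith
    calc t ^ (2 * x - δ1) / 2 = (t ^ (2 * x)) ^ (1 - δ1 / (2 * x)) / 2 := by
          rw [← Real.rpow_mul htp.le]
          congr 2
          field_simp
      _ ≤ (t ^ (2 * x)) ^ (1 - δ1 / (2 * x)) / 2 ^ (1 - δ1 / (2 * x)) := by
          apply div_le_div_of_nonneg_left (by positivity) (by positivity)
          calc (2 : ℝ) ^ (1 - δ1 / (2 * x)) ≤ 2 ^ (1 : ℝ) :=
                Real.rpow_le_rpow_of_exponent_le (by norm_num) (by
                  have : 0 ≤ δ1 / (2 * x) := by positivity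
                  linarith)
            _ = 2 := Real.rpow_one _
      _ = (t ^ (2 * x) / 2) ^ (1 - δ1 / (2 * x)) :=
          (Real.div_rpow (by positivity) (by norm_num) _).symm
      _ ≤ _ := Real.rpow_le_rpow (by positivity) hNge hq
  refine le_trans ?_ d1
  have d2 : 2 * K ≤ t ^ δ1 := by
    calc 2 * K = ((2 * K) ^ (1 / δ1)) ^ δ1 := by
          rw [← Real.rpow_mul (by linarith), one_div, inv_mul_cancel₀ a4.ne', Real.rpow_one]
      _ ≤ t ^ δ1 := Real.rpow_le_rpow hKp htK a4.le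
  rw [le_div_iff₀ (by norm_num)]
  calc ‖P N t‖ * 2 ≤ (K * t ^ (2 * x - 2 * δ1)) * 2 := by
        apply mul_le_mul_of_nonneg_right _ (by norm_num)
        exact c9.trans (mul_le_mul_of_nonneg_left c10 (by linarith))
    _ = (2 * K) * t ^ (2 * x - 2 * δ1) := by ring
    _ ≤ t ^ δ1 * t ^ (2 * x - 2 * δ1) := by gcongr
    _ = t ^ (2 * x - δ1) := by
        rw [← Real.rpow_add htp]
        congr 1
        ring

end Pool.Agent.H48.VP
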