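import Mathlib
import Pool.Agent.H76.PS.ShiftA
import Pool.Agent.H48.VP.PerronC

/-!
# PsiU: `∑_{n ≤ M} Λ(n) n^(-it)` when there are no zeros near the height `t`, error `M/U^(1-ε)`

The sum with a wide linear cutoff is estimated by `shiftA` with error `M/U` at all heights within
`U/2` of `t`; the smooth Perron kernel passes from the wide cutoff to the narrow one.
-/

set_option autoImplicit false

open Complex MeasureTheory

namespace Pool.Agent.H48.VP

/-- a Dirichlet polynomial on the line `Re s = 0` -/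
noncomputable def dpl (K : ℕ) (b : ℕ → ℂ) (t : ℝ) : ℂ :=
  ∑ n ∈ Finset.Icc 1 K, b n * (n : ℂ) ^ (-((t : ℂ) * I))

theorem dpl_cont (K : ℕ) (b : ℕ → ℂ) : Continuous (dpl K b) := by
  unfold dpl
  refine continuous_finsetSum _ fun n hn => ?_
  have hn0 : (n : ℂ) ≠ 0 := by
    have := (Finset.mem_Icc.1 hn).1
    exact_mod_cast (by omega : n ≠ 0)
  have : Continuous fun t : ℝ => -((t : ℂ) * I) := by fun_prop
  exact continuous_const.mul (this.const_cpow (Or.inl hn0))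

theorem dpl_HasT (K : ℕ) (b : ℕ → ℂ) (γ : ℝ) {G T : ℝ → ℝ} {c : ℝ} (hG : Integrable G)
    (hT : HasT G c T) :
    ∫ w : ℝ, (G w : ℂ) * dpl K b (γ + w) = (c : ℂ) * ∑ n ∈ Finset.Icc 1 K,
        b n * (n : ℂ) ^ (-((γ : ℂ) * I)) * (T (Real.log n) : ℂ) := by
  have h1 : (fun w : ℝ => (G w : ℂ) * dpl K b (γ + w)) = fun w : ℝ =>
      ∑ n ∈ Finset.Icc 1 K, b n * (n : ℂ) ^ (-((γ : ℂ) * I)) *
        ((G w : ℂ) * ex (Real.log n) w) := by
    funext w
    unfold dpl
    rw [Finset.mul_sum]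
    refine Finset.sum_congr rfl fun n hn => ?_
    have := (Finset.mem_Icc.1 hn).1
    rw [pw_ex (by omega : n ≠ 0)]
    ring
  have hi : ∀ u : ℝ, Integrable (fun w : ℝ => (G w : ℂ) * ex u w) := fun u =>
    hG.ofReal.mul_bdd (c := 1)
      ((ex_cont.comp (by fun_prop : Continuous fun w : ℝ => (u, w))).aestronglyMeasurable)
      (Filter.Eventually.of_forall fun w => (ex_norm u w).le)
  rw [h1, integral_finsetSum, Finset.mul_sum]
  · refine Finset.sum_congr rfl fun n _ => ?_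
    rw [integral_const_mul, hT]
    push_cast
    ring
  · intro n _
    exact (hi _).const_mul _

theorem dplPerron (K : ℕ) (b : ℕ → ℂ) (γ : ℝ) (k : ℕ) {a h L S B : ℝ} (ha : 0 ≤ a) (hh : 0 < h)
    (hL : 1 ≤ L) (hhL : 0 < h * L) (hB : ∀ t : ℝ, ‖dpl K b t‖ ≤ B)
    (hS : ∀ t : ℝ, |t - γ| ≤ L → ‖dpl K b t‖ ≤ S) :
    ∃ T : ℝ → ℝ, Shape a (a + (2 * k + 1) * h) T ∧
      kap * ‖∑ n ∈ Finset.Icc 1 K, b n * (n : ℂ) ^ (-((γ : ℂ) * I)) * (T (Real.log n) : ℂ)‖ ≤
        (2 * a + (2 * k + 1) * h + 2 * Real.log L) * S + 8 * B / (h * L) ^ (k + 1) := by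
  have hk0 : (0 : ℝ) ≤ k := by positivity
  set a' : ℝ := a + k * h with ha'
  have ha0 : 0 ≤ a' := by positivity
  have hL0 : 0 < L := by linarith
  have hB0 : 0 ≤ B := (norm_nonneg _).trans (hB 0)
  obtain ⟨T, hT, hs, hi, ht⟩ := smooth_iter ha0 (by linarith : a' < a' + h) hh k
  have hs' : Shape a (a + (2 * k + 1) * h) T := by
    convert hs using 1
    · rw [ha']; ring
    · rw [ha']; ring
  refine ⟨T, hs', ?_⟩
  have hsin : ∀ w : ℝ, |Real.sinc (h * w) ^ k| ≤ 1 := by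
    intro w
    rw [abs_pow]
    exact pow_le_one₀ (abs_nonneg _) (Real.abs_sinc_le_one _)
  have hfar : ∀ w : ℝ, L ≤ |w| → |Real.sinc (h * w) ^ k| ≤ ((h * L) ^ k)⁻¹ := by
    intro w hw
    have hw0 : 0 < |w| := hL0.trans_le hw
    have hw1 : w ≠ 0 := abs_pos.1 hw0
    rw [abs_pow, ← inv_pow]
    apply pow_le_pow_left₀ (abs_nonneg _)
    rw [Real.sinc_of_ne_zero (mul_ne_zero hh.ne' hw1), abs_div]
    calc |Real.sin (h * w)| / |h * w| ≤ 1 / |h * w| :=
          div_le_div_of_nonneg_right (Real.abs_sin_le_one _) (abs_nonneg _)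
      _ ≤ 1 / (h * L) := by
          apply one_div_le_one_div_of_le hhL
          rw [abs_mul, abs_of_pos hh]
          exact mul_le_mul_of_nonneg_left hw hh.le
      _ = (h * L)⁻¹ := one_div _
  have h1 := Kf_split (a := a') (b := a' + h) (L := L) (S := S) (B := B * ((h * L) ^ k)⁻¹)
    (B' := B) ha0 (by linarith) hL (by positivity)
    (fun w => ((Real.sinc (h * w) ^ k : ℝ) : ℂ) * dpl K b (γ + w))
    (by
      have c1 : Continuous fun w : ℝ => Real.sinc (h * w) ^ k := by fun_prop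
      have c2 : Continuous fun w : ℝ => dpl K b (γ + w) := (dpl_cont K b).comp (by fun_prop)
      exact (Complex.continuous_ofReal.comp c1).mul c2)
    (fun w => by
      rw [norm_mul, Complex.norm_real, Real.norm_eq_abs]
      calc |Real.sinc (h * w) ^ k| * ‖dpl K b (γ + w)‖ ≤ 1 * B :=
            mul_le_mul (hsin w) (hB (γ + w)) (norm_nonneg _) zero_le_one
        _ = B := one_mul _)
    (fun w hw => by
      rw [norm_mul, Complex.norm_real, Real.norm_eq_abs, mul_comm B]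
      exact mul_le_mul (hfar w hw) (hB (γ + w)) (norm_nonneg _) (by positivity))
    (fun w hw => by
      rw [norm_mul, Complex.norm_real, Real.norm_eq_abs]
      calc |Real.sinc (h * w) ^ k| * ‖dpl K b (γ + w)‖ ≤ 1 * S :=
            mul_le_mul (hsin w) (hS (γ + w) (by rwa [add_sub_cancel_left])) (norm_nonneg _)
              zero_le_one
        _ = S := one_mul _)
  have e0 : (fun w : ℝ => (Kf a' (a' + h) w : ℂ) *
      (((Real.sinc (h * w) ^ k : ℝ) : ℂ) * dpl K b (γ + w))) =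
      fun w : ℝ => ((Kf a' (a' + h) w * Real.sinc (h * w) ^ k : ℝ) : ℂ) * dpl K b (γ + w) := by
    funext w
    push_cast
    ring
  rw [e0, dpl_HasT K b γ hi ht] at h1
  set Z : ℂ := ∑ n ∈ Finset.Icc 1 K, b n * (n : ℂ) ^ (-((γ : ℂ) * I)) *
      (T (Real.log n) : ℂ) with hZ
  have hk := kap_pos
  have e1 : ‖((kap * (a' + h - a') : ℝ) : ℂ) * Z‖ = kap * h * ‖Z‖ := by
    rw [norm_mul, Complex.norm_real, Real.norm_eq_abs, add_sub_cancel_left,
      abs_of_pos (by positivity)]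
  rw [e1, add_sub_cancel_left] at h1
  have h5 : h * (kap * ‖Z‖) ≤ h * ((2 * a + (2 * k + 1) * h + 2 * Real.log L) * S +
      8 * B / (h * L) ^ (k + 1)) := by
    have e5 : h * (8 * B / (h * L) ^ (k + 1)) = 8 * (B * ((h * L) ^ k)⁻¹) / L := by
      rw [pow_succ]
      field_simp
    have e6 : h * (a' + (a' + h)) = h * (2 * a + (2 * k + 1) * h) := by
      rw [ha']
      ring
    calc h * (kap * ‖Z‖) = kap * h * ‖Z‖ := by ring
      _ ≤ (h * (a' + (a' + h)) + 2 * (h * Real.log L)) * S +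
          8 * (B * ((h * L) ^ k)⁻¹) / L := h1
      _ = h * ((2 * a + (2 * k + 1) * h + 2 * Real.log L) * S +
          8 * B / (h * L) ^ (k + 1)) := by
          rw [e6, ← e5]
          ring
  exact le_of_mul_le_mul_left h5 hh

/-- the difference between a smooth and the sharp cutoff -/
theorem cut_diffL {K M : ℕ} (hM : 1 ≤ M) (hMK : M ≤ K) (γ : ℝ) {H Λ0 : ℝ} (hH : 0 < H)
    (hH1 : H ≤ 1) {b c : ℕ → ℂ} (hbc : ∀ n : ℕ, n ≤ M → b n = c n)
    (hb : ∀ n : ℕ, 1 ≤ n → n ≤ K → ‖b n‖ ≤ Λ0) (hΛ : 0 ≤ Λ0)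
    {T : ℝ → ℝ} (hT : Shape (Real.log M) (Real.log M + H) T) :
    ‖(∑ n ∈ Finset.Icc 1 K, b n * (n : ℂ) ^ (-((γ : ℂ) * I)) * (T (Real.log n) : ℂ)) -
      ∑ n ∈ Finset.Icc 1 M, c n * (n : ℂ) ^ (-((γ : ℂ) * I))‖ ≤ 2 * H * M * Λ0 := by
  obtain ⟨s1, s2, s3⟩ := hT
  have hM0 : (0 : ℝ) < M := by exact_mod_cast hM
  have hsub : Finset.Icc 1 M ⊆ Finset.Icc 1 K := Finset.Icc_subset_Icc_right hMK
  rw [← Finset.sum_sdiff hsub]
  have e1 : ∑ n ∈ Finset.Icc 1 M, b n * (n : ℂ) ^ (-((γ : ℂ) * I)) * (T (Real.log n) : ℂ) =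
      ∑ n ∈ Finset.Icc 1 M, c n * (n : ℂ) ^ (-((γ : ℂ) * I)) := by
    refine Finset.sum_congr rfl fun n hn => ?_
    rw [Finset.mem_Icc] at hn
    have hp1 : (1 : ℝ) ≤ n := by exact_mod_cast hn.1
    have hp2 : (n : ℝ) ≤ M := by exact_mod_cast hn.2
    rw [s2 _ (by
      rw [abs_of_nonneg (Real.log_nonneg hp1)]
      exact Real.log_le_log (by linarith) hp2), hbc n hn.2]
    simp
  rw [e1, add_sub_cancel_right]
  set Q : Finset ℕ := Finset.Icc 1 K \ Finset.Icc 1 M with hQ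
  have hterm : ∀ n ∈ Q, ‖b n * (n : ℂ) ^ (-((γ : ℂ) * I)) * (T (Real.log n) : ℂ)‖ ≤
      if n ∈ Finset.Ioc M ⌊M * Real.exp H⌋₊ then Λ0 else 0 := by
    intro n hn
    rw [hQ, Finset.mem_sdiff, Finset.mem_Icc, Finset.mem_Icc] at hn
    obtain ⟨⟨p1, p2⟩, p4⟩ := hn
    have p5 : M < n := by
      by_contra hcon
      exact p4 ⟨p1, by omega⟩
    have hp1 : (1 : ℝ) ≤ n := by exact_mod_cast p1
    rw [norm_mul, norm_mul, pw_norm (by omega : n ≠ 0), mul_one, Complex.norm_real,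
      Real.norm_eq_abs, abs_of_nonneg (s1 _).1]
    split_ifs with hin
    · calc ‖b n‖ * T (Real.log n) ≤ Λ0 * 1 :=
            mul_le_mul (hb n p1 p2) (s1 _).2 (s1 _).1 hΛ
        _ = Λ0 := mul_one _
    · have hbig : Real.log M + H ≤ Real.log n := by
        rw [Finset.mem_Ioc, not_and] at hin
        have h1 := hin p5
        rw [not_le] at h1
        have h2 : (M : ℝ) * Real.exp H < n := Nat.lt_of_floor_lt h1
        have h3 := Real.log_le_log (by positivity) h2.le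
        rw [Real.log_mul hM0.ne' (Real.exp_pos H).ne', Real.log_exp] at h3
        exact h3
      rw [s3 _ (by rw [abs_of_nonneg (Real.log_nonneg hp1)]; exact hbig), mul_zero]
  calc ‖∑ n ∈ Q, b n * (n : ℂ) ^ (-((γ : ℂ) * I)) * (T (Real.log n) : ℂ)‖
      ≤ ∑ n ∈ Q, (if n ∈ Finset.Ioc M ⌊M * Real.exp H⌋₊ then Λ0 else 0) :=
        norm_sum_le_of_le _ hterm
    _ = ((Q.filter (fun n => n ∈ Finset.Ioc M ⌊M * Real.exp H⌋₊)).card : ℝ) * Λ0 := by
        rw [← Finset.sum_filter, Finset.sum_const, nsmul_eq_mul]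
    _ ≤ ((Finset.Ioc M ⌊M * Real.exp H⌋₊).card : ℝ) * Λ0 := by
        have : Q.filter (fun n => n ∈ Finset.Ioc M ⌊M * Real.exp H⌋₊) ⊆
            Finset.Ioc M ⌊M * Real.exp H⌋₊ := fun n hn => (Finset.mem_filter.1 hn).2
        apply mul_le_mul_of_nonneg_right _ hΛ
        exact_mod_cast Finset.card_le_card this
    _ ≤ 2 * H * M * Λ0 := by
        apply mul_le_mul_of_nonneg_right _ hΛ
        rw [Nat.card_Ioc]
        have h1 : 1 ≤ Real.exp H := Real.one_le_exp hH.le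
        have h2 : M ≤ ⌊M * Real.exp H⌋₊ := by
          apply Nat.le_floor
          nlinarith
        rw [Nat.cast_sub h2]
        have h3 := Nat.floor_le (by positivity : (0 : ℝ) ≤ M * Real.exp H)
        have h4 : |Real.exp H - 1| ≤ 2 * |H| :=
          Real.abs_exp_sub_one_le (by rw [abs_of_pos hH]; exact hH1)
        rw [abs_of_pos hH] at h4
        have h5 := (abs_le.1 h4).2
        nlinarith

end Pool.Agent.H48.VP
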