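import Mathlib
import Pool.Agent.H48.VP.PsiU

/-!
# PsiV: `∑_{n ≤ M} Λ(n) n^(-it)` with error `M/U^(1-ε)`
-/

set_option autoImplicit false

open Complex MeasureTheory

namespace Pool.Agent.H48.VP

/-- the wide linear cutoff -/
noncomputable def wide (M n : ℕ) : ℝ := (max (6 * (M : ℝ) - n) 0 - max (3 * (M : ℝ) - n) 0) / (3 * M)

theorem wide_one {M n : ℕ} (hM : 1 ≤ M) (hn : n ≤ 3 * M) : wide M n = 1 := by
  have h1 : (n : ℝ) ≤ 3 * M := by exact_mod_cast hn
  have h2 : (1 : ℝ) ≤ M := by exact_mod_cast hM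
  unfold wide
  rw [max_eq_left (by linarith), max_eq_left (by linarith)]
  have : 6 * (M : ℝ) - n - (3 * M - n) = 3 * M := by ring
  rw [this, div_self (by positivity)]

theorem wide_mem {M n : ℕ} (hM : 1 ≤ M) : 0 ≤ wide M n ∧ wide M n ≤ 1 := by
  have h2 : (1 : ℝ) ≤ M := by exact_mod_cast hM
  have h3 : (0 : ℝ) < 3 * M := by positivity
  unfold wide
  constructor
  · apply div_nonneg _ h3.le
    have : max (3 * (M : ℝ) - n) 0 ≤ max (6 * (M : ℝ) - n) 0 :=
      max_le_max (by linarith) le_rfl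
    linarith
  · rw [div_le_one h3]
    have : max (6 * (M : ℝ) - n) 0 ≤ max (3 * (M : ℝ) - n) 0 + 3 * M := by
      apply max_le
      · have := le_max_left (3 * (M : ℝ) - n) 0
        linarith
      · have := le_max_right (3 * (M : ℝ) - n) 0
        linarith
    linarith

theorem psiU {ε : ℝ} (hε : 0 < ε) (hε1 : ε ≤ 1 / 2) :
    ∃ C : ℝ, 1 ≤ C ∧ ∀ (κ t U A : ℝ) (M : ℕ), 1 / 2 ≤ κ → κ ≤ 1 → 8 ≤ U → U ≤ t / 2 →
      1 ≤ M → 0 ≤ A →
      (∀ s : ℂ, κ ≤ s.re → s.re ≤ 2 → |s.im - t| ≤ U - 2 →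
        riemannZeta s ≠ 0 ∧ ‖deriv riemannZeta s / riemannZeta s‖ ≤ A) →
      ‖∑ n ∈ Finset.Icc 1 M, ((ArithmeticFunction.vonMangoldt n : ℝ) : ℂ) *
          (n : ℂ) ^ (-(t * I))‖ ≤
        C * (A + Real.log (t * M)) * Real.log (t * M) ^ 2 * ((M : ℝ) ^ κ + M / U ^ (1 - ε)) := by
  obtain ⟨C0, hC0, hsh⟩ := Pool.Agent.H76.PS.shiftA
  obtain ⟨k, hk1⟩ := exists_nat_ge (1 / ε)
  have hkε : 1 ≤ k * ε := by
    rwa [div_le_iff₀ hε] at hk1
  have hk0 : (0 : ℝ) ≤ k := by positivity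
  have hkpos : (0 : ℝ) < 2 * k + 1 := by positivity
  set D : ℝ := (2 * (2 * k + 1)) ^ (k + 1) with hD
  have hD0 : 0 < D := by positivity
  have hkap := kap_pos
  refine ⟨(288 * C0 + 48 * D) / kap + 3, by
    have : 0 < (288 * C0 + 48 * D) / kap := by positivity
    linarith, ?_⟩
  intro κ t U A M hκ hκ1 hU hUt hM hA hz
  have hM1 : (1 : ℝ) ≤ M := by exact_mod_cast hM
  have hMp : (0 : ℝ) < M := by linarith
  have hU0 : 0 < U := by linarith
  have ht16 : 16 ≤ t := by linarith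
  have ht0 : 0 < t := by linarith
  have htM : 16 ≤ t * M := by nlinarith
  set l : ℝ := Real.log (t * M) with hl
  have hl2 : 2 ≤ l := by
    have h1 : Real.exp 2 ≤ 16 := by
      have h2 := Real.exp_one_lt_d9
      have h3 : Real.exp 2 = Real.exp 1 * Real.exp 1 := by rw [← Real.exp_add]; norm_num
      have := Real.exp_pos 1
      nlinarith
    rw [hl, Real.le_log_iff_exp_le (by linarith)]
    linarith
  set V : ℝ := U ^ (1 - ε) with hV
  have hV0 : 0 < V := Real.rpow_pos_of_pos hU0 _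
  have hVU : V ≤ U := by
    calc V ≤ U ^ (1 : ℝ) := Real.rpow_le_rpow_of_exponent_le (by linarith) (by linarith)
      _ = U := Real.rpow_one U
  have hV1 : 1 ≤ V := Real.one_le_rpow (by linarith) (by linarith)
  -- the coefficients
  set b : ℕ → ℂ := fun n => ((ArithmeticFunction.vonMangoldt n * wide M n : ℝ) : ℂ) with hb
  set c : ℕ → ℂ := fun n => ((ArithmeticFunction.vonMangoldt n : ℝ) : ℂ) with hc
  have hlog6 : Real.log (6 * M) ≤ l := by
    apply Real.log_le_log (by positivity)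
    nlinarith
  have hbn : ∀ n : ℕ, 1 ≤ n → n ≤ 6 * M → ‖b n‖ ≤ l := by
    intro n hn hn6
    have hn0 : (0 : ℝ) < n := by exact_mod_cast hn
    have hn6' : (n : ℝ) ≤ 6 * M := by exact_mod_cast hn6
    obtain ⟨w1, w2⟩ := wide_mem (n := n) hM
    simp only [hb]
    rw [Complex.norm_real, Real.norm_of_nonneg
      (mul_nonneg ArithmeticFunction.vonMangoldt_nonneg w1)]
    calc ArithmeticFunction.vonMangoldt n * wide M n ≤ Real.log n * 1 :=
          mul_le_mul ArithmeticFunction.vonMangoldt_le_log w2 w1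
            (Real.log_nonneg (by exact_mod_cast hn))
      _ = Real.log n := mul_one _
      _ ≤ Real.log (6 * M) := Real.log_le_log hn0 hn6'
      _ ≤ l := hlog6
  have hl0 : 0 ≤ l := by linarith
  have hB : ∀ u : ℝ, ‖dpl (6 * M) b u‖ ≤ 6 * M * l := by
    intro u
    unfold dpl
    calc ‖∑ n ∈ Finset.Icc 1 (6 * M), b n * (n : ℂ) ^ (-((u : ℂ) * I))‖
        ≤ ∑ n ∈ Finset.Icc 1 (6 * M), l := by
          refine norm_sum_le_of_le _ fun n hn => ?_
          rw [Finset.mem_Icc] at hn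
          rw [norm_mul, pw_norm (by omega : n ≠ 0), mul_one]
          exact hbn n hn.1 hn.2
      _ = 6 * M * l := by
          rw [Finset.sum_const, Nat.card_Icc, nsmul_eq_mul]
          push_cast
          ring
  -- the smooth sums near `t`
  set Q : ℝ := (A + l) * l with hQ
  have hQ1 : l ≤ Q := by rw [hQ]; nlinarith
  have hQ0 : 0 ≤ Q := hl0.trans hQ1
  set E : ℝ := (M : ℝ) ^ κ + M / V with hE
  have hMκ : 1 ≤ (M : ℝ) ^ κ := Real.one_le_rpow hM1 (by linarith)
  have hMV : 0 < (M : ℝ) / V := by positivity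
  have hE0 : 0 < E := by linarith
  have hS : ∀ u : ℝ, |u - t| ≤ U / 2 → ‖dpl (6 * M) b u‖ ≤ 96 * C0 * (Q * E) := by
    intro u hu
    have hu' := abs_le.1 hu
    have hu1 : 3 * t / 4 ≤ u := by linarith [hu'.1]
    have hu2 : u ≤ 5 * t / 4 := by linarith [hu'.2]
    have key := hsh κ u (U / 2) (3 * M) (6 * M) A (6 * M) hκ hκ1 (by linarith) (by linarith)
      (by linarith) (by linarith) (by linarith) (by linarith) (by push_cast; linarith) hA
      (fun s hs1 hs2 hs3 => hz s hs1 hs2 (by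
        have h1 := abs_le.1 hs3
        rw [abs_le]
        constructor <;> linarith [hu'.1, hu'.2]))
    have e1 : ∑ n ∈ Finset.Icc 1 (6 * M), ((ArithmeticFunction.vonMangoldt n : ℝ) : ℂ) *
          (n : ℂ) ^ (-((u : ℂ) * I)) *
          ((max (6 * (M : ℝ) - n) 0 - max (3 * (M : ℝ) - n) 0 : ℝ) : ℂ) =
        ((3 * M : ℝ) : ℂ) * dpl (6 * M) b u := by
      unfold dpl
      rw [Finset.mul_sum]
      refine Finset.sum_congr rfl fun n _ => ?_
      have e2 : max (6 * (M : ℝ) - n) 0 - max (3 * (M : ℝ) - n) 0 = 3 * M * wide M n := by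
        unfold wide
        rw [mul_div_cancel₀ _ (by positivity)]
      rw [e2]
      simp only [hb]
      push_cast
      ring
    rw [e1, norm_mul, Complex.norm_real, Real.norm_of_nonneg (by positivity)] at key
    have hlu : Real.log (u * (6 * M)) ≤ 2 * l := by
      have e : 2 * l = Real.log ((t * M) ^ 2) := by
        rw [Real.log_pow, hl]
        push_cast
        ring
      rw [e]
      apply Real.log_le_log (by
        have : 0 < u := by linarith
        positivity)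
      have h1 : u * (6 * M) ≤ 5 * t / 4 * (6 * M) := mul_le_mul_of_nonneg_right hu2 (by positivity)
      nlinarith
    have hlu0 : 0 ≤ Real.log (u * (6 * M)) := Real.log_nonneg (by nlinarith)
    have h6 : (6 * (M : ℝ)) ^ κ ≤ 6 * (M : ℝ) ^ κ := by
      rw [Real.mul_rpow (by norm_num) hMp.le]
      have h2 : (6 : ℝ) ^ κ ≤ 6 := by
        have := Real.rpow_le_rpow_of_exponent_le (x := 6) (by norm_num) hκ1
        rwa [Real.rpow_one] at this
      exact mul_le_mul_of_nonneg_right h2 (by positivity)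
    have hpart : (6 * (M : ℝ) - 3 * M) * (6 * M) ^ κ + (6 * (M : ℝ)) ^ 2 / (U / 2) ≤
        3 * M * (24 * E) := by
      have e3 : (6 * (M : ℝ)) ^ 2 / (U / 2) = 3 * M * (24 * (M / U)) := by
        field_simp
        ring
      have e4 : (M : ℝ) / U ≤ M / V := div_le_div_of_nonneg_left hMp.le hV0 hVU
      have e5 : (6 * (M : ℝ) - 3 * M) * (6 * M) ^ κ ≤ 3 * M * (6 * (M : ℝ) ^ κ) := by
        have : 6 * (M : ℝ) - 3 * M = 3 * M := by ring
        rw [this]
        exact mul_le_mul_of_nonneg_left h6 (by positivity)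
      rw [e3, hE]
      have e6 : 3 * (M : ℝ) * (24 * (M / U)) ≤ 3 * M * (24 * (M / V)) := by gcongr
      nlinarith [mul_nonneg hMp.le (by linarith : (0 : ℝ) ≤ (M : ℝ) ^ κ)]
    have hfac : C0 * (A + Real.log (u * (6 * M))) * Real.log (u * (6 * M)) ≤ 4 * C0 * Q := by
      calc C0 * (A + Real.log (u * (6 * M))) * Real.log (u * (6 * M))
          ≤ C0 * (A + 2 * l) * (2 * l) := by gcongr
        _ ≤ 4 * C0 * Q := by
            rw [hQ]
            have : C0 * (A + 2 * l) * (2 * l) ≤ C0 * (2 * (A + l)) * (2 * l) := by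
              gcongr
              linarith
            calc _ ≤ _ := this
              _ = _ := by ring
    have hpart0 : 0 ≤ (6 * (M : ℝ) - 3 * M) * (6 * M) ^ κ + (6 * (M : ℝ)) ^ 2 / (U / 2) := by
      have : 6 * (M : ℝ) - 3 * M = 3 * M := by ring
      rw [this]
      positivity
    have h7 : 3 * (M : ℝ) * ‖dpl (6 * M) b u‖ ≤ 3 * M * (96 * C0 * (Q * E)) := by
      calc 3 * (M : ℝ) * ‖dpl (6 * M) b u‖ ≤ _ := key
        _ ≤ 4 * C0 * Q * (3 * M * (24 * E)) :=
            mul_le_mul hfac hpart hpart0 (by positivity)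
        _ = _ := by ring
    exact le_of_mul_le_mul_left h7 (by positivity)
  -- the smooth Perron kernel
  set h : ℝ := V⁻¹ / (2 * k + 1) with hh
  have hh0 : 0 < h := by positivity
  have hH : (2 * k + 1) * h = V⁻¹ := by
    rw [hh, mul_div_cancel₀ _ hkpos.ne']
  have hH1 : V⁻¹ ≤ 1 := inv_le_one_of_one_le₀ hV1
  have hL1 : 1 ≤ U / 2 := by linarith
  have hla : 0 ≤ Real.log M := Real.log_nonneg hM1
  obtain ⟨T, hT, hZ⟩ := dplPerron (6 * M) b t k (a := Real.log M) (h := h) (L := U / 2) hla hh0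
    hL1 (by positivity) hB hS
  rw [hH] at hT hZ
  have hdiff := cut_diffL (K := 6 * M) (M := M) hM (by omega) t (H := V⁻¹) (Λ0 := l)
    (by positivity) hH1 (b := b) (c := c) (fun n hn => by
      simp only [hb, hc]
      rw [wide_one hM (by omega), mul_one]) hbn hl0 hT
  set Z : ℂ := ∑ n ∈ Finset.Icc 1 (6 * M), b n * (n : ℂ) ^ (-((t : ℂ) * I)) *
      (T (Real.log n) : ℂ) with hZdef
  set R : ℂ := ∑ n ∈ Finset.Icc 1 M, c n * (n : ℂ) ^ (-((t : ℂ) * I)) with hR
  have hlogs : 2 * Real.log M + V⁻¹ + 2 * Real.log (U / 2) ≤ 3 * l := by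
    have h1 : Real.log M + Real.log (U / 2) ≤ l := by
      rw [← Real.log_mul (by positivity) (by positivity)]
      apply Real.log_le_log (by positivity)
      nlinarith
    linarith
  -- `(h U/2)^(k+1) ≥ V / D`
  have hpow : V / D ≤ (h * (U / 2)) ^ (k + 1) := by
    have e1 : h * (U / 2) = U ^ ε / (2 * (2 * k + 1)) := by
      have e2 : U = U ^ (1 - ε) * U ^ ε := by
        rw [← Real.rpow_add hU0]
        have : 1 - ε + ε = 1 := by ring
        rw [this, Real.rpow_one]
      rw [hh]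
      nth_rw 1 [e2]
      rw [← hV]
      field_simp
    have e3 : (U ^ ε) ^ (k + 1) = U ^ (ε * ((k + 1 : ℕ) : ℝ)) := by
      rw [← Real.rpow_natCast, ← Real.rpow_mul hU0.le]
    rw [e1, div_pow, e3, ← hD]
    apply div_le_div_of_nonneg_right _ hD0.le
    rw [hV]
    apply Real.rpow_le_rpow_of_exponent_le (by linarith)
    push_cast
    nlinarith
  have hlast : 8 * (6 * M * l) / (h * (U / 2)) ^ (k + 1) ≤ 48 * D * (l * (M / V)) := by
    calc 8 * (6 * M * l) / (h * (U / 2)) ^ (k + 1) ≤ 8 * (6 * M * l) / (V / D) :=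
          div_le_div_of_nonneg_left (by positivity) (by positivity) hpow
      _ = 48 * D * (l * (M / V)) := by
          field_simp
          ring
  have hMVE : (M : ℝ) / V ≤ E := by
    rw [hE]
    linarith
  have hZ2 : kap * ‖Z‖ ≤ (288 * C0 + 48 * D) * (l * (Q * E)) := by
    have h1 : (2 * Real.log M + V⁻¹ + 2 * Real.log (U / 2)) * (96 * C0 * (Q * E)) ≤
        3 * l * (96 * C0 * (Q * E)) := mul_le_mul_of_nonneg_right hlogs (by positivity)
    have h2 : l * ((M : ℝ) / V) ≤ l * (Q * E) := by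
      apply mul_le_mul_of_nonneg_left _ hl0
      calc (M : ℝ) / V ≤ 1 * E := by rw [one_mul]; exact hMVE
        _ ≤ Q * E := mul_le_mul_of_nonneg_right (by linarith) hE0.le
    have h3 : 48 * D * (l * (M / V)) ≤ 48 * D * (l * (Q * E)) :=
      mul_le_mul_of_nonneg_left h2 (by positivity)
    calc kap * ‖Z‖ ≤ _ := hZ
      _ ≤ 3 * l * (96 * C0 * (Q * E)) + 48 * D * (l * (Q * E)) := by linarith
      _ = _ := by ring
  have hZ3 : ‖Z‖ ≤ (288 * C0 + 48 * D) / kap * (l * (Q * E)) := by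
    rw [div_mul_eq_mul_div, le_div_iff₀ hkap]
    linarith
  have hd2 : 2 * V⁻¹ * M * l ≤ 2 * (l * (Q * E)) := by
    have e1 : 2 * V⁻¹ * (M : ℝ) * l = 2 * (l * (M / V)) := by
      rw [div_eq_mul_inv]
      ring
    rw [e1]
    apply mul_le_mul_of_nonneg_left _ (by norm_num)
    apply mul_le_mul_of_nonneg_left _ hl0
    calc (M : ℝ) / V ≤ 1 * E := by rw [one_mul]; exact hMVE
      _ ≤ Q * E := mul_le_mul_of_nonneg_right (by linarith) hE0.le
  have hRZ : ‖R‖ ≤ ‖Z‖ + ‖Z - R‖ := by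
    have : R = Z - (Z - R) := by ring
    calc ‖R‖ = ‖Z - (Z - R)‖ := by rw [← this]
      _ ≤ _ := norm_sub_le _ _
  have hfin : ‖R‖ ≤ ((288 * C0 + 48 * D) / kap + 3) * (l * (Q * E)) := by
    have : 0 ≤ l * (Q * E) := by positivity
    calc ‖R‖ ≤ (288 * C0 + 48 * D) / kap * (l * (Q * E)) + 2 * (l * (Q * E)) := by linarith
      _ ≤ _ := by linarith
  refine hfin.trans (le_of_eq ?_)
  rw [hQ]
  ring

end Pool.Agent.H48.VP
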