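import Mathlib
import Pool.Agent.H48.VP.PsiV
import Pool.Agent.H76.PS.LogDU
import Pool.Agent.H52.Unc.Defs

/-!
# PrimeV: `∑_{p ≤ M} p^(-it)` when there are no zeros near the height `t`, error `M/U^(1-ε)`

Partial summation from `psiU`, as in `H76/PS/PrimeA.lean`.
-/

set_option autoImplicit false

open Complex

namespace Pool.Agent.H48.VP

open Pool.Agent.H52.Unc

private noncomputable def thC (t : ℝ) (m : ℕ) : ℂ :=
  ∑ p ∈ (Finset.Icc 1 m).filter Nat.Prime, ((Real.log p : ℝ) : ℂ) * (p : ℂ) ^ (-(t * I))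

private noncomputable def psC (t : ℝ) (m : ℕ) : ℂ :=
  ∑ n ∈ Finset.Icc 1 m, ((ArithmeticFunction.vonMangoldt n : ℝ) : ℂ) * (n : ℂ) ^ (-(t * I))

private lemma norm_tw (t : ℝ) {n : ℕ} (hn : 1 ≤ n) : ‖(n : ℂ) ^ (-(t * I))‖ = 1 := by
  rw [Complex.norm_natCast_cpow_of_pos (by omega)]
  simp

private lemma psC_sub_thC (t : ℝ) {m : ℕ} (hm : 1 ≤ m) :
    ‖psC t m - thC t m‖ ≤ 2 * √(m : ℝ) * Real.log m := by
  have hm1 : (1 : ℝ) ≤ m := by exact_mod_cast hm
  have h0 := Chebyshev.psi_sub_theta_le hm1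
  rw [Chebyshev.psi_sub_theta_eq_sum_not_prime, Nat.floor_natCast] at h0
  refine le_trans ?_ h0
  have e1 : psC t m - thC t m = ∑ n ∈ (Finset.Icc 1 m).filter (fun n => ¬ n.Prime),
      ((ArithmeticFunction.vonMangoldt n : ℝ) : ℂ) * (n : ℂ) ^ (-(t * I)) := by
    unfold psC thC
    rw [← Finset.sum_filter_add_sum_filter_not (Finset.Icc 1 m) Nat.Prime
      (fun n => ((ArithmeticFunction.vonMangoldt n : ℝ) : ℂ) * (n : ℂ) ^ (-(t * I)))]
    have e2 : ∑ n ∈ (Finset.Icc 1 m).filter Nat.Prime,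
        ((ArithmeticFunction.vonMangoldt n : ℝ) : ℂ) * (n : ℂ) ^ (-(t * I)) =
        ∑ p ∈ (Finset.Icc 1 m).filter Nat.Prime, ((Real.log p : ℝ) : ℂ) * (p : ℂ) ^ (-(t * I)) := by
      refine Finset.sum_congr rfl fun p hp => ?_
      rw [ArithmeticFunction.vonMangoldt_apply_prime (Finset.mem_filter.1 hp).2]
    rw [e2]
    ring
  rw [e1]
  have e3 : Finset.Ioc 0 m = Finset.Icc 1 m := by
    ext n
    simp only [Finset.mem_Ioc, Finset.mem_Icc]
    omega
  rw [e3]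
  refine norm_sum_le_of_le _ fun n hn => ?_
  have hn1 := (Finset.mem_Icc.1 (Finset.mem_filter.1 hn).1).1
  rw [norm_mul, norm_real, Real.norm_of_nonneg ArithmeticFunction.vonMangoldt_nonneg,
    norm_tw t hn1, mul_one]

private lemma thC_succ (t : ℝ) (m : ℕ) :
    thC t (m + 1) = thC t m + if (m + 1).Prime then
      ((Real.log ((m + 1 : ℕ) : ℝ) : ℝ) : ℂ) * ((m + 1 : ℕ) : ℂ) ^ (-(t * I)) else 0 := by
  unfold thC
  rw [Finset.sum_filter, Finset.sum_filter, Finset.sum_Icc_succ_top (by omega)]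

private lemma pSum_succ (t : ℝ) (m : ℕ) :
    pSum (m + 1) t = pSum m t + if (m + 1).Prime then
      ((m + 1 : ℕ) : ℂ) ^ (-(t * I)) else 0 := by
  unfold pSum
  rw [Finset.sum_filter, Finset.sum_filter, Finset.sum_Icc_succ_top (by omega)]

private lemma log_pos' {m : ℕ} (hm : 2 ≤ m) : 0 < Real.log m :=
  Real.log_pos (by exact_mod_cast (by omega : 1 < m))

private lemma abel (t : ℝ) (k : ℕ) :
    pSum (k + 2) t = thC t (k + 2) * ((1 / Real.log ((k + 2 : ℕ) : ℝ) : ℝ) : ℂ) +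
      ∑ m ∈ Finset.Ico 2 (k + 2), thC t m *
        ((1 / Real.log (m : ℝ) - 1 / Real.log ((m + 1 : ℕ) : ℝ) : ℝ) : ℂ) := by
  induction k with
  | zero =>
    have h0 : thC t 0 = 0 := by simp [thC]
    have h1 : thC t 1 = 0 := by
      have := thC_succ t 0
      rw [h0, if_neg (by norm_num)] at this
      simpa using this
    have h0' : pSum 0 t = 0 := by simp [pSum]
    have h1' : pSum 1 t = 0 := by
      have := pSum_succ t 0
      rw [h0', if_neg (by norm_num)] at this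
      simpa using this
    have h2 := thC_succ t 1
    have h2' := pSum_succ t 1
    rw [if_pos (by norm_num), h1, zero_add] at h2
    rw [if_pos (by norm_num), h1', zero_add] at h2'
    have h3 : (0 + 2 : ℕ) = 1 + 1 := rfl
    rw [h3, h2, h2']
    have h4 : Finset.Ico 2 (1 + 1) = ∅ := rfl
    rw [h4, Finset.sum_empty, add_zero]
    have h5 : ((Real.log ((1 + 1 : ℕ) : ℝ) : ℝ) : ℂ) ≠ 0 := by
      exact_mod_cast (log_pos' (m := 2) le_rfl).ne'
    rw [ofReal_div, ofReal_one]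
    field_simp
  | succ k ih =>
    have e : k + 1 + 2 = (k + 2) + 1 := by ring
    rw [e, pSum_succ t (k + 2), ih, thC_succ t (k + 2),
      Finset.sum_Ico_succ_top (by omega : 2 ≤ k + 2)]
    have h5 : ((Real.log ((k + 2 + 1 : ℕ) : ℝ) : ℝ) : ℂ) ≠ 0 := by
      exact_mod_cast (log_pos' (m := k + 2 + 1) (by omega)).ne'
    have h6 : ((Real.log ((k + 2 : ℕ) : ℝ) : ℝ) : ℂ) ≠ 0 := by
      exact_mod_cast (log_pos' (m := k + 2) (by omega)).ne'
    rw [ofReal_sub, ofReal_div, ofReal_div, ofReal_one]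
    by_cases hp : (k + 2 + 1).Prime
    · rw [if_pos hp, if_pos hp]
      field_simp
      ring
    · rw [if_neg hp, if_neg hp]
      ring

private lemma sum_inv_sqrt (n : ℕ) :
    ∑ m ∈ Finset.Ico 2 (n + 1), 1 / √(m : ℝ) ≤ 2 * √(n : ℝ) := by
  induction n with
  | zero => simp
  | succ n ih =>
    rcases Nat.eq_zero_or_pos n with rfl | hn
    · have : Finset.Ico 2 (0 + 1 + 1) = ∅ := rfl
      rw [this, Finset.sum_empty]
      positivity
    rw [Finset.sum_Ico_succ_top (by omega : 2 ≤ n + 1)]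
    set a : ℝ := √(n : ℝ) with ha
    set b : ℝ := √((n + 1 : ℕ) : ℝ) with hb
    have hb0 : 0 < b := Real.sqrt_pos.2 (by positivity)
    have ha0 : 0 ≤ a := Real.sqrt_nonneg _
    have ha2 : a ^ 2 = n := Real.sq_sqrt (by positivity)
    have hb2 : b ^ 2 = n + 1 := by
      rw [hb, Real.sq_sqrt (by positivity)]
      push_cast
      ring
    have h1 : 2 * a * b + 1 ≤ 2 * b * b := by nlinarith [sq_nonneg (b - a)]
    have h2 : 1 / b ≤ 2 * b - 2 * a := by
      rw [div_le_iff₀ hb0]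
      nlinarith
    linarith

theorem primeV {ε : ℝ} (hε : 0 < ε) (hε1 : ε ≤ 1 / 2) :
    ∃ C : ℝ, 1 ≤ C ∧ ∀ (κ t U A : ℝ) (M : ℕ), 1 / 2 ≤ κ → κ ≤ 1 → 8 ≤ U →
      U ≤ t / 2 → 1 ≤ M → 0 ≤ A →
      (∀ s : ℂ, κ ≤ s.re → s.re ≤ 2 → |s.im - t| ≤ U - 2 →
        riemannZeta s ≠ 0 ∧ ‖deriv riemannZeta s / riemannZeta s‖ ≤ A) →
      ‖pSum M t‖ ≤ C * (A + Real.log (t * M)) * Real.log (t * M) ^ 2 *
        ((M : ℝ) ^ κ + M / U ^ (1 - ε)) := by
  obtain ⟨C, hC, hps⟩ := psiU hε hε1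
  refine ⟨10 * (C + 2), by linarith, ?_⟩
  intro a t U A M ha2 ha1 hU hUt hM hA hz
  have ht : 16 ≤ t := by linarith
  have hM1 : (1 : ℝ) ≤ M := by exact_mod_cast hM
  have hMp : (0 : ℝ) < M := by linarith
  have hU0 : 0 < U := by linarith
  set V : ℝ := U ^ (1 - ε) with hV
  have hsU : 0 < V := Real.rpow_pos_of_pos hU0 _
  have htM : 4 ≤ t * M := by nlinarith
  set L : ℝ := Real.log (t * M) with hL
  have hlog1 : 1 ≤ L := by
    have h1 : Real.exp 1 ≤ 4 := by
      have := Real.exp_one_lt_d9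
      linarith
    rw [hL, Real.le_log_iff_exp_le (by linarith)]
    linarith
  set Q : ℝ := (A + L) * L ^ 2 with hQ
  have hQL : L ≤ Q := by
    have h1 : L ≤ (A + L) * L := by nlinarith
    have h2 : (A + L) * L * 1 ≤ (A + L) * L * L :=
      mul_le_mul_of_nonneg_left hlog1 (by positivity)
    rw [hQ]
    nlinarith
  have hQ1 : 1 ≤ Q := hlog1.trans hQL
  rcases Nat.lt_or_ge M 2 with hM2 | hM2
  · have : M = 1 := by omega
    subst this
    have h1 : pSum 1 t = 0 := by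
      unfold pSum
      rw [Finset.sum_filter]
      simp [Nat.not_prime_one]
    rw [h1, norm_zero]
    positivity
  -- the bound of `thC`
  have hth : ∀ m : ℕ, 1 ≤ m → m ≤ M →
      ‖thC t m‖ ≤ (C + 2) * Q * ((m : ℝ) ^ a + m / V) := by
    intro m hm hmM
    have hm1 : (1 : ℝ) ≤ m := by exact_mod_cast hm
    have hmM' : (m : ℝ) ≤ M := by exact_mod_cast hmM
    have h1 := hps a t U A m ha2 ha1 hU hUt hm hA hz
    rw [← hV] at h1
    have h2 := psC_sub_thC t hm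
    have h3 : ‖thC t m‖ ≤ ‖psC t m‖ + ‖psC t m - thC t m‖ := by
      have : thC t m = psC t m - (psC t m - thC t m) := by ring
      calc ‖thC t m‖ = ‖psC t m - (psC t m - thC t m)‖ := by rw [← this]
        _ ≤ _ := norm_sub_le _ _
    have h4 : Real.log (t * m) ≤ L := Real.log_le_log (by nlinarith) (by nlinarith)
    have h4' : 0 ≤ Real.log (t * m) := Real.log_nonneg (by nlinarith)
    have h5 : Real.log m ≤ L := by
      refine le_trans (Real.log_le_log (by linarith) ?_) h4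
      nlinarith
    have h5' : 0 ≤ Real.log m := Real.log_nonneg hm1
    have h6 : √(m : ℝ) ≤ (m : ℝ) ^ a := by
      rw [Real.sqrt_eq_rpow]
      exact Real.rpow_le_rpow_of_exponent_le hm1 ha2
    have h7 : 0 ≤ (m : ℝ) ^ a := by positivity
    have h8 : 0 ≤ (m : ℝ) / V := by positivity
    have h9 : ‖psC t m‖ ≤ C * Q * ((m : ℝ) ^ a + m / V) := by
      refine h1.trans ?_
      have h11 : C * (A + Real.log (t * m)) * Real.log (t * m) ^ 2 ≤ C * Q := by
        calc C * (A + Real.log (t * m)) * Real.log (t * m) ^ 2 ≤ C * (A + L) * L ^ 2 := by gcongr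
          _ = _ := by rw [hQ]; ring
      gcongr
    have h10 : 2 * √(m : ℝ) * Real.log m ≤ 2 * Q * ((m : ℝ) ^ a + m / V) := by
      calc 2 * √(m : ℝ) * Real.log m ≤ 2 * (m : ℝ) ^ a * Q := by
            gcongr
            exact h5.trans hQL
        _ = 2 * Q * ((m : ℝ) ^ a) := by ring
        _ ≤ _ := by
            gcongr
            linarith
    calc ‖thC t m‖ ≤ _ := h3
      _ ≤ C * Q * ((m : ℝ) ^ a + m / V) + 2 * Q * ((m : ℝ) ^ a + m / V) := by
          linarith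
      _ = _ := by ring
  obtain ⟨k, rfl⟩ : ∃ k, M = k + 2 := ⟨M - 2, by omega⟩
  have hlog2 : (0.69 : ℝ) ≤ Real.log 2 := by
    have := Real.log_two_gt_d9
    linarith
  rw [abel]
  set M : ℕ := k + 2 with hMk
  set W : ℝ := (C + 2) * Q with hW
  have hW0 : 0 ≤ W := by positivity
  have hT : 0 ≤ (M : ℝ) ^ a + M / V := by positivity
  have hlogm : ∀ m : ℕ, 2 ≤ m → 0.69 ≤ Real.log m := by
    intro m hm
    refine hlog2.trans (Real.log_le_log (by norm_num) ?_)
    exact_mod_cast hm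
  have b1 : ‖thC t M * ((1 / Real.log (M : ℝ) : ℝ) : ℂ)‖ ≤ 2 * (W * ((M : ℝ) ^ a + M / V)) := by
    have h1 := hlogm M hM2
    rw [norm_mul, norm_real, Real.norm_of_nonneg (by positivity)]
    have h2 : 1 / Real.log (M : ℝ) ≤ 2 := by
      rw [div_le_iff₀ (by linarith)]
      linarith
    calc _ ≤ (W * ((M : ℝ) ^ a + M / V)) * 2 := by
          gcongr
          exact hth M hM le_rfl
      _ = _ := by ring
  have b2 : ∀ m ∈ Finset.Ico 2 M, ‖thC t m *
      ((1 / Real.log (m : ℝ) - 1 / Real.log ((m + 1 : ℕ) : ℝ) : ℝ) : ℂ)‖ ≤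
      3 * W * ((M : ℝ) ^ (a - 1 / 2) * (1 / √(m : ℝ)) + 1 / V) := by
    intro m hm
    rw [Finset.mem_Ico] at hm
    have hm1 : (2 : ℝ) ≤ m := by exact_mod_cast hm.1
    have hm0 : (0 : ℝ) < m := by linarith
    have hmM' : (m : ℝ) ≤ M := by exact_mod_cast hm.2.le
    have h1 := hlogm m hm.1
    have h2 : Real.log ((m + 1 : ℕ) : ℝ) ≤ Real.log m + 1 / m := by
      have e : (((m + 1 : ℕ) : ℝ)) = m * (1 + 1 / m) := by
        push_cast
        field_simp
      have hpos : (0 : ℝ) < 1 + 1 / m := by positivity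
      rw [e, Real.log_mul hm0.ne' hpos.ne']
      have := Real.log_le_sub_one_of_pos hpos
      linarith
    have h3 : Real.log m ≤ Real.log ((m + 1 : ℕ) : ℝ) :=
      Real.log_le_log hm0 (by push_cast; linarith)
    have h4 : 0 ≤ 1 / Real.log (m : ℝ) - 1 / Real.log ((m + 1 : ℕ) : ℝ) := by
      rw [sub_nonneg]
      exact one_div_le_one_div_of_le (by linarith) h3
    have h5 : 1 / Real.log (m : ℝ) - 1 / Real.log ((m + 1 : ℕ) : ℝ) ≤ 3 / m := by
      have hl : 0 < Real.log (m : ℝ) := by linarith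
      have hl' : 0 < Real.log ((m + 1 : ℕ) : ℝ) := by linarith
      rw [div_sub_div _ _ hl.ne' hl'.ne', div_le_div_iff₀ (by positivity) hm0]
      have h6 : 0.69 * 0.69 ≤ Real.log (m : ℝ) * Real.log ((m + 1 : ℕ) : ℝ) := by
        have : 0.69 ≤ Real.log ((m + 1 : ℕ) : ℝ) := by linarith
        gcongr
      have h7 : (Real.log ((m + 1 : ℕ) : ℝ) - Real.log m) * m ≤ 1 := by
        have : (Real.log ((m + 1 : ℕ) : ℝ) - Real.log m) * m ≤ 1 / m * m := by
          gcongr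
          linarith
        rwa [div_mul_cancel₀ _ hm0.ne'] at this
      nlinarith
    rw [norm_mul, norm_real, Real.norm_of_nonneg h4]
    have h8 := hth m (by omega) hm.2.le
    have h9 : (m : ℝ) ^ a / m ≤ (M : ℝ) ^ (a - 1 / 2) * (1 / √(m : ℝ)) := by
      have e : (m : ℝ) ^ a / m = (m : ℝ) ^ (a - 1 / 2) * (1 / √(m : ℝ)) := by
        have e1 : (m : ℝ) ^ a = (m : ℝ) ^ (a - 1 / 2) * √(m : ℝ) := by
          rw [Real.sqrt_eq_rpow, ← Real.rpow_add hm0]
          congr 1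
          ring
        have e2 : √(m : ℝ) * √(m : ℝ) = m := Real.mul_self_sqrt hm0.le
        have e3 : √(m : ℝ) ≠ 0 := (Real.sqrt_pos.2 hm0).ne'
        rw [e1, div_eq_iff hm0.ne']
        calc (m : ℝ) ^ (a - 1 / 2) * √(m : ℝ) =
            (m : ℝ) ^ (a - 1 / 2) * (1 / √(m : ℝ)) * (√(m : ℝ) * √(m : ℝ)) := by
              field_simp
          _ = _ := by rw [e2]
      rw [e]
      gcongr
    calc _ ≤ W * ((m : ℝ) ^ a + m / V) * (3 / m) := by
          gcongr
      _ = 3 * W * ((m : ℝ) ^ a / m + 1 / V) := by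
          field_simp
      _ ≤ _ := by gcongr
  have b3 : ‖∑ m ∈ Finset.Ico 2 M, thC t m *
      ((1 / Real.log (m : ℝ) - 1 / Real.log ((m + 1 : ℕ) : ℝ) : ℝ) : ℂ)‖ ≤
      3 * W * (2 * ((M : ℝ) ^ a + M / V)) := by
    refine (norm_sum_le_of_le _ b2).trans ?_
    rw [← Finset.mul_sum, Finset.sum_add_distrib, ← Finset.mul_sum, Finset.sum_const,
      Nat.card_Ico, nsmul_eq_mul]
    have s1 := sum_inv_sqrt (M - 1)
    have e1 : M - 1 + 1 = M := by omega
    rw [e1] at s1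
    have s2 : √((M - 1 : ℕ) : ℝ) ≤ √(M : ℝ) := by
      apply Real.sqrt_le_sqrt
      exact_mod_cast (by omega : M - 1 ≤ M)
    have s3 : (M : ℝ) ^ (a - 1 / 2) * ∑ m ∈ Finset.Ico 2 M, 1 / √(m : ℝ) ≤ 2 * (M : ℝ) ^ a := by
      calc _ ≤ (M : ℝ) ^ (a - 1 / 2) * (2 * √(M : ℝ)) := by
            gcongr
            linarith
        _ = 2 * ((M : ℝ) ^ (a - 1 / 2) * (M : ℝ) ^ (1 / 2 : ℝ)) := by
            rw [Real.sqrt_eq_rpow]; ring
        _ = _ := by
            rw [← Real.rpow_add hMp, sub_add_cancel]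
    have s4 : ((M - 2 : ℕ) : ℝ) * (1 / V) ≤ 2 * (M / V) := by
      have h1 : ((M - 2 : ℕ) : ℝ) ≤ M := by exact_mod_cast (by omega : M - 2 ≤ M)
      calc ((M - 2 : ℕ) : ℝ) * (1 / V) ≤ M * (1 / V) := by gcongr
        _ = M / V := by ring
        _ ≤ _ := by
            have : 0 ≤ (M : ℝ) / V := by positivity
            linarith
    gcongr
    linarith
  refine (norm_add_le _ _).trans ?_
  have e : 10 * (C + 2) * (A + L) * L ^ 2 * ((M : ℝ) ^ a + M / V) =
      10 * (W * ((M : ℝ) ^ a + M / V)) := by rw [hW, hQ]; ring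
  rw [e]
  have hWT : 0 ≤ W * ((M : ℝ) ^ a + M / V) := by positivity
  linarith

theorem primeU' {ε : ℝ} (hε : 0 < ε) (hε1 : ε ≤ 1 / 2) :
    ∃ C : ℝ, 1 ≤ C ∧ ∀ (θ t U : ℝ) (M : ℕ), 1 / 2 ≤ θ → θ < 1 → 8 ≤ U → U ≤ t / 2 → 1 ≤ M →
      (∀ s : ℂ, riemannZeta s = 0 → θ < s.re → U < |s.im - t|) →
      ‖P M t‖ ≤ C / (1 - θ) * Real.log (t * M) ^ 3 *
        ((M : ℝ) ^ (θ + ε * (1 - θ)) + M / U ^ (1 - ε)) := by
  obtain ⟨C1, hC1, h1⟩ := Pool.Agent.H76.PS.logdU hε hε1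
  obtain ⟨C2, hC2, h2⟩ := primeV hε hε1
  refine ⟨C2 * (C1 + 1), by nlinarith, ?_⟩
  intro θ t U M hθ hθ1 hU hUt hM hz
  have ht : 16 ≤ t := by linarith
  have hd : 0 < 1 - θ := by linarith
  have hd1 : 1 - θ ≤ 1 := by linarith
  have hU0 : 0 < U := by linarith
  have hM1 : (1 : ℝ) ≤ M := by exact_mod_cast hM
  have hlt : 0 ≤ Real.log t := Real.log_nonneg (by linarith)
  have hltM : Real.log t ≤ Real.log (t * M) := by
    apply Real.log_le_log (by linarith)
    nlinarith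
  have hl0 : 0 ≤ Real.log (t * M) := hlt.trans hltM
  have hA : 0 ≤ C1 * Real.log t / (1 - θ) := by positivity
  have hκ : 0 ≤ ε * (1 - θ) := by positivity
  have hκ1 : ε * (1 - θ) ≤ 1 * (1 - θ) := mul_le_mul_of_nonneg_right (by linarith) hd.le
  have h := h2 (θ + ε * (1 - θ)) t U (C1 * Real.log t / (1 - θ)) M (by linarith) (by linarith)
    hU hUt hM hA (h1 θ t U hθ hθ1 (by linarith) (by linarith) hUt hz)
  refine h.trans ?_
  have hone : 1 ≤ 1 / (1 - θ) := by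
    rw [le_div_iff₀ hd]; linarith
  have hsum : C1 * Real.log t / (1 - θ) + Real.log (t * M) ≤
      (C1 + 1) / (1 - θ) * Real.log (t * M) := by
    have e1 : C1 * Real.log t / (1 - θ) ≤ C1 / (1 - θ) * Real.log (t * M) := by
      rw [mul_div_right_comm]
      exact mul_le_mul_of_nonneg_left hltM (by positivity)
    have e2 : Real.log (t * M) ≤ 1 / (1 - θ) * Real.log (t * M) := by
      nlinarith
    calc _ ≤ C1 / (1 - θ) * Real.log (t * M) + 1 / (1 - θ) * Real.log (t * M) := add_le_add e1 e2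
      _ = _ := by ring
  have hM0 : 0 ≤ (M : ℝ) ^ (θ + ε * (1 - θ)) + M / U ^ (1 - ε) := by positivity
  calc C2 * (C1 * Real.log t / (1 - θ) + Real.log (t * M)) * Real.log (t * M) ^ 2 *
        ((M : ℝ) ^ (θ + ε * (1 - θ)) + M / U ^ (1 - ε))
      ≤ C2 * ((C1 + 1) / (1 - θ) * Real.log (t * M)) * Real.log (t * M) ^ 2 *
        ((M : ℝ) ^ (θ + ε * (1 - θ)) + M / U ^ (1 - ε)) := by gcongr
    _ = _ := by ring

end Pool.Agent.H48.VP
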