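import Mathlib
import Pool.Agent.H76.SV.Main
import Pool.Agent.H48.VP.UncrK

/-!
# VisK: every zero is visible to the primes up to `exp(C √(1-β) log γ)`

From `SV.main` (a zero which is not crowded at the scale `N` is visible in the primes up to `N`)
and `uncrK`.
-/

set_option autoImplicit false

open Complex

namespace Pool.Agent.H48.VP

open Pool.Agent.H76.CR Pool.Agent.H52.Unc

/-- the free parameter version: any `d` with `1 - d ≤ re ρ` -/
theorem visK {ε A B : ℝ} (hε : 0 < ε) (hε1 : ε ≤ 1 / 4) (hA : 0 < A) (hB : 1 ≤ B)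
    (hbd : RB A B) :
    ∃ C : ℝ, 1 ≤ C ∧ ∀ (ρ : ℂ) (d N : ℝ), riemannZeta ρ = 0 → 0 < d → d ≤ 1 / 2 - ε →
      1 - d ≤ ρ.re → C ≤ ρ.im → 1 ≤ N → C * (√d * Real.log ρ.im) ≤ Real.log N →
      C * Real.log (Real.log (ρ.im + N)) ≤ d * Real.log N →
      ∃ M : ℕ, N ^ (1 - ε) ≤ M ∧ (M : ℝ) ≤ N ∧
        (M : ℝ) ^ (ρ.re - ε * d) ≤ ‖pSum M ρ.im‖ := by
  obtain ⟨K, c, C0, hK, hc, hC0, -, hmain⟩ := Pool.Agent.H76.SV.main ε hε hε1
  obtain ⟨C1, hC1, hu⟩ := uncrK hK hε hε1 hc hA hB hbd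
  have hE3 := Real.exp_pos 3
  refine ⟨C0 + C1 + Real.exp 3, by linarith, ?_⟩
  intro ρ d N hρ hd hd1 hre him hN hlog hll
  set γ : ℝ := ρ.im with hγ
  have hγ3 : Real.exp 3 ≤ γ := by linarith
  have hγ0 : 0 < γ := by linarith
  have hN0 : 0 < N := by linarith
  have hlγ : 3 ≤ Real.log γ := by
    rw [Real.le_log_iff_exp_le hγ0]; exact hγ3
  set W : ℝ := Real.log (γ + N) with hW
  have hWγ : Real.log γ ≤ W := Real.log_le_log hγ0 (by linarith)
  have hW3 : 3 ≤ W := hlγ.trans hWγ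
  have hW0 : 0 < W := by linarith
  have hl1 : 1 ≤ Real.log W := by
    rw [Real.le_log_iff_exp_le hW0]
    have := Real.exp_one_lt_d9
    linarith
  have hsq : 0 ≤ √d * Real.log γ := by positivity
  have huu := hu ρ d N hρ hd (by linarith) hre
    (by
      have : 2 * ε * d ≤ 2 * ε * (1 / 2) := by gcongr; linarith
      linarith) (by linarith) hN
    (by
      refine le_trans ?_ hlog
      apply mul_le_mul_of_nonneg_right _ hsq
      linarith)
    (by
      refine le_trans ?_ hll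
      apply mul_le_mul_of_nonneg_right _ (by linarith)
      linarith)
  have hWN : W ^ C0 ≤ N ^ (1 - (1 - d)) := by
    have h1 : 1 - (1 - d) = d := by ring
    rw [h1, Real.rpow_def_of_pos hW0, Real.rpow_def_of_pos hN0]
    apply Real.exp_le_exp.2
    have h2 : C0 * Real.log W ≤ (C0 + C1 + Real.exp 3) * Real.log W :=
      mul_le_mul_of_nonneg_right (by linarith) (by linarith)
    calc Real.log W * C0 = C0 * Real.log W := by ring
      _ ≤ d * Real.log N := h2.trans hll
      _ = Real.log N * d := by ring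
  have h1d : 1 - (1 - d) = d := by ring
  rcases hmain (1 - d) N ρ (by linarith) (by linarith) hN hρ hre (by linarith) hWN with
    hcr | ⟨M, hM1, hM2, hM3⟩
  · exfalso
    rw [h1d] at hcr
    linarith
  · rw [h1d] at hM3
    exact ⟨M, hM1, hM2, hM3⟩

end Pool.Agent.H48.VP
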