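import Mathlib
import Pool.Agent.H48.VP.PrimeV
import Pool.Agent.H48.VP.VisK

/-!
# RegK: prime sums and zeros, both directions, at one height

`regK_back`: small prime sums at height `t` up to `X` exclude zeros with ordinate `t`.
`regK_fwd`: no zeros near height `t` give small prime sums at height `t`.
-/

set_option autoImplicit false

open Complex

namespace Pool.Agent.H48.VP

open Pool.Agent.H76.CR Pool.Agent.H52.Unc

theorem loglog_ge_one {t X : ℝ} (ht : Real.exp (Real.exp 1) ≤ t) (hX : 0 ≤ X) :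
    1 ≤ Real.log (Real.log (t + X)) := by
  have h0 : 0 < t := (Real.exp_pos _).trans_le ht
  have h1 : Real.exp 1 ≤ Real.log (t + X) := by
    rw [Real.le_log_iff_exp_le (by linarith)]; linarith
  rw [Real.le_log_iff_exp_le ((Real.exp_pos 1).trans_le h1)]
  exact h1

theorem regK_back {ε A B : ℝ} (hε : 0 < ε) (hε1 : ε ≤ 1 / 4) (hA : 0 < A) (hB : 1 ≤ B)
    (hbd : RB A B) :
    ∃ C : ℝ, 1 ≤ C ∧ ∀ t η X : ℝ, C ≤ t → 0 < η → η ≤ 1 / 4 → 1 ≤ X →
      C * (√η * Real.log t) ≤ Real.log X →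
      C * Real.log (Real.log (t + X)) ≤ η * Real.log X →
      (∀ M : ℕ, X ^ (1 - ε) ≤ M → (M : ℝ) ≤ X → ‖pSum M t‖ ≤ (M : ℝ) ^ (1 - η)) →
      ∀ ρ : ℂ, riemannZeta ρ = 0 → ρ.im = t → ρ.re ≤ 1 - (1 - ε) * η := by
  obtain ⟨C1, hC1, hvis⟩ := visK hε hε1 hA hB hbd
  have hE := Real.exp_pos (Real.exp 1)
  refine ⟨2 * C1 + Real.exp (Real.exp 1), by linarith, ?_⟩
  intro t η X ht hη hη4 hX hlog hll hsum ρ hρ him
  by_contra hcon
  rw [not_le] at hcon
  have hte : Real.exp (Real.exp 1) ≤ t := by linarith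
  have ht0 : 0 < t := by linarith
  have hLL := loglog_ge_one hte (by linarith : 0 ≤ X)
  have hlt : 0 ≤ Real.log t := by
    apply Real.log_nonneg
    have := Real.add_one_le_exp (Real.exp 1)
    have := Real.exp_pos 1
    linarith
  have hlX : 0 < Real.log X := by
    by_contra hneg
    rw [not_lt] at hneg
    have h1 : η * Real.log X ≤ 0 := mul_nonpos_of_nonneg_of_nonpos hη.le hneg
    have h2 : 0 < (2 * C1 + Real.exp (Real.exp 1)) * Real.log (Real.log (t + X)) := by positivity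
    linarith
  have hX1 : 1 < X := by
    by_contra hneg
    rw [not_lt] at hneg
    have := Real.log_nonpos (by linarith) hneg
    linarith
  set d : ℝ := (1 - ε) * η with hd
  have hd0 : 0 < d := mul_pos (by linarith) hη
  have hdη : d ≤ η := by
    have : (1 - ε) * η ≤ 1 * η := mul_le_mul_of_nonneg_right (by linarith) hη.le
    linarith
  have hdη2 : η ≤ 2 * d := by
    have : 3 / 4 * η ≤ (1 - ε) * η := mul_le_mul_of_nonneg_right (by linarith) hη.le
    linarith
  subst him
  obtain ⟨M, hM1, hM2, hM3⟩ := hvis ρ d X hρ hd0 (by linarith) (by linarith) (by linarith) hX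
    (by
      refine le_trans ?_ hlog
      have h1 : √d ≤ √η := Real.sqrt_le_sqrt hdη
      apply mul_le_mul (by linarith) _ (by positivity) (by linarith)
      exact mul_le_mul_of_nonneg_right h1 hlt)
    (by
      have h1 : 2 * C1 * Real.log (Real.log (ρ.im + X)) ≤ 2 * d * Real.log X := by
        calc 2 * C1 * Real.log (Real.log (ρ.im + X))
            ≤ (2 * C1 + Real.exp (Real.exp 1)) * Real.log (Real.log (ρ.im + X)) :=
              mul_le_mul_of_nonneg_right (by linarith) (by linarith)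
          _ ≤ η * Real.log X := hll
          _ ≤ 2 * d * Real.log X := mul_le_mul_of_nonneg_right hdη2 hlX.le
      linarith)
  have hM1' : 1 < (M : ℝ) := (Real.one_lt_rpow hX1 (by linarith)).trans_le hM1
  have h1 := hsum M hM1 hM2
  have h2 : (M : ℝ) ^ (1 - η) < (M : ℝ) ^ (ρ.re - ε * d) := by
    apply Real.rpow_lt_rpow_of_exponent_lt hM1'
    have h3 : d + ε * d ≤ η := by
      have : 0 ≤ ε ^ 2 * η := by positivity
      have h4 : d + ε * d = η - ε ^ 2 * η := by rw [hd]; ring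
      linarith
    linarith
  linarith

theorem regK_fwd {ε : ℝ} (hε : 0 < ε) (hε1 : ε ≤ 1 / 4) :
    ∃ C : ℝ, 1 ≤ C ∧ ∀ t η X U : ℝ, C ≤ t → 0 < η → η ≤ 1 / 4 → 1 ≤ X →
      C * Real.log (Real.log (t + X)) ≤ η * Real.log X → 8 ≤ U → U ≤ t / 2 →
      X ^ η ≤ 2 * U →
      (∀ s : ℂ, riemannZeta s = 0 → 1 - η < s.re → U < |s.im - t|) →
      ∀ M : ℕ, X ^ (1 - ε) ≤ M → (M : ℝ) ≤ X → ‖pSum M t‖ ≤ (M : ℝ) ^ (1 - (1 - 2 * ε) * η) := by
  obtain ⟨C2, hC2, hprime⟩ := primeU' hε (by linarith : ε ≤ 1 / 2)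
  have hE := Real.exp_pos (Real.exp 1)
  have hl12 : 0 ≤ Real.log (24 * C2) := Real.log_nonneg (by linarith)
  set D : ℝ := 2 / ε * (Real.log (24 * C2) + 4) with hD
  have hD0 : 0 ≤ D := by rw [hD]; positivity
  refine ⟨1 + D + Real.exp (Real.exp 1), by linarith, ?_⟩
  intro t η X U ht hη hη4 hX hll hU hUt hXU hz M hM1 hM2
  have hte : Real.exp (Real.exp 1) ≤ t := by linarith
  have ht0 : 0 < t := by linarith
  have hX0 : 0 < X := by linarith
  have hLL := loglog_ge_one hte hX0.le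
  set W : ℝ := Real.log (t + X) with hW
  have hM0 : 0 < (M : ℝ) := (Real.rpow_pos_of_pos hX0 _).trans_le hM1
  have hMN : 1 ≤ M := by
    have : 0 < M := by exact_mod_cast hM0
    omega
  have hM1' : 1 ≤ (M : ℝ) := by exact_mod_cast hMN
  have ht1 : 1 ≤ t := by
    have := Real.add_one_le_exp (Real.exp 1)
    have := Real.exp_pos 1
    linarith
  have hW0 : 0 < W := Real.log_pos (by linarith)
  have hlt : Real.log t ≤ W := Real.log_le_log ht0 (by linarith)
  have hlt0 : 0 ≤ Real.log t := Real.log_nonneg ht1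
  have hlX : Real.log X ≤ W := Real.log_le_log hX0 (by linarith)
  have hlX0 : 0 ≤ Real.log X := Real.log_nonneg hX
  have hlM : Real.log M ≤ Real.log X := Real.log_le_log hM0 hM2
  have hlM0 : 0 ≤ Real.log M := Real.log_nonneg hM1'
  have hltM : Real.log (t * M) ≤ 2 * W := by
    rw [Real.log_mul ht0.ne' hM0.ne']; linarith
  have hltM0 : 0 ≤ Real.log (t * M) := by
    rw [Real.log_mul ht0.ne' hM0.ne']; linarith
  have hbd := hprime (1 - η) t U M (by linarith) (by linarith) hU hUt hMN hz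
  refine hbd.trans ?_
  -- `1 ≤ η log X`
  have hCpos : 1 ≤ 1 + D + Real.exp (Real.exp 1) := by linarith
  have hηX : 1 ≤ η * Real.log X := by
    calc (1 : ℝ) = 1 * 1 := (mul_one 1).symm
      _ ≤ (1 + D + Real.exp (Real.exp 1)) * Real.log W :=
        mul_le_mul hCpos hLL zero_le_one (by linarith)
      _ ≤ _ := hll
  have h1η : 1 - (1 - η) = η := by ring
  have hinv : C2 / (1 - (1 - η)) ≤ C2 * W := by
    rw [h1η, div_le_iff₀ hη]
    have h1 : 1 ≤ W * η := by
      calc (1 : ℝ) ≤ η * Real.log X := hηX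
        _ ≤ η * W := mul_le_mul_of_nonneg_left hlX hη.le
        _ = W * η := mul_comm _ _
    calc C2 = C2 * 1 := (mul_one _).symm
      _ ≤ C2 * (W * η) := mul_le_mul_of_nonneg_left h1 (by linarith)
      _ = _ := by ring
  have hlog2 : Real.log (t * M) ^ 3 ≤ (2 * W) ^ 3 := pow_le_pow_left₀ hltM0 hltM 3
  -- the two terms
  set e : ℝ := 1 - (1 - ε) * η with he
  have hA1 : (M : ℝ) ^ (1 - η + ε * (1 - (1 - η))) = (M : ℝ) ^ e := by
    congr 1
    rw [he]; ring
  have hB0 : 0 < (M : ℝ) ^ e := Real.rpow_pos_of_pos hM0 _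
  have hU0 : 0 < U := by linarith
  have hV : 0 < U ^ (1 - ε) := Real.rpow_pos_of_pos hU0 _
  have hA2 : (M : ℝ) / U ^ (1 - ε) ≤ 2 * (M : ℝ) ^ e := by
    rw [div_le_iff₀ hV]
    have h5 : (M : ℝ) = (M : ℝ) ^ e * ((M : ℝ) ^ η) ^ (1 - ε) := by
      rw [← Real.rpow_mul hM0.le, ← Real.rpow_add hM0, he]
      have : 1 - (1 - ε) * η + η * (1 - ε) = 1 := by ring
      rw [this, Real.rpow_one]
    have h6 : (M : ℝ) ^ η ≤ 2 * U := (Real.rpow_le_rpow hM0.le hM2 hη.le).trans hXU
    have h7 : ((M : ℝ) ^ η) ^ (1 - ε) ≤ 2 * U ^ (1 - ε) := by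
      calc ((M : ℝ) ^ η) ^ (1 - ε) ≤ (2 * U) ^ (1 - ε) :=
            Real.rpow_le_rpow (Real.rpow_nonneg hM0.le _) h6 (by linarith)
        _ = 2 ^ (1 - ε) * U ^ (1 - ε) := Real.mul_rpow (by norm_num) hU0.le
        _ ≤ 2 ^ (1 : ℝ) * U ^ (1 - ε) := by
            apply mul_le_mul_of_nonneg_right _ hV.le
            exact Real.rpow_le_rpow_of_exponent_le (by norm_num) (by linarith)
        _ = 2 * U ^ (1 - ε) := by rw [Real.rpow_one]
    calc (M : ℝ) = (M : ℝ) ^ e * ((M : ℝ) ^ η) ^ (1 - ε) := h5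
      _ ≤ (M : ℝ) ^ e * (2 * U ^ (1 - ε)) := mul_le_mul_of_nonneg_left h7 hB0.le
      _ = _ := by ring
  -- the logarithms are absorbed
  have habs : 24 * C2 * W ^ 4 ≤ (M : ℝ) ^ (ε * η) := by
    have hlM2 : 1 / 2 * Real.log X ≤ Real.log M := by
      have h5 := Real.log_le_log (Real.rpow_pos_of_pos hX0 _) hM1
      rw [Real.log_rpow hX0] at h5
      refine le_trans ?_ h5
      apply mul_le_mul_of_nonneg_right _ hlX0
      linarith
    have h1 : Real.log (24 * C2 * W ^ 4) ≤ ε * η * Real.log M := by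
      rw [Real.log_mul (by positivity) (by positivity), Real.log_pow]
      push_cast
      have h2 : Real.log (24 * C2) + 4 * Real.log W ≤ (Real.log (24 * C2) + 4) * Real.log W := by
        have : Real.log (24 * C2) ≤ Real.log (24 * C2) * Real.log W :=
          le_mul_of_one_le_right hl12 hLL
        linarith
      have h3 : (Real.log (24 * C2) + 4) * Real.log W ≤ ε / 2 * (η * Real.log X) := by
        have h4 : D * Real.log W ≤ η * Real.log X := by
          refine le_trans ?_ hll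
          apply mul_le_mul_of_nonneg_right _ (by linarith)
          linarith
        have h5 : ε / 2 * (D * Real.log W) ≤ ε / 2 * (η * Real.log X) :=
          mul_le_mul_of_nonneg_left h4 (by positivity)
        have h6 : ε / 2 * (D * Real.log W) = (Real.log (24 * C2) + 4) * Real.log W := by
          rw [hD]; field_simp
        linarith
      have h4 : ε / 2 * (η * Real.log X) ≤ ε * η * Real.log M := by
        calc ε / 2 * (η * Real.log X) = ε * η * (1 / 2 * Real.log X) := by ring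
          _ ≤ ε * η * Real.log M := mul_le_mul_of_nonneg_left hlM2 (by positivity)
      linarith
    rw [Real.log_le_iff_le_exp (by positivity)] at h1
    rw [Real.rpow_def_of_pos hM0]
    calc _ ≤ Real.exp (ε * η * Real.log M) := h1
      _ = _ := by rw [mul_comm]
  rw [hA1]
  calc C2 / (1 - (1 - η)) * Real.log (t * M) ^ 3 * ((M : ℝ) ^ e + M / U ^ (1 - ε))
      ≤ C2 * W * (2 * W) ^ 3 * ((M : ℝ) ^ e + 2 * (M : ℝ) ^ e) := by
        apply mul_le_mul (mul_le_mul hinv hlog2 (by positivity) (by positivity))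
          (add_le_add le_rfl hA2) (by positivity) (by positivity)
    _ = 24 * C2 * W ^ 4 * (M : ℝ) ^ e := by ring
    _ ≤ (M : ℝ) ^ (ε * η) * (M : ℝ) ^ e := mul_le_mul_of_nonneg_right habs hB0.le
    _ = (M : ℝ) ^ (1 - (1 - 2 * ε) * η) := by
        rw [← Real.rpow_add hM0]
        congr 1
        rw [he]
        ring

end Pool.Agent.H48.VP
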