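import Mathlib
import Pool.Agent.H48.VP.RegK
import Pool.Agent.H48.VP.Defs

/-!
# Shape: zero-free regions and prime sums, scale function `X(t)`
-/

set_option autoImplicit false

open Complex

namespace Pool.Agent.H48.VP

open Pool.Agent.H76.CR Pool.Agent.H52.Unc

theorem shape_back {ε A B : ℝ} (hε : 0 < ε) (hε1 : ε ≤ 1 / 4) (hA : 0 < A) (hB : 1 ≤ B)
    (hbd : RB A B) :
    ∃ C : ℝ, 1 ≤ C ∧ ∀ (η X : ℝ → ℝ) (t0 : ℝ), Scale C t0 η X → PrimeSaving ε 1 t0 η X →
      Region (1 - ε) (max t0 C) η := by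
  obtain ⟨C, hC, h⟩ := regK_back hε hε1 hA hB hbd
  refine ⟨C, hC, ?_⟩
  intro η X t0 hs hp ρ hρ him
  have h0 : t0 ≤ ρ.im := (le_max_left _ _).trans him
  obtain ⟨a1, a2, a3, a4, a5⟩ := hs ρ.im h0
  refine h ρ.im (η ρ.im) (X ρ.im) ((le_max_right _ _).trans him) a1 a2 a3 a4 a5 ?_ ρ hρ rfl
  intro M hM1 hM2
  have := hp ρ.im M h0 hM1 hM2
  rwa [one_mul] at this

theorem shape_fwd {ε : ℝ} (hε : 0 < ε) (hε1 : ε ≤ 1 / 4) :
    ∃ C : ℝ, 1 ≤ C ∧ ∀ (η X : ℝ → ℝ) (t0 : ℝ), Scale C t0 η X →
      (∀ t : ℝ, t0 ≤ t → η t * Real.log (X t) ≤ Real.log t) →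
      (∀ t t' : ℝ, t0 ≤ t → t / 2 ≤ t' → t' ≤ 2 * t → (1 - ε) * η t ≤ η t') →
      Region 1 t0 η → PrimeSaving ε (1 - 3 * ε) (max (2 * t0) C) η X := by
  obtain ⟨C, hC, h⟩ := regK_fwd hε hε1
  refine ⟨2 * C + 16, by linarith, ?_⟩
  intro η X t0 hs hup hreg hz t M ht hM1 hM2
  have ht1 : 2 * t0 ≤ t := (le_max_left _ _).trans ht
  have ht2 : 2 * C + 16 ≤ t := (le_max_right _ _).trans ht
  have ht0 : t0 ≤ t := by
    by_contra hcon
    rw [not_le] at hcon
    linarith
  have htpos : 0 < t := by linarith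
  obtain ⟨a1, a2, a3, a4, a5⟩ := hs t ht0
  have hX0 : 0 < X t := by linarith
  have hlX0 : 0 ≤ Real.log (X t) := Real.log_nonneg a3
  set e : ℝ := (1 - ε) * η t with he
  have he0 : 0 < e := mul_pos (by linarith) a1
  have heη : e ≤ η t := by
    have : (1 - ε) * η t ≤ 1 * η t := mul_le_mul_of_nonneg_right (by linarith) a1.le
    linarith
  have heη2 : η t ≤ 2 * e := by
    have : 3 / 4 * η t ≤ (1 - ε) * η t := mul_le_mul_of_nonneg_right (by linarith) a1.le
    linarith
  have hLLle : C * Real.log (Real.log (t + X t)) ≤ e * Real.log (X t) := by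
    rcases le_total 0 (Real.log (Real.log (t + X t))) with hLL | hLL
    · have h1 : 2 * C * Real.log (Real.log (t + X t)) ≤ 2 * e * Real.log (X t) := by
        calc 2 * C * Real.log (Real.log (t + X t))
            ≤ (2 * C + 16) * Real.log (Real.log (t + X t)) :=
              mul_le_mul_of_nonneg_right (by linarith) hLL
          _ ≤ η t * Real.log (X t) := a5
          _ ≤ 2 * e * Real.log (X t) := mul_le_mul_of_nonneg_right heη2 hlX0
      linarith
    · have h1 : C * Real.log (Real.log (t + X t)) ≤ 0 :=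
        mul_nonpos_of_nonneg_of_nonpos (by linarith) hLL
      have h2 : 0 ≤ e * Real.log (X t) := mul_nonneg he0.le hlX0
      linarith
  have hXU : X t ^ e ≤ 2 * (t / 2) := by
    have h1 : 2 * (t / 2) = t := by ring
    rw [h1, ← Real.log_le_log_iff (Real.rpow_pos_of_pos hX0 _) htpos, Real.log_rpow hX0]
    have h2 := hup t ht0
    have h3 : e * Real.log (X t) ≤ η t * Real.log (X t) := mul_le_mul_of_nonneg_right heη hlX0
    linarith
  have hmain := h t e (X t) (t / 2) (by linarith) he0 (by linarith) a3 hLLle (by linarith) le_rfl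
    hXU (by
      intro s hs0 hre
      by_contra hcon
      rw [not_lt, abs_le] at hcon
      have h1 : t / 2 ≤ s.im := by linarith [hcon.1]
      have h2 : s.im ≤ 2 * t := by linarith [hcon.2]
      have h3 := hz s hs0 (by linarith)
      have h4 := hreg t s.im ht0 h1 h2
      linarith) M hM1 hM2
  refine hmain.trans ?_
  have hM0 : 0 < (M : ℝ) := (Real.rpow_pos_of_pos hX0 _).trans_le hM1
  have hM1' : 1 ≤ (M : ℝ) := by
    have : 0 < M := by exact_mod_cast hM0
    exact_mod_cast this
  apply Real.rpow_le_rpow_of_exponent_le hM1'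
  have h1 : (1 - 2 * ε) * e = (1 - 3 * ε) * η t + 2 * ε ^ 2 * η t := by rw [he]; ring
  have h2 : 0 ≤ 2 * ε ^ 2 * η t := by positivity
  linarith

/-- the smallest scale: `X(t) = exp(√(C η(t)) log t)` -/
theorem scale_min {C1 : ℝ} (hC1 : 1 ≤ C1) :
    ∃ C2 : ℝ, 1 ≤ C2 ∧ ∀ C : ℝ, C2 ≤ C → ∀ (η : ℝ → ℝ) (t0 : ℝ), Real.exp (Real.exp 1) ≤ t0 →
      (∀ t : ℝ, t0 ≤ t → 0 ≤ η t ∧ η t ≤ 1 / C ∧
        Real.log (Real.log t) ≤ η t * √(η t) * Real.log t) →
      Scale C1 t0 η (fun t => Real.exp (√(C * η t) * Real.log t)) ∧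
      (∀ t : ℝ, t0 ≤ t →
        η t * Real.log (Real.exp (√(C * η t) * Real.log t)) ≤ Real.log t) := by
  refine ⟨4 * C1 ^ 2 + 4, by nlinarith [one_le_pow₀ hC1 (n := 2)], ?_⟩
  intro C hC η t0 ht0 hη
  have hC1p : 1 ≤ C1 ^ 2 := one_le_pow₀ hC1
  have hC0 : 0 < C := by linarith
  have hsC : 2 * C1 ≤ √C := by
    apply Real.le_sqrt_of_sq_le
    have : (2 * C1) ^ 2 = 4 * C1 ^ 2 := by ring
    linarith
  -- common facts
  have key : ∀ t : ℝ, t0 ≤ t → 0 < η t ∧ η t ≤ 1 / 4 ∧ 1 ≤ Real.log t ∧
      1 ≤ Real.log (Real.log t) ∧ √(C * η t) ≤ 1 ∧ √(C * η t) = √C * √(η t) := by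
    intro t ht
    obtain ⟨b1, b2, b3⟩ := hη t ht
    have hte : Real.exp (Real.exp 1) ≤ t := ht0.trans ht
    have htpos : 0 < t := (Real.exp_pos _).trans_le hte
    have hlt : Real.exp 1 ≤ Real.log t := by
      rw [Real.le_log_iff_exp_le htpos]; exact hte
    have hlt0 : 0 < Real.log t := (Real.exp_pos 1).trans_le hlt
    have hllt : 1 ≤ Real.log (Real.log t) := by
      rw [Real.le_log_iff_exp_le hlt0]; exact hlt
    have he1 : (1 : ℝ) + 1 ≤ Real.exp 1 := Real.add_one_le_exp 1
    have hη0 : 0 < η t := by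
      rcases b1.lt_or_eq with h | h
      · exact h
      · rw [← h] at b3
        simp at b3
        linarith
    refine ⟨hη0, b2.trans (one_div_le_one_div_of_le (by norm_num) (by linarith)), by linarith,
      hllt, ?_, Real.sqrt_mul hC0.le _⟩
    rw [le_div_iff₀ hC0] at b2
    exact Real.sqrt_le_one.2 (by linarith)
  constructor
  · intro t ht
    obtain ⟨c1, c2, c3, c4, c5, c6⟩ := key t ht
    obtain ⟨b1, b2, b3⟩ := hη t ht
    have htpos : 0 < t := ((Real.exp_pos _).trans_le ht0).trans_le ht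
    have ht1 : 1 ≤ t := by
      by_contra hneg
      rw [not_le] at hneg
      have := Real.log_neg htpos hneg
      linarith
    have hX1 : 1 ≤ Real.exp (√(C * η t) * Real.log t) := Real.one_le_exp (by positivity)
    have hXt : Real.exp (√(C * η t) * Real.log t) ≤ t := by
      calc Real.exp (√(C * η t) * Real.log t) ≤ Real.exp (1 * Real.log t) := by
            apply Real.exp_le_exp.2
            exact mul_le_mul_of_nonneg_right c5 (by linarith)
        _ = t := by rw [one_mul, Real.exp_log htpos]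
    refine ⟨c1, c2, hX1, ?_, ?_⟩
    · rw [Real.log_exp, c6]
      have h1 : C1 ≤ √C := by linarith
      calc C1 * (√(η t) * Real.log t) ≤ √C * (√(η t) * Real.log t) :=
            mul_le_mul_of_nonneg_right h1 (by positivity)
        _ = _ := by ring
    · rw [Real.log_exp]
      have h1 : Real.log (t + Real.exp (√(C * η t) * Real.log t)) ≤ Real.log t ^ 2 := by
        have h2 : Real.log (t + Real.exp (√(C * η t) * Real.log t)) ≤ Real.log (2 * t) :=
          Real.log_le_log (by linarith) (by linarith)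
        rw [Real.log_mul (by norm_num) htpos.ne'] at h2
        have h3 : Real.log 2 ≤ 1 := by
          have := Real.log_two_lt_d9
          linarith
        have h4 : 2 ≤ Real.log t := by
          have hlt : Real.exp 1 ≤ Real.log t := by
            rw [Real.le_log_iff_exp_le htpos]; exact ht0.trans ht
          have he1 : (1 : ℝ) + 1 ≤ Real.exp 1 := Real.add_one_le_exp 1
          linarith
        nlinarith
      have h2 : Real.log (Real.log (t + Real.exp (√(C * η t) * Real.log t))) ≤
          2 * Real.log (Real.log t) := by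
        have h3 : 0 < Real.log (t + Real.exp (√(C * η t) * Real.log t)) :=
          Real.log_pos (by linarith)
        have h4 := Real.log_le_log h3 h1
        rw [Real.log_pow] at h4
        push_cast at h4
        exact h4
      calc C1 * Real.log (Real.log (t + Real.exp (√(C * η t) * Real.log t)))
          ≤ C1 * (2 * Real.log (Real.log t)) := mul_le_mul_of_nonneg_left h2 (by linarith)
        _ = 2 * C1 * Real.log (Real.log t) := by ring
        _ ≤ √C * (η t * √(η t) * Real.log t) :=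
            mul_le_mul hsC b3 (by linarith) (by linarith)
        _ = η t * (√(C * η t) * Real.log t) := by rw [c6]; ring
  · intro t ht
    obtain ⟨c1, c2, c3, c4, c5, c6⟩ := key t ht
    rw [Real.log_exp]
    have h1 : η t * (√(C * η t) * Real.log t) ≤ 1 / 4 * (1 * Real.log t) := by
      apply mul_le_mul c2 _ (by positivity) (by norm_num)
      exact mul_le_mul_of_nonneg_right c5 (by linarith)
    linarith

end Pool.Agent.H48.VP
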