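import Mathlib
import Pool.Agent.H76.PS.Vis
import Pool.Agent.H48.VP.VisK

/-!
# VisS: visibility at every scale, with a power of the logarithm as loss

`visK` with `d = max (1 - β) (C loglog (γ+N)/log N)`.
-/

set_option autoImplicit false

open Complex

namespace Pool.Agent.H48.VP

open Pool.Agent.H76.CR Pool.Agent.H52.Unc

theorem visS {ε A B : ℝ} (hε : 0 < ε) (hε1 : ε ≤ 1 / 4) (hA : 0 < A) (hB : 1 ≤ B)
    (hbd : RB A B) :
    ∃ C : ℝ, 1 ≤ C ∧ ∀ (ρ : ℂ) (N : ℝ), riemannZeta ρ = 0 → 1 / 2 + ε ≤ ρ.re → C ≤ ρ.im →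
      1 ≤ N → C * (√(1 - ρ.re) * Real.log ρ.im) ≤ Real.log N →
      C * (Real.log ρ.im ^ 2 * Real.log (Real.log ρ.im)) ≤ Real.log N ^ 3 →
      ∃ M : ℕ, N ^ (1 - ε) ≤ M ∧ (M : ℝ) ≤ N ∧
        (M : ℝ) ^ (ρ.re - ε * (1 - ρ.re)) ≤ Real.log (ρ.im + N) ^ C * ‖pSum M ρ.im‖ := by
  obtain ⟨C1, hC1, hvis⟩ := visK hε hε1 hA hB hbd
  have hC1p : 1 ≤ C1 ^ 3 := one_le_pow₀ hC1
  have hC13 : C1 ≤ C1 ^ 3 := le_self_pow₀ hC1 (by norm_num)
  obtain ⟨Y0, hY0, hY⟩ := Pool.Agent.H76.PS.log_dom (2 * C1 ^ 3) (Real.log 2) (1 / 4) (by norm_num)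
  have hE3 := Real.exp_pos 3
  refine ⟨2 * C1 ^ 3 + Y0 ^ 3 + Real.exp 3, by nlinarith [one_le_pow₀ hY0 (n := 3)], ?_⟩
  set C : ℝ := 2 * C1 ^ 3 + Y0 ^ 3 + Real.exp 3 with hC
  have hY03 : 1 ≤ Y0 ^ 3 := one_le_pow₀ hY0
  intro ρ N hρ hre him hN hlog hcub
  set γ : ℝ := ρ.im with hγ
  set L : ℝ := Real.log N with hL
  have hCpos : 0 < C := by linarith
  have hγ3 : Real.exp 3 ≤ γ := by linarith
  have hγ0 : 0 < γ := by linarith
  have hN0 : 0 < N := by linarith
  have hlγ : 3 ≤ Real.log γ := by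
    rw [Real.le_log_iff_exp_le hγ0]; exact hγ3
  have hlγ0 : 0 < Real.log γ := by linarith
  have hllγ : 1 ≤ Real.log (Real.log γ) := by
    rw [Real.le_log_iff_exp_le hlγ0]
    have := Real.exp_one_lt_d9
    linarith
  have hL0' : 0 ≤ L := Real.log_nonneg hN
  have hsq1 : 1 ≤ Real.log γ ^ 2 := one_le_pow₀ (by linarith)
  -- `(log γ)^2 ≤ L^3`, `Y0 ≤ L`
  have hprod : Real.log γ ^ 2 ≤ Real.log γ ^ 2 * Real.log (Real.log γ) :=
    le_mul_of_one_le_right (by positivity) hllγ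
  have hLY : Y0 ≤ L := by
    have h1 : Y0 ^ 3 ≤ L ^ 3 := by
      calc Y0 ^ 3 = Y0 ^ 3 * 1 := (mul_one _).symm
        _ ≤ C * (Real.log γ ^ 2 * Real.log (Real.log γ)) :=
          mul_le_mul (by linarith) (hsq1.trans hprod) zero_le_one hCpos.le
        _ ≤ L ^ 3 := hcub
    exact (pow_le_pow_iff_left₀ (by linarith) hL0' (by norm_num)).1 h1
  have hL1 : 1 ≤ L := hY0.trans hLY
  have hLpos : 0 < L := by linarith
  have hγL : Real.log γ ^ 2 ≤ L ^ 3 := by
    calc Real.log γ ^ 2 ≤ Real.log γ ^ 2 * Real.log (Real.log γ) := hprod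
      _ ≤ C * (Real.log γ ^ 2 * Real.log (Real.log γ)) :=
          le_mul_of_one_le_left (by positivity) (by linarith)
      _ ≤ L ^ 3 := hcub
  have hllL : Real.log (Real.log γ) ≤ 3 / 2 * Real.log L := by
    have h1 := Real.log_le_log (by positivity) hγL
    rw [Real.log_pow, Real.log_pow] at h1
    push_cast at h1
    linarith
  have hlL0 : 0 ≤ Real.log L := Real.log_nonneg hL1
  set W : ℝ := Real.log (γ + N) with hW
  have hWγ : Real.log γ ≤ W := Real.log_le_log hγ0 (by linarith)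
  have hW0 : 0 < W := by linarith
  set l : ℝ := Real.log W with hl
  have hl1 : 1 ≤ l := by
    rw [hl, Real.le_log_iff_exp_le hW0]
    have := Real.exp_one_lt_d9
    linarith
  have hl2 : Real.log 2 ≤ 1 := by
    have := Real.log_two_lt_d9
    linarith
  have hl20 : 0 ≤ Real.log 2 := Real.log_nonneg (by norm_num)
  -- the two cases
  have hcase : l ≤ 2 * (Real.log 2 + Real.log L) ∧ C1 ^ 3 * (l * Real.log γ ^ 2) ≤ L ^ 3 := by
    rcases le_total N γ with hcs | hcs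
    · have h1 : W ≤ 2 * Real.log γ := by
        have h2 : W ≤ Real.log (2 * γ) := Real.log_le_log (by linarith) (by linarith)
        rw [Real.log_mul (by norm_num) hγ0.ne'] at h2
        linarith
      have h2 : l ≤ Real.log 2 + Real.log (Real.log γ) := by
        rw [← Real.log_mul (by norm_num) hlγ0.ne']
        exact Real.log_le_log hW0 h1
      refine ⟨by linarith, ?_⟩
      calc C1 ^ 3 * (l * Real.log γ ^ 2)
          ≤ C1 ^ 3 * ((2 * Real.log (Real.log γ)) * Real.log γ ^ 2) := by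
            gcongr
            linarith
        _ = 2 * C1 ^ 3 * (Real.log γ ^ 2 * Real.log (Real.log γ)) := by ring
        _ ≤ C * (Real.log γ ^ 2 * Real.log (Real.log γ)) := by
            apply mul_le_mul_of_nonneg_right _ (by positivity)
            linarith
        _ ≤ L ^ 3 := hcub
    · have h1 : W ≤ 2 * L := by
        have h2 : W ≤ Real.log (2 * N) := Real.log_le_log (by linarith) (by linarith)
        rw [Real.log_mul (by norm_num) hN0.ne'] at h2
        linarith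
      have h2 : l ≤ Real.log 2 + Real.log L := by
        rw [← Real.log_mul (by norm_num) hLpos.ne']
        exact Real.log_le_log hW0 h1
      refine ⟨by linarith, ?_⟩
      have h3 : Real.log γ ≤ L := Real.log_le_log hγ0 hcs
      have h4 := hY L hLY
      have h5 : C1 ^ 3 * l ≤ L := by
        have : C1 ^ 3 * l ≤ C1 ^ 3 * (Real.log 2 + Real.log L) :=
          mul_le_mul_of_nonneg_left h2 (by linarith)
        have h6 : C1 ^ 3 * (Real.log 2 + Real.log L) * 2 ≤ 1 / 4 * L := by linarith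
        have h7 : 0 ≤ C1 ^ 3 * (Real.log 2 + Real.log L) := by positivity
        linarith
      calc C1 ^ 3 * (l * Real.log γ ^ 2) = (C1 ^ 3 * l) * Real.log γ ^ 2 := by ring
        _ ≤ L * L ^ 2 := by
            apply mul_le_mul h5 _ (by positivity) hLpos.le
            exact pow_le_pow_left₀ hlγ0.le h3 2
        _ = L ^ 3 := by ring
  obtain ⟨hlL, hC1L⟩ := hcase
  set d0 : ℝ := C1 * l / L with hd0
  have hd0pos : 0 < d0 := by positivity
  have hd0N : d0 * L = C1 * l := by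
    rw [hd0]; field_simp
  have hd04 : d0 ≤ 1 / 4 := by
    rw [hd0, div_le_iff₀ hLpos]
    calc C1 * l ≤ C1 ^ 3 * (2 * (Real.log 2 + Real.log L)) :=
          mul_le_mul hC13 hlL (by linarith) (by linarith)
      _ = 2 * C1 ^ 3 * (Real.log 2 + Real.log L) := by ring
      _ ≤ 1 / 4 * L := hY L hLY
  have hd0s : C1 * (√d0 * Real.log γ) ≤ L := by
    have h1 : (C1 * (√d0 * Real.log γ)) ^ 2 ≤ L ^ 2 := by
      have h2 : (C1 * (√d0 * Real.log γ)) ^ 2 = C1 ^ 2 * d0 * Real.log γ ^ 2 := by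
        rw [mul_pow, mul_pow, Real.sq_sqrt hd0pos.le]; ring
      rw [h2]
      have h3 : C1 ^ 2 * d0 * Real.log γ ^ 2 * L ≤ L ^ 2 * L := by
        calc C1 ^ 2 * d0 * Real.log γ ^ 2 * L = C1 ^ 2 * (d0 * L) * Real.log γ ^ 2 := by ring
          _ = C1 ^ 3 * (l * Real.log γ ^ 2) := by rw [hd0N]; ring
          _ ≤ L ^ 3 := hC1L
          _ = L ^ 2 * L := by ring
      exact le_of_mul_le_mul_right h3 hLpos
    exact (pow_le_pow_iff_left₀ (by positivity) hLpos.le (by norm_num)).1 h1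
  have hre1 : ρ.re < 1 := re_lt_one hρ
  set d : ℝ := max (1 - ρ.re) d0 with hd
  have hdd0 : d0 ≤ d := le_max_right _ _
  have hdβ : 1 - ρ.re ≤ d := le_max_left _ _
  have hdpos : 0 < d := hd0pos.trans_le hdd0
  have hd2 : d ≤ 1 / 2 - ε := max_le (by linarith) (by linarith)
  have hCC1 : C1 ≤ C := by linarith
  have hds : C1 * (√d * Real.log γ) ≤ L := by
    rcases le_total (1 - ρ.re) d0 with h | h
    · rw [hd, max_eq_right h]; exact hd0s
    · rw [hd, max_eq_left h]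
      refine le_trans ?_ hlog
      apply mul_le_mul_of_nonneg_right hCC1 (by positivity)
  have hdl : C1 * l ≤ d * L := by
    rw [← hd0N]
    exact mul_le_mul_of_nonneg_right hdd0 hLpos.le
  obtain ⟨M, hM1, hM2, hM3⟩ := hvis ρ d N hρ hdpos hd2 (by linarith) (by linarith) hN hds hdl
  refine ⟨M, hM1, hM2, ?_⟩
  have hM0 : 0 < (M : ℝ) := (Real.rpow_pos_of_pos hN0 _).trans_le hM1
  have e1 : ρ.re - ε * (1 - ρ.re) = (ρ.re - ε * d) + ε * (d - (1 - ρ.re)) := by ring
  have hdiff : d - (1 - ρ.re) ≤ d0 := by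
    have : d ≤ d0 + (1 - ρ.re) := max_le (by linarith) (by linarith)
    linarith
  have hdiff0 : 0 ≤ d - (1 - ρ.re) := by linarith
  have hW1 : 1 ≤ W := by linarith
  have e2 : (M : ℝ) ^ (ε * (d - (1 - ρ.re))) ≤ W ^ C := by
    calc (M : ℝ) ^ (ε * (d - (1 - ρ.re))) ≤ N ^ (ε * (d - (1 - ρ.re))) :=
          Real.rpow_le_rpow hM0.le hM2 (by positivity)
      _ ≤ N ^ d0 := by
          apply Real.rpow_le_rpow_of_exponent_le hN
          calc ε * (d - (1 - ρ.re)) ≤ 1 * d0 :=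
                mul_le_mul (by linarith) hdiff hdiff0 zero_le_one
            _ = d0 := one_mul _
      _ = W ^ C1 := by
          rw [Real.rpow_def_of_pos hW0, Real.rpow_def_of_pos hN0, mul_comm, hd0N, mul_comm]
      _ ≤ W ^ C := Real.rpow_le_rpow_of_exponent_le hW1 hCC1
  rw [e1, Real.rpow_add hM0]
  calc (M : ℝ) ^ (ρ.re - ε * d) * (M : ℝ) ^ (ε * (d - (1 - ρ.re)))
      ≤ ‖pSum M γ‖ * W ^ C := mul_le_mul hM3 e2 (Real.rpow_nonneg hM0.le _) (norm_nonneg _)
    _ = _ := mul_comm _ _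

end Pool.Agent.H48.VP
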