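import Mathlib
import Pool.Agent.H76.PS.Main
import Pool.Agent.H76.VK.Richert
import Pool.Agent.H48.VP.VisS
import Pool.Agent.H48.VP.Shape
import Pool.Agent.H48.VP.Crit2

/-!
# Main: zeros near `Re = 1` and prime sums at the Vinogradov-Korobov scale
-/

set_option autoImplicit false

open Complex

namespace Pool.Agent.H48.VP

open Pool.Agent.H76.CR Pool.Agent.H52.Unc

theorem Scale.mono {C C' t0 : ℝ} {η X : ℝ → ℝ} (h : Scale C' t0 η X) (hC : C ≤ C')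
    (ht0 : Real.exp (Real.exp 1) ≤ t0) : Scale C t0 η X := by
  intro t ht
  obtain ⟨a1, a2, a3, a4, a5⟩ := h t ht
  have hte := ht0.trans ht
  have hLL := loglog_ge_one hte (by linarith : 0 ≤ X t)
  have htp : 1 ≤ t := by
    have := Real.add_one_le_exp (Real.exp 1)
    have := Real.exp_pos 1
    linarith
  refine ⟨a1, a2, a3, le_trans ?_ a4, le_trans ?_ a5⟩
  · exact mul_le_mul_of_nonneg_right hC (mul_nonneg (Real.sqrt_nonneg _) (Real.log_nonneg htp))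
  · exact mul_le_mul_of_nonneg_right hC (by linarith)

theorem shape_both {ε A B : ℝ} (hε : 0 < ε) (hε1 : ε ≤ 1 / 4) (hA : 0 < A) (hB : 1 ≤ B)
    (hbd : RB A B) :
    ∃ C0 : ℝ, Real.exp (Real.exp 1) ≤ C0 ∧ ∀ C : ℝ, C0 ≤ C → ∀ (η X : ℝ → ℝ) (t0 : ℝ), C ≤ t0 →
      Scale C t0 η X →
      (PrimeSaving ε 1 t0 η X → Region (1 - ε) t0 η) ∧
      ((∀ t : ℝ, t0 ≤ t → X t ^ (η t) ≤ t) → Regular ε t0 η →
        Region 1 t0 η → PrimeSaving ε (1 - 3 * ε) (2 * t0) η X) := by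
  obtain ⟨Ca, hCa, ha⟩ := shape_back hε hε1 hA hB hbd
  obtain ⟨Cb, hCb, hb⟩ := shape_fwd hε hε1
  have hE := Real.exp_pos (Real.exp 1)
  refine ⟨Ca + Cb + Real.exp (Real.exp 1), by linarith, ?_⟩
  intro C hC η X t0 ht0 hs
  have hte : Real.exp (Real.exp 1) ≤ t0 := by linarith
  constructor
  · intro hp
    have h := ha η X t0 (hs.mono (by linarith) hte) hp
    rwa [max_eq_left (by linarith : Ca ≤ t0)] at h
  · intro hup hreg hz
    have h := hb η X t0 (hs.mono (by linarith) hte) (by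
      intro t ht
      obtain ⟨a1, a2, a3, a4, a5⟩ := hs t ht
      have h1 := Real.log_le_log (Real.rpow_pos_of_pos (by linarith) _) (hup t ht)
      rw [Real.log_rpow (by linarith)] at h1
      linarith) hreg hz
    rwa [max_eq_left (by linarith : Cb ≤ 2 * t0)] at h

/-- the smallest scale -/
theorem shape_min {ε A B : ℝ} (hε : 0 < ε) (hε1 : ε ≤ 1 / 4) (hA : 0 < A) (hB : 1 ≤ B)
    (hbd : RB A B) :
    ∃ C0 : ℝ, 1 ≤ C0 ∧ ∀ C : ℝ, C0 ≤ C → ∀ (η : ℝ → ℝ) (t0 : ℝ), C ≤ t0 →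
      (∀ t : ℝ, t0 ≤ t → 0 ≤ η t ∧ η t ≤ 1 / C ∧
        Real.log (Real.log t) ≤ η t * √(η t) * Real.log t) →
      (PrimeSaving ε 1 t0 η (fun t => Real.exp (√(C * η t) * Real.log t)) →
        Region (1 - ε) t0 η) ∧
      (Regular ε t0 η → Region 1 t0 η →
        PrimeSaving ε (1 - 3 * ε) (2 * t0) η (fun t => Real.exp (√(C * η t) * Real.log t))) := by
  obtain ⟨C1, hC1, h⟩ := shape_both hε hε1 hA hB hbd
  have h1 : 1 ≤ C1 := by
    have := Real.add_one_le_exp (Real.exp 1)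
    have := Real.exp_pos 1
    linarith
  obtain ⟨C2, hC2, h2⟩ := scale_min h1
  refine ⟨C1 + C2, by linarith, ?_⟩
  intro C hC η t0 ht0 hη
  obtain ⟨b1, b2⟩ := h2 C (by linarith) η t0 (by linarith) hη
  obtain ⟨c1, c2⟩ := h C1 le_rfl η _ t0 (by linarith) b1
  refine ⟨c1, fun hr hz => c2 ?_ hr hz⟩
  intro t ht
  have htpos : 0 < t := by linarith
  have h3 := b2 t ht
  rw [← Real.log_le_log_iff (Real.rpow_pos_of_pos (Real.exp_pos _) _) htpos,
    Real.log_rpow (Real.exp_pos _)]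
  linarith

/-- visibility: all forms, with one constant -/
theorem vis_all {ε A B : ℝ} (hε : 0 < ε) (hε1 : ε ≤ 1 / 4) (hA : 0 < A) (hB : 1 ≤ B)
    (hbd : RB A B) :
    ∃ C0 : ℝ, 1 ≤ C0 ∧ ∀ C : ℝ, C0 ≤ C → ∀ (ρ : ℂ) (N : ℝ), riemannZeta ρ = 0 →
      1 / 2 + ε ≤ ρ.re → C ≤ ρ.im → 1 ≤ N → C * (√(1 - ρ.re) * Real.log ρ.im) ≤ Real.log N →
      (C * (Real.log ρ.im ^ 2 * Real.log (Real.log ρ.im)) ≤ Real.log N ^ 3 →
        SeenMean ε C N ρ ∧ Seen ε C N ρ) ∧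
      (C * Real.log (Real.log (ρ.im + N)) ≤ (1 - ρ.re) * Real.log N → Seen ε 0 N ρ) := by
  obtain ⟨C1, hC1, h1⟩ := visS hε hε1 hA hB hbd
  obtain ⟨C2, hC2, h2⟩ := visK hε hε1 hA hB hbd
  obtain ⟨C3, hC3, h3⟩ := visN hε hε1 hA hB hbd
  have hE := Real.exp_pos (Real.exp 1)
  refine ⟨C1 + C2 + C3 + Real.exp (Real.exp 1), by linarith, ?_⟩
  intro C hC ρ N hρ hre him hN hs
  have hte : Real.exp (Real.exp 1) ≤ ρ.im := by linarith
  have hLL := loglog_ge_one hte (by linarith : 0 ≤ N)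
  have hLL0 := loglog_ge_one hte (le_refl (0 : ℝ))
  rw [add_zero] at hLL0
  have hγ1 : 1 ≤ ρ.im := by
    have := Real.add_one_le_exp (Real.exp 1)
    have := Real.exp_pos 1
    linarith
  have hlγ : 0 ≤ Real.log ρ.im := Real.log_nonneg hγ1
  have hre1 : ρ.re < 1 := re_lt_one hρ
  have hss : 0 ≤ √(1 - ρ.re) * Real.log ρ.im := mul_nonneg (Real.sqrt_nonneg _) hlγ
  have hcc : 0 ≤ Real.log ρ.im ^ 2 * Real.log (Real.log ρ.im) :=
    mul_nonneg (sq_nonneg _) (by linarith)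
  constructor
  · intro hc
    have hP := h3 ρ N hρ hre (by linarith) hN
      ((mul_le_mul_of_nonneg_right (by linarith) hss).trans hs)
      ((mul_le_mul_of_nonneg_right (by linarith) hcc).trans hc)
    have hPC : N ^ (ρ.re - ε) ≤ PM ⌊N⌋₊ ρ.im C := hP.trans (PM_mono (by linarith) (by linarith))
    refine ⟨hPC, ?_⟩
    obtain ⟨M, hM1, hM2, hM3⟩ := h1 ρ N hρ hre (by linarith) hN
      ((mul_le_mul_of_nonneg_right (by linarith) hss).trans hs)
      ((mul_le_mul_of_nonneg_right (by linarith) hcc).trans hc)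
    refine ⟨M, hM1, hM2, hM3.trans ?_⟩
    have hle : Real.exp 1 ≤ Real.log (ρ.im + N) := by
      rw [Real.le_log_iff_exp_le (by linarith)]; linarith
    have hl1 : 1 ≤ Real.log (ρ.im + N) := by
      have := Real.add_one_le_exp (1 : ℝ)
      linarith
    exact mul_le_mul_of_nonneg_right (Real.rpow_le_rpow_of_exponent_le hl1 (by linarith))
      (norm_nonneg _)
  · intro hc
    obtain ⟨M, hM1, hM2, hM3⟩ := h2 ρ (1 - ρ.re) N hρ (by linarith) (by linarith) (by linarith)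
      (by linarith) hN ((mul_le_mul_of_nonneg_right (by linarith) hss).trans hs)
      ((mul_le_mul_of_nonneg_right (by linarith) (by linarith)).trans hc)
    refine ⟨M, hM1, hM2, ?_⟩
    rw [Real.rpow_zero, one_mul]
    exact hM3

theorem main :
    (∀ x : ℝ, 0 < x → (ZeroFree ↔ Saving x) ∧ (ZeroFree ↔ SavingOne x) ∧
      (ZeroFree ↔ SavingInt x) ∧ (ZeroFree ↔ SavingMean x)) ∧
    (∀ ε : ℝ, 0 < ε → ε ≤ 1 / 4 → ∃ C : ℝ, 1 ≤ C ∧
      (∀ (ρ : ℂ) (N : ℝ), riemannZeta ρ = 0 → 1 / 2 + ε ≤ ρ.re → C ≤ ρ.im → 1 ≤ N →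
        C * (√(1 - ρ.re) * Real.log ρ.im) ≤ Real.log N →
        (C * (Real.log ρ.im ^ 2 * Real.log (Real.log ρ.im)) ≤ Real.log N ^ 3 →
          SeenMean ε C N ρ ∧ Seen ε C N ρ) ∧
        (C * Real.log (Real.log (ρ.im + N)) ≤ (1 - ρ.re) * Real.log N → Seen ε 0 N ρ)) ∧
      (∀ (θ t U : ℝ) (M : ℕ), 1 / 2 ≤ θ → θ < 1 → 8 ≤ U → U ≤ t / 2 → 1 ≤ M →
        (∀ s : ℂ, riemannZeta s = 0 → θ < s.re → U < |s.im - t|) →
        ‖P M t‖ ≤ C / (1 - θ) * Real.log (t * M) ^ 3 *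
          ((M : ℝ) ^ (θ + ε * (1 - θ)) + M / U ^ (1 - ε))) ∧
      (∀ (η X : ℝ → ℝ) (t0 : ℝ), C ≤ t0 → Scale C t0 η X →
        (PrimeSaving ε 1 t0 η X → Region (1 - ε) t0 η) ∧
        ((∀ t : ℝ, t0 ≤ t → X t ^ (η t) ≤ t) → Regular ε t0 η → Region 1 t0 η →
          PrimeSaving ε (1 - 3 * ε) (2 * t0) η X)) ∧
      (∀ (η : ℝ → ℝ) (t0 : ℝ), C ≤ t0 →
        (∀ t : ℝ, t0 ≤ t → 0 ≤ η t ∧ η t ≤ 1 / C ∧
          Real.log (Real.log t) ≤ η t * √(η t) * Real.log t) →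
        (PrimeSaving ε 1 t0 η (fun t => Real.exp (√(C * η t) * Real.log t)) →
          Region (1 - ε) t0 η) ∧
        (Regular ε t0 η → Region 1 t0 η →
          PrimeSaving ε (1 - 3 * ε) (2 * t0) η (fun t => Real.exp (√(C * η t) * Real.log t))))) := by
  obtain ⟨A, B, hA, hB, hbd⟩ := Pool.Agent.H76.VK.richert
  have hA0 : 0 < A := by linarith
  have hRB : RB A B := hbd
  refine ⟨fun x hx => ?_, ?_⟩
  · have h : ∀ y : ℝ, 0 < y → (ZeroFree ↔ Saving y) := Pool.Agent.H76.PS.main.1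
    have h1 : ∀ y : ℝ, 0 < y → (ZeroFree ↔ SavingOne y) := fun y hy =>
      ⟨fun hz => crit1_fwd hy ((h y hy).1 hz),
        fun hs => mean_back hA0 hB hRB hy (mean_of_one hy hs)⟩
    exact ⟨h x hx, h1 x hx, ⟨fun hz => int_of_one hx ((h1 (2 * x) (by positivity)).1 hz),
      fun hi => (h1 (2 * x) (by positivity)).2 (one_of_int hx hi)⟩,
      fun hz => mean_of_one hx ((h1 x hx).1 hz), mean_back hA0 hB hRB hx⟩
  intro ε hε hε1
  obtain ⟨C1, hC1, h1⟩ := vis_all hε hε1 hA0 hB hRB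
  obtain ⟨C2, hC2, h2⟩ := primeU' hε (by linarith : ε ≤ 1 / 2)
  obtain ⟨C3, hC3, h3⟩ := shape_both hε hε1 hA0 hB hRB
  obtain ⟨C4, hC4, h4⟩ := shape_min hε hε1 hA0 hB hRB
  have hE := Real.exp_pos (Real.exp 1)
  refine ⟨C1 + C2 + C3 + C4, by linarith, h1 _ (by linarith), ?_, h3 _ (by linarith),
    h4 _ (by linarith)⟩
  intro θ t U M hθ hθ1 hU hUt hM hz
  refine (h2 θ t U M hθ hθ1 hU hUt hM hz).trans ?_
  have hd : 0 < 1 - θ := by linarith
  have hCC : C2 / (1 - θ) ≤ (C1 + C2 + C3 + C4) / (1 - θ) :=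
    div_le_div_of_nonneg_right (by linarith) hd.le
  have hU0 : 0 < U := by linarith
  have h5 : 0 ≤ (M : ℝ) ^ (θ + ε * (1 - θ)) + M / U ^ (1 - ε) := by positivity
  have h6 : 0 ≤ Real.log (t * M) ^ 3 := by
    have hM1 : (1 : ℝ) ≤ M := by exact_mod_cast hM
    have : 0 ≤ Real.log (t * M) := Real.log_nonneg (by nlinarith)
    positivity
  exact mul_le_mul_of_nonneg_right (mul_le_mul_of_nonneg_right hCC h6) h5

end Pool.Agent.H48.VP
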